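import Pool.Agent.H588R2.Model

/-!
CNF formulas, their projections, and their encoding in the memory of a word RAM.
-/

namespace Pool.Agent.H624R2.Lin

open Finset Pool.Agent.H588R2

/-- A CNF formula with `m` clauses over `n` variables, given by its two incidence matrices:
`pos j i` says that the literal `v_i` occurs in the clause `C_j`, `neg j i` that `¬ v_i` does. -/
structure CNF (n m : ℕ) where
  pos : Fin m → Fin n → Bool
  neg : Fin m → Fin n → Bool

/-- The clause `C_j` is satisfied by the assignment `a`. -/
def CNF.satClause {n m : ℕ} (φ : CNF n m) (j : Fin m) (a : Fin n → Bool) : Prop :=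
  ∃ i, (φ.pos j i = true ∧ a i = true) ∨ (φ.neg j i = true ∧ a i = false)

instance {n m : ℕ} (φ : CNF n m) (j : Fin m) (a : Fin n → Bool) :
    Decidable (φ.satClause j a) := by unfold CNF.satClause; infer_instance

/-- The projection of `φ` defined by the assignment `a`: the set of the clauses it satisfies. -/
def CNF.proj {n m : ℕ} (φ : CNF n m) (a : Fin n → Bool) : Finset (Fin m) :=
  univ.filter (fun j => φ.satClause j a)

/-- The number of projections of `φ`. -/
def CNF.numProj {n m : ℕ} (φ : CNF n m) : ℕ := (univ.image φ.proj).card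

/-- The number of satisfying assignments of `φ`. -/
def CNF.numSat {n m : ℕ} (φ : CNF n m) : ℕ :=
  (univ.filter (fun a : Fin n → Bool => ∀ j, φ.satClause j a)).card

/-- Entry of the incidence matrix: `1` if `v_i` occurs in `C_j`, plus `2` if `¬ v_i` does. -/
def CNF.ent {n m : ℕ} (φ : CNF n m) (j v : ℕ) : ℕ :=
  if h : j < m ∧ v < n then
    (if φ.pos ⟨j, h.1⟩ ⟨v, h.2⟩ = true then 1 else 0) +
      (if φ.neg ⟨j, h.1⟩ ⟨v, h.2⟩ = true then 2 else 0)
  else 0

/-- Initial contents of the memory: the incidence matrix, row by row, followed by zeros. -/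
def inputMem {n m : ℕ} (φ : CNF n m) (a : ℕ) : ℕ :=
  if a < m * n then φ.ent (a / n) (a % n) else 0

/-- The initial configuration on input `φ`: `n` and `m` in registers `0` and `1`, the incidence
matrix in the first `m n` memory cells, everything else `0`. -/
def inputConfig {n m : ℕ} (φ : CNF n m) : Config :=
  ⟨0, ⟨fun x => if x = 0 then n else if x = 1 then m else 0, inputMem φ⟩⟩

end Pool.Agent.H624R2.Lin
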