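import Pool.Agent.H624R2.Flats

/-!
Subcubes as digit strings: intersection, number of points, counting recurrence.
-/

namespace Pool.Agent.H624R2.Sat

open Finset

/-- Entry of the incidence matrix: `1` if `v_i` occurs in `C_j`, plus `2` if `¬ v_i` does. -/
def CNF.ent {n m : ℕ} (φ : CNF n m) (j v : ℕ) : ℕ :=
  if h : j < m ∧ v < n then
    (if φ.pos ⟨j, h.1⟩ ⟨v, h.2⟩ = true then 1 else 0) +
      (if φ.neg ⟨j, h.1⟩ ⟨v, h.2⟩ = true then 2 else 0)
  else 0

/-- Sum of two digits, except that equal digits are idempotent. -/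
def ms (a b : ℕ) : ℕ := if a = b then a else a + b

/-- Intersection of two digits (`0`: free, `1`: false, `2`: true, `3`: empty). -/
def md (a b : ℕ) : ℕ := if ms a b < 3 then ms a b else 0

/-- The Boolean value `x` is allowed by the digit `d`. -/
def inD (d : ℕ) (x : Bool) : Prop := d = 0 ∨ (d = 1 ∧ x = false) ∨ (d = 2 ∧ x = true)

instance (d : ℕ) (x : Bool) : Decidable (inD d x) := by unfold inD; infer_instance

theorem inD_md {a b : ℕ} {x : Bool} (ha : a < 3) (hb : b < 4) :
    (inD a x ∧ inD b x) ↔ (ms a b < 3 ∧ inD (md a b) x) := by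
  unfold inD md ms
  interval_cases a <;> interval_cases b <;> cases x <;> simp

theorem md_lt (a b : ℕ) : md a b < 3 := by
  unfold md; split_ifs with h
  · exact h
  · omega

theorem ent_lt {n m : ℕ} (φ : CNF n m) (j v : ℕ) : φ.ent j v < 4 := by
  unfold CNF.ent
  split_ifs <;> omega

/-- Point `x` lies in the cube with digits `r`. -/
def inC {n : ℕ} (r : ℕ → ℕ) (x : Fin n → Bool) : Prop := ∀ v : Fin n, inD (r v) (x v)

instance {n : ℕ} (r : ℕ → ℕ) (x : Fin n → Bool) : Decidable (inC r x) := by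
  unfold inC; infer_instance

theorem inC_ent {n m : ℕ} (φ : CNF n m) (j : Fin m) (x : Fin n → Bool) :
    inC (φ.ent j) x ↔ ¬ φ.satClause j x := by
  unfold inC CNF.satClause
  rw [not_exists]
  apply forall_congr'
  intro v
  have h : φ.ent j v = (if φ.pos j v = true then 1 else 0) + (if φ.neg j v = true then 2 else 0) := by
    unfold CNF.ent
    rw [dif_pos ⟨j.2, v.2⟩]
  rw [h]
  unfold inD
  cases φ.pos j v <;> cases φ.neg j v <;> cases x v <;> simp

/-- Compatibility of a cube with a clause cube. -/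
def compat (n : ℕ) (r e : ℕ → ℕ) : Prop := ∀ v < n, ms (r v) (e v) < 3

theorem inC_meet {n m : ℕ} (φ : CNF n m) (j : ℕ) (r : ℕ → ℕ) (hr : ∀ v < n, r v < 3)
    (x : Fin n → Bool) :
    (inC r x ∧ inC (φ.ent j) x) ↔
      (compat n r (φ.ent j) ∧ inC (fun v => md (r v) (φ.ent j v)) x) := by
  unfold inC compat
  constructor
  · rintro ⟨h1, h2⟩
    have h := fun v : Fin n => (inD_md (hr v v.2) (ent_lt φ j v)).mp ⟨h1 v, h2 v⟩
    exact ⟨fun v hv => (h ⟨v, hv⟩).1, fun v => (h v).2⟩
  · rintro ⟨h1, h2⟩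
    have h := fun v : Fin n => (inD_md (hr v v.2) (ent_lt φ j v)).mpr ⟨h1 v v.2, h2 v⟩
    exact ⟨fun v => (h v).1, fun v => (h v).2⟩

/-- Number of points of the cube `r` that lie in none of the clause cubes `j ≥ k`. -/
def cnt {n m : ℕ} (φ : CNF n m) (k : ℕ) (r : ℕ → ℕ) : ℕ :=
  ((univ : Finset (Fin n → Bool)).filter (fun x => inC r x ∧
    ∀ j : Fin m, k ≤ j → ¬ inC (φ.ent j) x)).card

theorem cnt_congr {n m : ℕ} (φ : CNF n m) (k : ℕ) {r r' : ℕ → ℕ} (h : ∀ v < n, r v = r' v) :
    cnt φ k r = cnt φ k r' := by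
  unfold cnt
  congr 1
  apply filter_congr
  intro x _
  have : inC r x ↔ inC r' x := by
    unfold inC
    exact forall_congr' fun v => by rw [h v v.2]
  rw [this]

theorem cnt_zero {n m : ℕ} (φ : CNF n m) {r : ℕ → ℕ} (h : ∀ v < n, r v = 0) :
    cnt φ 0 r = φ.numSat := by
  unfold cnt CNF.numSat
  congr 1
  apply filter_congr
  intro x _
  constructor
  · rintro ⟨-, h2⟩ j
    have := h2 j (Nat.zero_le _)
    rw [inC_ent, not_not] at this
    exact this
  · intro h2
    refine ⟨fun v => Or.inl (h v v.2), fun j _ => ?_⟩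
    rw [inC_ent, not_not]
    exact h2 j

theorem cnt_rec {n m : ℕ} (φ : CNF n m) {k : ℕ} (hk : k < m) {r : ℕ → ℕ}
    (hr : ∀ v < n, r v < 3) (hc : compat n r (φ.ent k)) :
    cnt φ k r = cnt φ (k + 1) r - cnt φ (k + 1) (fun v => md (r v) (φ.ent k v)) := by
  unfold cnt
  rw [← card_sdiff_of_subset]
  · congr 1
    ext x
    simp only [mem_filter, mem_univ, true_and, mem_sdiff]
    constructor
    · rintro ⟨h1, h2⟩
      refine ⟨⟨h1, fun j hj => h2 j (by omega)⟩, ?_⟩
      rintro ⟨h3, -⟩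
      exact h2 ⟨k, hk⟩ le_rfl ((inC_meet φ k r hr x).mpr ⟨hc, h3⟩).2
    · rintro ⟨⟨h1, h2⟩, h3⟩
      refine ⟨h1, fun j hj => ?_⟩
      rcases hj.eq_or_lt with h | h
      · intro h4
        apply h3
        rw [← h] at h4
        exact ⟨((inC_meet φ k r hr x).mp ⟨h1, h4⟩).2, h2⟩
      · exact h2 j h
  · intro x
    simp only [mem_filter, mem_univ, true_and]
    rintro ⟨h1, h2⟩
    exact ⟨((inC_meet φ k r hr x).mpr ⟨hc, h1⟩).1, h2⟩

theorem cnt_rec' {n m : ℕ} (φ : CNF n m) {k : ℕ} {r : ℕ → ℕ}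
    (hr : ∀ v < n, r v < 3) (hc : ¬ compat n r (φ.ent k)) :
    cnt φ k r = cnt φ (k + 1) r := by
  unfold cnt
  congr 1
  apply filter_congr
  intro x _
  apply and_congr_right
  intro h1
  constructor
  · intro h2 j hj
    exact h2 j (by omega)
  · intro h2 j hj
    rcases hj.eq_or_lt with h | h
    · intro h4
      rw [← h] at h4
      exact hc ((inC_meet φ k r hr x).mp ⟨h1, h4⟩).1
    · exact h2 j h

/-- Number of points of a cube. -/
def sz (r : ℕ → ℕ) : ℕ → ℕ
  | 0 => 1
  | v + 1 => if r v = 0 then sz r v + sz r v else sz r v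

/-- Code of a digit string. -/
def cod (r : ℕ → ℕ) : ℕ → ℕ
  | 0 => 0
  | v + 1 => cod r v * 4 + r v

theorem sz_congr {r r' : ℕ → ℕ} : ∀ {n : ℕ}, (∀ v < n, r v = r' v) → sz r n = sz r' n := by
  intro n
  induction n with
  | zero => intro _; rfl
  | succ n ih =>
    intro h
    simp only [sz]
    rw [ih (fun v hv => h v (by omega)), h n (by omega)]

theorem cod_congr {r r' : ℕ → ℕ} : ∀ {n : ℕ}, (∀ v < n, r v = r' v) → cod r n = cod r' n := by
  intro n
  induction n with
  | zero => intro _; rfl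
  | succ n ih =>
    intro h
    simp only [cod]
    rw [ih (fun v hv => h v (by omega)), h n (by omega)]

theorem cod_lt {r : ℕ → ℕ} : ∀ {n : ℕ}, (∀ v < n, r v < 3) → cod r n < 4 ^ n := by
  intro n
  induction n with
  | zero => intro _; simp [cod]
  | succ n ih =>
    intro h
    simp only [cod]
    have := ih (fun v hv => h v (by omega))
    have := h n (by omega)
    rw [pow_succ]; omega

theorem cod_inj {r r' : ℕ → ℕ} : ∀ {n : ℕ}, (∀ v < n, r v < 3) → (∀ v < n, r' v < 3) →
    cod r n = cod r' n → ∀ v < n, r v = r' v := by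
  intro n
  induction n with
  | zero => intro _ _ _ v hv; omega
  | succ n ih =>
    intro h h' he v hv
    simp only [cod] at he
    have h1 := h n (by omega)
    have h2 := h' n (by omega)
    rcases Nat.lt_succ_iff_lt_or_eq.mp hv with hv | hv
    · exact ih (fun v hv => h v (by omega)) (fun v hv => h' v (by omega)) (by omega) v hv
    · subst hv; omega

theorem sz_le (r : ℕ → ℕ) : ∀ n, sz r n ≤ 2 ^ n := by
  intro n
  induction n with
  | zero => simp [sz]
  | succ n ih =>
    simp only [sz]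
    rw [pow_succ]
    split_ifs <;> omega

theorem sz_pos (r : ℕ → ℕ) : ∀ n, 0 < sz r n := by
  intro n
  induction n with
  | zero => simp [sz]
  | succ n ih =>
    simp only [sz]
    split_ifs <;> omega

theorem sz_eq_prod (r : ℕ → ℕ) : ∀ n, sz r n = ∏ v ∈ range n, (if r v = 0 then 2 else 1) := by
  intro n
  induction n with
  | zero => simp [sz]
  | succ n ih =>
    simp only [sz]
    rw [prod_range_succ, ← ih]
    split_ifs <;> omega

theorem cnt_last {n m : ℕ} (φ : CNF n m) {r : ℕ → ℕ} (hr : ∀ v < n, r v < 3) :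
    cnt φ m r = sz r n := by
  have h1 : ((univ : Finset (Fin n → Bool)).filter (fun x => inC r x ∧
      ∀ j : Fin m, m ≤ j → ¬ inC (φ.ent j) x)) =
      Fintype.piFinset (fun v : Fin n => univ.filter (fun b => inD (r v) b)) := by
    ext x
    rw [mem_filter, Fintype.mem_piFinset]
    constructor
    · rintro ⟨-, h, -⟩ v
      rw [mem_filter]; exact ⟨mem_univ _, h v⟩
    · intro h
      refine ⟨mem_univ _, fun v => ?_, fun j hj => absurd j.2 (by omega)⟩
      have := h v
      rw [mem_filter] at this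
      exact this.2
  unfold cnt
  rw [h1, Fintype.card_piFinset, sz_eq_prod, ← Fin.prod_univ_eq_prod_range
    (fun v => if r v = 0 then 2 else 1)]
  apply prod_congr rfl
  intro v _
  have := hr v v.2
  unfold inD
  generalize r v = d at *
  interval_cases d <;> decide

theorem cnt_le {n m : ℕ} (φ : CNF n m) (k : ℕ) (r : ℕ → ℕ) : cnt φ k r ≤ 2 ^ n := by
  unfold cnt
  refine (card_filter_le _ _).trans ?_
  simp

/-- A good digit string: it is an intersection of clause cubes (and nonempty). -/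
structure Good {n m : ℕ} (φ : CNF n m) (r : ℕ → ℕ) : Prop where
  lt : ∀ v < n, r v < 3
  closed : ∀ v < n, r v ≠ 0 → ∃ j < m, (∀ u < n, φ.ent j u ≠ 0 → φ.ent j u = r u) ∧ φ.ent j v ≠ 0

theorem Good.congr {n m : ℕ} {φ : CNF n m} {r r' : ℕ → ℕ} (h : Good φ r)
    (he : ∀ v < n, r' v = r v) : Good φ r' := by
  constructor
  · intro v hv; rw [he v hv]; exact h.lt v hv
  · intro v hv h0
    rw [he v hv] at h0
    obtain ⟨j, hj, h1, h2⟩ := h.closed v hv h0
    exact ⟨j, hj, fun u hu hu0 => by rw [he u hu]; exact h1 u hu hu0, h2⟩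

theorem good_zero {n m : ℕ} (φ : CNF n m) {r : ℕ → ℕ} (h : ∀ v < n, r v = 0) : Good φ r := by
  constructor
  · intro v hv; rw [h v hv]; omega
  · intro v hv h0; exact absurd (h v hv) h0

theorem md_of_compat {a b : ℕ} (h : ms a b < 3) : (a ≠ 0 → md a b = a) ∧ (b ≠ 0 → md a b = b) ∧
    (md a b ≠ 0 → a ≠ 0 ∨ b ≠ 0) ∧ (a ≠ 0 → b ≠ 0 → a = b) := by
  unfold md
  rw [if_pos h]
  unfold ms at *
  split_ifs at * with h1
  · refine ⟨fun _ => rfl, fun _ => h1, fun h => Or.inl h, fun _ _ => h1⟩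
  · refine ⟨fun _ => ?_, fun _ => ?_, fun _ => by omega, fun _ _ => ?_⟩ <;> omega

theorem Good.meet {n m : ℕ} {φ : CNF n m} {r : ℕ → ℕ} (h : Good φ r) {k : ℕ} (hk : k < m)
    (hc : compat n r (φ.ent k)) : Good φ (fun v => md (r v) (φ.ent k v)) := by
  constructor
  · intro v hv; exact md_lt _ _
  · intro v hv h0
    rcases (md_of_compat (hc v hv)).2.2.1 h0 with h1 | h1
    · obtain ⟨j, hj, h2, h3⟩ := h.closed v hv h1
      refine ⟨j, hj, fun u hu hu0 => ?_, h3⟩
      have h4 := h2 u hu hu0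
      rw [(md_of_compat (hc u hu)).1 (by rw [← h4]; exact hu0)]
      exact h4
    · refine ⟨k, hk, fun u hu hu0 => ?_, h1⟩
      rw [(md_of_compat (hc u hu)).2.1 hu0]

/-- Digit string as a partial assignment. -/
def toOpt {n : ℕ} (r : ℕ → ℕ) : Fin n → Option Bool :=
  fun v => if r v = 1 then some false else if r v = 2 then some true else none

theorem mem_fal_toOpt {n m : ℕ} {φ : CNF n m} {r : ℕ → ℕ} (hr : ∀ v < n, r v < 3) {j : Fin m} :
    j ∈ φ.fal (toOpt r) ↔ ∀ u < n, φ.ent j u ≠ 0 → φ.ent j u = r u := by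
  rw [mem_fal]
  constructor
  · intro h u hu
    have h1 := h ⟨u, hu⟩
    have hru := hr u hu
    have he : φ.ent j u = (if φ.pos j ⟨u, hu⟩ = true then 1 else 0) +
        (if φ.neg j ⟨u, hu⟩ = true then 2 else 0) := by
      unfold CNF.ent
      rw [dif_pos ⟨j.2, hu⟩]
    rw [he]
    simp only [toOpt] at h1
    generalize r u = d at *
    revert h1
    interval_cases d <;> cases φ.pos j ⟨u, hu⟩ <;> cases φ.neg j ⟨u, hu⟩ <;> simp
  · intro h u
    have h1 := h u u.2
    have hru := hr u u.2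
    have he : φ.ent j u = (if φ.pos j u = true then 1 else 0) +
        (if φ.neg j u = true then 2 else 0) := by
      unfold CNF.ent
      rw [dif_pos ⟨j.2, u.2⟩]
    rw [he] at h1
    simp only [toOpt]
    generalize r u = d at *
    revert h1
    interval_cases d <;> cases φ.pos j u <;> cases φ.neg j u <;> simp

theorem good_inj {n m : ℕ} {φ : CNF n m} {r r' : ℕ → ℕ} (h : Good φ r) (h' : Good φ r')
    (he : φ.fal (toOpt (n := n) r) = φ.fal (toOpt r')) : ∀ v < n, r v = r' v := by
  have key : ∀ (r r' : ℕ → ℕ), Good φ r → Good φ r' →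
      φ.fal (toOpt (n := n) r) = φ.fal (toOpt r') → ∀ v < n, r v ≠ 0 → r v = r' v := by
    intro r r' h h' he v hv h0
    obtain ⟨j, hj, h1, h2⟩ := h.closed v hv h0
    have h3 : (⟨j, hj⟩ : Fin m) ∈ φ.fal (toOpt (n := n) r) := (mem_fal_toOpt h.lt).mpr h1
    rw [he, mem_fal_toOpt h'.lt] at h3
    rw [← h1 v hv h2]
    exact h3 v hv h2
  intro v hv
  by_cases h0 : r v = 0
  · by_cases h1 : r' v = 0
    · rw [h0, h1]
    · exact (key r' r h' h he.symm v hv h1).symm
  · exact key r r' h h' he v hv h0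

theorem rows_le {n m : ℕ} {φ : CNF n m} {N : ℕ} {row : ℕ → ℕ → ℕ} (hg : ∀ i < N, Good φ (row i))
    (hd : ∀ i < N, ∀ i' < N, (∀ v < n, row i v = row i' v) → i = i') : N ≤ φ.numFlats := by
  classical
  unfold CNF.numFlats
  have : (range N).card ≤ ((univ : Finset (Fin n → Option Bool)).image φ.fal).card := by
    apply card_le_card_of_injOn (fun i => φ.fal (toOpt (row i)))
    · intro i _
      simp
    · intro i hi i' hi' h
      simp only [coe_range, Set.mem_Iio] at hi hi'
      exact hd i hi i' hi' (good_inj (hg i hi) (hg i' hi') h)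
  simpa using this

theorem numFlats_le_four {n m : ℕ} (φ : CNF n m) : φ.numFlats ≤ 4 ^ n := by
  unfold CNF.numFlats
  refine card_image_le.trans ?_
  rw [card_univ, Fintype.card_fun, Fintype.card_option]
  simp only [Fintype.card_bool, Fintype.card_fin]
  exact Nat.pow_le_pow_left (by norm_num) _

end Pool.Agent.H624R2.Sat
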