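import Mathlib

/-!
CNF formulas, projections, and the bound on the number of flats.
-/

namespace Pool.Agent.H624R2.Sat

open Finset

/-- A CNF formula with `m` clauses over `n` variables, given by its two incidence matrices:
`pos j i` says that the literal `v_i` occurs in the clause `C_j`, `neg j i` that `¬ v_i` does. -/
structure CNF (n m : ℕ) where
  pos : Fin m → Fin n → Bool
  neg : Fin m → Fin n → Bool

/-- The clause `C_j` is satisfied by the assignment `a`. -/
def CNF.satClause {n m : ℕ} (φ : CNF n m) (j : Fin m) (a : Fin n → Bool) : Prop :=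
  ∃ i, (φ.pos j i = true ∧ a i = true) ∨ (φ.neg j i = true ∧ a i = false)

instance {n m : ℕ} (φ : CNF n m) (j : Fin m) (a : Fin n → Bool) :
    Decidable (φ.satClause j a) := by unfold CNF.satClause; infer_instance

/-- The projection of `φ` defined by the assignment `a`: the set of the clauses it satisfies. -/
def CNF.proj {n m : ℕ} (φ : CNF n m) (a : Fin n → Bool) : Finset (Fin m) :=
  univ.filter (fun j => φ.satClause j a)

/-- The number of projections of `φ`. -/
def CNF.numProj {n m : ℕ} (φ : CNF n m) : ℕ := (univ.image φ.proj).card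

/-- The number of satisfying assignments of `φ`. -/
def CNF.numSat {n m : ℕ} (φ : CNF n m) : ℕ :=
  (univ.filter (fun a : Fin n → Bool => ∀ j, φ.satClause j a)).card

/-- The clauses falsified by a partial assignment (`none`: variable not assigned). -/
def CNF.fal {n m : ℕ} (φ : CNF n m) (r : Fin n → Option Bool) : Finset (Fin m) :=
  univ.filter (fun j => ∀ i, (φ.pos j i = true → r i = some false) ∧
    (φ.neg j i = true → r i = some true))

theorem mem_proj {n m : ℕ} {φ : CNF n m} {a : Fin n → Bool} {j : Fin m} :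
    j ∈ φ.proj a ↔ φ.satClause j a := by
  unfold CNF.proj; rw [mem_filter]; simp

theorem mem_fal {n m : ℕ} {φ : CNF n m} {r : Fin n → Option Bool} {j : Fin m} :
    j ∈ φ.fal r ↔ ∀ i, (φ.pos j i = true → r i = some false) ∧
    (φ.neg j i = true → r i = some true) := by
  unfold CNF.fal; rw [mem_filter]; simp

theorem fal_total {n m : ℕ} (φ : CNF n m) (a : Fin n → Bool) :
    φ.fal (fun i => some (a i)) = (φ.proj a)ᶜ := by
  ext j
  rw [mem_compl, mem_proj, mem_fal, CNF.satClause, not_exists]
  simp only [Option.some.injEq]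
  constructor
  · intro h i hi
    rcases hi with ⟨h1, h2⟩ | ⟨h1, h2⟩
    · have := (h i).1 h1; rw [h2] at this; exact absurd this (by decide)
    · have := (h i).2 h1; rw [h2] at this; exact absurd this (by decide)
  · intro h i
    have := h i
    constructor
    · intro h1
      by_contra h2
      exact this (Or.inl ⟨h1, by simpa using h2⟩)
    · intro h1
      by_contra h2
      exact this (Or.inr ⟨h1, by simpa using h2⟩)

/-- The exponent. -/
noncomputable def al : ℝ := Real.logb 2 3

theorem one_le_al : 1 ≤ al := by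
  unfold al
  rw [Real.le_logb_iff_rpow_le (by norm_num) (by norm_num)]
  norm_num

theorem two_rpow_al : (2 : ℝ) ^ al = 3 := by
  unfold al
  exact Real.rpow_logb (by norm_num) (by norm_num) (by norm_num)

/-- The key inequality. -/
theorem key_ineq {i j : ℝ} (hj : 0 ≤ j) (hij : j ≤ i) :
    i ^ al + 2 * j ^ al ≤ (i + j) ^ al := by
  rcases hj.eq_or_lt with h0 | hjpos
  · rw [← h0, Real.zero_rpow (by have := one_le_al; linarith)]
    simp
  have hi : 0 < i := lt_of_lt_of_le hjpos hij
  have hconv := convexOn_rpow one_le_al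
  have hl0 : 0 ≤ j / i := by positivity
  have hl1 : 0 ≤ 1 - j / i := by
    rw [sub_nonneg, div_le_one hi]; exact hij
  have h1 := hconv.2 (x := j) (y := i + j) (by simpa using hj) (by simp; linarith)
    hl0 hl1 (by ring)
  have h2 := hconv.2 (x := j) (y := i + j) (by simpa using hj) (by simp; linarith)
    hl1 hl0 (by ring)
  simp only [smul_eq_mul] at h1 h2
  have e1 : j / i * j + (1 - j / i) * (i + j) = i := by field_simp; ring
  have e2 : (1 - j / i) * j + j / i * (i + j) = 2 * j := by field_simp; ring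
  rw [e1] at h1
  rw [e2, Real.mul_rpow (by norm_num) hj, two_rpow_al] at h2
  nlinarith [h1, h2]

theorem key_ineq' {x y z : ℕ} (h : z ≤ x) (h' : z ≤ y) {p : ℕ} (hp : x + y ≤ p) :
    (x : ℝ) ^ al + (y : ℝ) ^ al + (z : ℝ) ^ al ≤ (p : ℝ) ^ al := by
  have ha : 0 ≤ al := le_trans (by norm_num) one_le_al
  have hp' : ((x : ℝ) + y) ^ al ≤ (p : ℝ) ^ al :=
    Real.rpow_le_rpow (by positivity) (by exact_mod_cast hp) ha
  refine le_trans ?_ hp'
  rcases le_total x y with hxy | hxy
  · have h1 := key_ineq (i := y) (j := x) (by positivity) (by exact_mod_cast hxy)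
    have h2 : (z : ℝ) ^ al ≤ (x : ℝ) ^ al := Real.rpow_le_rpow (by positivity) (by exact_mod_cast h) ha
    rw [add_comm (y : ℝ) x] at h1
    linarith
  · have h1 := key_ineq (i := x) (j := y) (by positivity) (by exact_mod_cast hxy)
    have h2 : (z : ℝ) ^ al ≤ (y : ℝ) ^ al := Real.rpow_le_rpow (by positivity) (by exact_mod_cast h') ha
    linarith

/-- Formula obtained by deleting all literals of the first variable. -/
def CNF.tail {n m : ℕ} (φ : CNF (n + 1) m) : CNF n m :=
  ⟨fun j i => φ.pos j i.succ, fun j i => φ.neg j i.succ⟩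

/-- Clauses in which `v_0` occurs positively. -/
def CNF.A {n m : ℕ} (φ : CNF (n + 1) m) : Finset (Fin m) := univ.filter (fun j => φ.pos j 0 = true)

/-- Clauses in which `v_0` occurs negatively. -/
def CNF.B {n m : ℕ} (φ : CNF (n + 1) m) : Finset (Fin m) := univ.filter (fun j => φ.neg j 0 = true)

/-- The clauses that can be falsified when the first variable has the value `o`. -/
def CNF.keep {n m : ℕ} (φ : CNF (n + 1) m) : Option Bool → Finset (Fin m)
  | none => (φ.A ∪ φ.B)ᶜ
  | some false => φ.Bᶜ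
  | some true => φ.Aᶜ

theorem fal_cons {n m : ℕ} (φ : CNF (n + 1) m) (r : Fin (n + 1) → Option Bool) :
    φ.fal r = φ.tail.fal (fun i => r i.succ) ∩ φ.keep (r 0) := by
  ext j
  rw [mem_fal, mem_inter, mem_fal, Fin.forall_fin_succ, and_comm]
  simp only [CNF.tail]
  apply and_congr_right
  intro _
  rcases h : r 0 with _ | b
  · simp [CNF.keep, CNF.A, CNF.B]
  · cases b <;> simp [CNF.keep, CNF.A, CNF.B]

/-- Sets of falsified clauses inside `K`, over all partial assignments, that belong to `U`. -/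
noncomputable def QQ {n m : ℕ} (φ : CNF n m) (K : Finset (Fin m)) (U : Finset (Fin m) → Prop) :
    Finset (Finset (Fin m)) := by
  classical exact
    ((univ : Finset (Fin n → Option Bool)).image (fun r => φ.fal r ∩ K)).filter U

/-- Sets of falsified clauses inside `K`, over all total assignments, that belong to `U`. -/
noncomputable def PP {n m : ℕ} (φ : CNF n m) (K : Finset (Fin m)) (U : Finset (Fin m) → Prop) :
    Finset (Finset (Fin m)) := by
  classical exact
    ((univ : Finset (Fin n → Bool)).image (fun a => φ.fal (fun i => some (a i)) ∩ K)).filter U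

theorem mem_QQ {n m : ℕ} {φ : CNF n m} {K : Finset (Fin m)} {U : Finset (Fin m) → Prop} {S} :
    S ∈ QQ φ K U ↔ (∃ r, φ.fal r ∩ K = S) ∧ U S := by
  classical simp [QQ]

theorem mem_PP {n m : ℕ} {φ : CNF n m} {K : Finset (Fin m)} {U : Finset (Fin m) → Prop} {S} :
    S ∈ PP φ K U ↔ (∃ a : Fin n → Bool, φ.fal (fun i => some (a i)) ∩ K = S) ∧ U S := by
  classical simp [PP]

/-- The heart of the induction step: `K₀`, `K₁` are the clauses kept in the two halves,
and the trace on `K₁ \ K₀` is at least as rich as that on `K₀ \ K₁`. -/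
theorem step {n m : ℕ} (ψ : CNF n m)
    (ih : ∀ (K : Finset (Fin m)) (U : Finset (Fin m) → Prop), (∀ S T, S ⊆ T → U S → U T) →
      ((QQ ψ K U).card : ℝ) ≤ ((PP ψ K U).card : ℝ) ^ al)
    (K₀ K₁ : Finset (Fin m)) (U : Finset (Fin m) → Prop) (hU : ∀ S T, S ⊆ T → U S → U T)
    (hle : (PP ψ K₀ (fun S => U S ∧ (S \ K₁).Nonempty)).card ≤
      (PP ψ K₁ (fun S => U S ∧ (S \ K₀).Nonempty)).card)
    (QF PF : Finset (Finset (Fin m)))
    (hQF : ∀ S ∈ QF, S ∈ QQ ψ K₀ U ∨ S ∈ QQ ψ K₁ U ∨ S ∈ QQ ψ (K₀ ∩ K₁) U)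
    (hPF0 : PP ψ K₀ U ⊆ PF) (hPF1 : PP ψ K₁ U ⊆ PF) :
    (QF.card : ℝ) ≤ (PF.card : ℝ) ^ al := by
  classical
  set U0 : Finset (Fin m) → Prop := fun S => U S ∧ (S \ K₁).Nonempty with hU0
  set U1 : Finset (Fin m) → Prop := fun S => U S ∧ (S \ K₀).Nonempty with hU1
  have hU0' : ∀ S T, S ⊆ T → U0 S → U0 T := fun S T h hS =>
    ⟨hU S T h hS.1, hS.2.mono (sdiff_subset_sdiff h (subset_refl _))⟩
  have hU1' : ∀ S T, S ⊆ T → U1 S → U1 T := fun S T h hS =>
    ⟨hU S T h hS.1, hS.2.mono (sdiff_subset_sdiff h (subset_refl _))⟩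
  have i1 := ih K₀ U hU
  have i2 := ih K₁ U1 hU1'
  have i3 := ih K₀ U0 hU0'
  -- the exceptional flats
  set X := (QQ ψ (K₀ ∩ K₁) U) \ (QQ ψ K₀ U) with hX
  have hXc : X.card ≤ (QQ ψ K₀ U0).card := by
    have hch : ∀ S ∈ X, ∃ r, ψ.fal r ∩ (K₀ ∩ K₁) = S := by
      intro S hS
      rw [hX, mem_sdiff, mem_QQ] at hS
      exact hS.1.1
    choose! f hf using hch
    apply Finset.card_le_card_of_injOn (fun S => ψ.fal (f S) ∩ K₀)
    · intro S hS
      have h1 := hf S hS
      have hS' := hS
      rw [hX, mem_coe, mem_sdiff, mem_QQ] at hS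
      have hsub : S ⊆ ψ.fal (f S) ∩ K₀ := by
        conv_lhs => rw [← h1]
        exact inter_subset_inter_left inter_subset_left
      rw [mem_coe, mem_QQ]
      refine ⟨⟨f S, rfl⟩, hU _ _ hsub hS.1.2, ?_⟩
      by_contra hne
      rw [not_nonempty_iff_eq_empty, sdiff_eq_empty_iff_subset] at hne
      apply hS.2
      rw [mem_QQ]
      refine ⟨⟨f S, ?_⟩, hS.1.2⟩
      apply subset_antisymm _ hsub
      intro x hx
      have h3 := hne hx
      have h4 : x ∈ ψ.fal (f S) ∩ (K₀ ∩ K₁) := by
        simp only [mem_inter] at hx ⊢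
        exact ⟨hx.1, hx.2, h3⟩
      rwa [h1] at h4
    · intro S hS T hT hST
      simp only at hST
      rw [← hf S hS, ← hf T hT, ← inter_assoc, ← inter_assoc, hST]
  have hQsub : QF ⊆ QQ ψ K₀ U ∪ QQ ψ K₁ U1 ∪ X := by
    intro S hS
    rw [mem_union, mem_union]
    by_cases h0 : S ∈ QQ ψ K₀ U
    · exact Or.inl (Or.inl h0)
    rcases hQF S hS with h | h | h
    · exact absurd h h0
    · by_cases h1 : (S \ K₀).Nonempty
      · left; right
        rw [mem_QQ] at h ⊢
        exact ⟨h.1, h.2, h1⟩
      · right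
        rw [hX, mem_sdiff]
        refine ⟨?_, h0⟩
        rw [mem_QQ] at h ⊢
        obtain ⟨⟨r, hr⟩, hUS⟩ := h
        refine ⟨⟨r, ?_⟩, hUS⟩
        rw [not_nonempty_iff_eq_empty, sdiff_eq_empty_iff_subset] at h1
        rw [← hr] at h1 ⊢
        ext x
        constructor
        · intro hx
          simp only [mem_inter] at hx ⊢
          exact ⟨hx.1, hx.2.2⟩
        · intro hx
          have := h1 hx
          simp only [mem_inter] at hx ⊢
          exact ⟨hx.1, this, hx.2⟩
    · right
      rw [hX, mem_sdiff]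
      exact ⟨h, h0⟩
  have hQcard : QF.card ≤ (QQ ψ K₀ U).card + (QQ ψ K₁ U1).card + (QQ ψ K₀ U0).card := by
    calc QF.card ≤ (QQ ψ K₀ U ∪ QQ ψ K₁ U1 ∪ X).card := card_le_card hQsub
      _ ≤ (QQ ψ K₀ U ∪ QQ ψ K₁ U1).card + X.card := card_union_le _ _
      _ ≤ (QQ ψ K₀ U).card + (QQ ψ K₁ U1).card + X.card :=
          Nat.add_le_add_right (card_union_le _ _) _
      _ ≤ _ := Nat.add_le_add_left hXc _
  have hPcard : (PP ψ K₀ U).card + (PP ψ K₁ U1).card ≤ PF.card := by
    rw [← card_union_of_disjoint]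
    · apply card_le_card
      apply union_subset hPF0
      refine subset_trans ?_ hPF1
      intro S hS
      rw [mem_PP] at hS ⊢
      exact ⟨hS.1, hS.2.1⟩
    · rw [disjoint_left]
      intro S h0 h1
      rw [mem_PP] at h0 h1
      obtain ⟨⟨a, ha⟩, -⟩ := h0
      obtain ⟨x, hx⟩ := h1.2.2
      rw [mem_sdiff] at hx
      apply hx.2
      rw [← ha] at hx
      exact (mem_inter.mp hx.1).2
  have hz1 : (PP ψ K₀ U0).card ≤ (PP ψ K₀ U).card := by
    apply card_le_card
    intro S hS
    rw [mem_PP] at hS ⊢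
    exact ⟨hS.1, hS.2.1⟩
  have := key_ineq' hz1 hle hPcard
  calc (QF.card : ℝ) ≤ ((QQ ψ K₀ U).card : ℝ) + (QQ ψ K₁ U1).card + (QQ ψ K₀ U0).card := by
        exact_mod_cast hQcard
    _ ≤ _ := by linarith

theorem card_QQ_le {n m : ℕ} : ∀ (φ : CNF n m) (K : Finset (Fin m)) (U : Finset (Fin m) → Prop),
    (∀ S T, S ⊆ T → U S → U T) → ((QQ φ K U).card : ℝ) ≤ ((PP φ K U).card : ℝ) ^ al := by
  classical
  induction n with
  | zero =>
    intro φ K U _
    have h : QQ φ K U = PP φ K U := by
      ext S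
      rw [mem_QQ, mem_PP]
      apply and_congr_left
      intro _
      constructor
      · rintro ⟨r, hr⟩
        exact ⟨fun i => i.elim0, by rw [← hr]; congr; funext i; exact i.elim0⟩
      · rintro ⟨r, hr⟩
        exact ⟨fun i => i.elim0, by rw [← hr]; congr; funext i; exact i.elim0⟩
    rw [h]
    rcases Nat.eq_zero_or_pos (PP φ K U).card with h0 | h0
    · rw [h0]; simp only [Nat.cast_zero]
      rw [Real.zero_rpow (by have := one_le_al; linarith)]
    · exact Real.self_le_rpow_of_one_le (by exact_mod_cast h0) one_le_al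
  | succ n ih =>
    intro φ K U hU
    have hmemP : ∀ (b : Bool) S, S ∈ PP φ.tail (φ.keep (some b) ∩ K) U → S ∈ PP φ K U := by
      intro b S hS
      rw [mem_PP] at hS ⊢
      obtain ⟨⟨a, ha⟩, hUS⟩ := hS
      refine ⟨⟨Fin.cons b a, ?_⟩, hUS⟩
      rw [fal_cons, ← ha]
      simp only [Fin.cons_succ, Fin.cons_zero, inter_assoc]
    have hmemQ : ∀ S ∈ QQ φ K U, S ∈ QQ φ.tail (φ.keep (some false) ∩ K) U ∨
        S ∈ QQ φ.tail (φ.keep (some true) ∩ K) U ∨
        S ∈ QQ φ.tail ((φ.keep (some false) ∩ K) ∩ (φ.keep (some true) ∩ K)) U := by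
      intro S hS
      rw [mem_QQ] at hS
      obtain ⟨⟨r, hr⟩, hUS⟩ := hS
      rw [fal_cons] at hr
      rcases h : r 0 with _ | b
      · right; right
        rw [mem_QQ]
        refine ⟨⟨fun i => r i.succ, ?_⟩, hUS⟩
        rw [← hr, h]
        ext x
        simp only [mem_inter, CNF.keep, mem_compl, mem_union, not_or]
        tauto
      · cases b
        · left
          rw [mem_QQ]
          exact ⟨⟨fun i => r i.succ, by rw [← hr, h, inter_assoc]⟩, hUS⟩
        · right; left
          rw [mem_QQ]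
          exact ⟨⟨fun i => r i.succ, by rw [← hr, h, inter_assoc]⟩, hUS⟩
    rcases le_total (PP φ.tail (φ.keep (some false) ∩ K)
        (fun S => U S ∧ (S \ (φ.keep (some true) ∩ K)).Nonempty)).card
      (PP φ.tail (φ.keep (some true) ∩ K)
        (fun S => U S ∧ (S \ (φ.keep (some false) ∩ K)).Nonempty)).card with hle | hle
    · exact step φ.tail (ih φ.tail) _ _ U hU hle _ _ hmemQ (hmemP false) (hmemP true)
    · refine step φ.tail (ih φ.tail) _ _ U hU hle _ _ ?_ (hmemP true) (hmemP false)
      intro S hS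
      rcases hmemQ S hS with h | h | h
      · exact Or.inr (Or.inl h)
      · exact Or.inl h
      · right; right
        rwa [inter_comm] at h

/-- The number of flats: distinct sets of clauses falsified by partial assignments. -/
def CNF.numFlats {n m : ℕ} (φ : CNF n m) : ℕ :=
  ((univ : Finset (Fin n → Option Bool)).image φ.fal).card

theorem numFlats_le {n m : ℕ} (φ : CNF n m) :
    (φ.numFlats : ℝ) ≤ (φ.numProj : ℝ) ^ Real.logb 2 3 := by
  classical
  have h := card_QQ_le φ univ (fun _ => True) (fun _ _ _ _ => trivial)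
  have h1 : QQ φ univ (fun _ => True) = (univ : Finset (Fin n → Option Bool)).image φ.fal := by
    ext S; rw [mem_QQ]; simp
  have h2 : (PP φ univ (fun _ => True)).card = φ.numProj := by
    have : PP φ univ (fun _ => True) = (univ.image φ.proj).image (fun S => Sᶜ) := by
      ext S; rw [mem_PP]; simp only [fal_total, inter_univ, and_true, mem_image, mem_univ,
        true_and, exists_exists_eq_and]
    rw [this, card_image_of_injective _ compl_injective]
    rfl
  rw [h1, h2] at h
  exact h

end Pool.Agent.H624R2.Sat
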