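import Pool.Agent.H624R2.LinBase

/-!
Counting recurrences for the linear-time-in-projections algorithm.
-/

namespace Pool.Agent.H624R2.Lin

open Finset

variable {n m : ℕ}

/-! ### Counting assignments -/

open Classical in
/-- The number of assignments satisfying a property. -/
noncomputable def ct (V : (Fin n → Bool) → Prop) : ℕ := (univ.filter V).card

theorem ct_congr {V W : (Fin n → Bool) → Prop} (h : ∀ a, V a ↔ W a) : ct V = ct W := by
  have : V = W := funext fun a => propext (h a)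
  rw [this]

theorem ct_add {V W : (Fin n → Bool) → Prop} (h : ∀ a, V a → ¬ W a) :
    ct (fun a => V a ∨ W a) = ct V + ct W := by
  classical
  unfold ct
  rw [← card_union_of_disjoint]
  · congr 1
    ext a
    simp
  · rw [disjoint_filter]
    intro a _
    exact h a

theorem ct_split (V W : (Fin n → Bool) → Prop) :
    ct V = ct (fun a => V a ∧ W a) + ct (fun a => V a ∧ ¬ W a) := by
  rw [← ct_add]
  · apply ct_congr
    intro a
    tauto
  · intro a h1 h2
    exact h2.2 h1.2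

theorem ct_zero {V : (Fin n → Bool) → Prop} (h : ∀ a, ¬ V a) : ct V = 0 := by
  classical
  unfold ct
  rw [card_eq_zero, filter_eq_empty_iff]
  intro a _
  exact h a

theorem ct_pos {V : (Fin n → Bool) → Prop} : 0 < ct V ↔ ∃ a, V a := by
  classical
  unfold ct
  rw [card_pos]
  constructor
  · rintro ⟨a, ha⟩
    rw [mem_filter] at ha
    exact ⟨a, ha.2⟩
  · rintro ⟨a, ha⟩
    exact ⟨a, by rw [mem_filter]; exact ⟨mem_univ _, ha⟩⟩

theorem ct_le (V : (Fin n → Bool) → Prop) : ct V ≤ 2 ^ n := by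
  classical
  unfold ct
  refine (card_filter_le _ _).trans ?_
  simp

theorem ct_true : ct (fun _ : Fin n → Bool => True) = 2 ^ n := by
  classical
  unfold ct
  simp

/-- Flip a coordinate. -/
def flip (i : ℕ) (a : Fin n → Bool) : Fin n → Bool := fun v => if (v : ℕ) = i then !a v else a v

theorem flip_flip (i : ℕ) (a : Fin n → Bool) : flip i (flip i a) = a := by
  funext v
  unfold flip
  split_ifs <;> simp

theorem ct_flip (i : ℕ) (V : (Fin n → Bool) → Prop) : ct (fun a => V (flip i a)) = ct V := by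
  classical
  unfold ct
  apply card_bij' (fun a _ => flip i a) (fun a _ => flip i a)
  · intro a ha
    rw [mem_filter] at ha ⊢
    exact ⟨mem_univ _, ha.2⟩
  · intro a ha
    rw [mem_filter] at ha ⊢
    rw [flip_flip]
    exact ⟨mem_univ _, ha.2⟩
  · intro a _
    exact flip_flip i a
  · intro a _
    exact flip_flip i a

/-! ### Classes -/

/-- The clause cube `j` contains the cube with digits `r`. -/
def sup (φ : CNF n m) (r : ℕ → ℕ) (j : ℕ) : Prop := ∀ v < n, φ.ent j v = 0 ∨ φ.ent j v = r v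

/-- Among the first `k` clauses exactly those containing the cube `r` are falsified by `a`. -/
def isT (φ : CNF n m) (k : ℕ) (r : ℕ → ℕ) (a : Fin n → Bool) : Prop :=
  ∀ j < k, inC (φ.ent j) a ↔ sup φ r j

/-- The number of assignments in `V` of the class of `r`. -/
noncomputable def cl (φ : CNF n m) (k : ℕ) (r : ℕ → ℕ) (V : (Fin n → Bool) → Prop) : ℕ :=
  ct (fun a => V a ∧ isT φ k r a)

/-- `r` is an intersection of clause cubes with index below `k`. -/
structure Gd (φ : CNF n m) (k : ℕ) (r : ℕ → ℕ) : Prop where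
  lt : ∀ v < n, r v < 3
  closed : ∀ v < n, r v ≠ 0 → ∃ j < k, sup φ r j ∧ φ.ent j v ≠ 0

theorem sup_congr {φ : CNF n m} {r r' : ℕ → ℕ} (h : ∀ v < n, r v = r' v) (j : ℕ) :
    sup φ r j ↔ sup φ r' j := by
  unfold sup
  constructor
  · intro h1 v hv; rw [← h v hv]; exact h1 v hv
  · intro h1 v hv; rw [h v hv]; exact h1 v hv

theorem isT_congr {φ : CNF n m} {k : ℕ} {r r' : ℕ → ℕ} (h : ∀ v < n, r v = r' v)
    (a : Fin n → Bool) : isT φ k r a ↔ isT φ k r' a := by
  unfold isT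
  constructor
  · intro h1 j hj; rw [← sup_congr h]; exact h1 j hj
  · intro h1 j hj; rw [sup_congr h]; exact h1 j hj

theorem cl_congr {φ : CNF n m} {k : ℕ} {r r' : ℕ → ℕ} (h : ∀ v < n, r v = r' v)
    (V : (Fin n → Bool) → Prop) : cl φ k r V = cl φ k r' V :=
  ct_congr fun a => by rw [isT_congr h]

theorem cl_congr' {φ : CNF n m} {k : ℕ} {r : ℕ → ℕ} {V W : (Fin n → Bool) → Prop}
    (h : ∀ a, V a ↔ W a) : cl φ k r V = cl φ k r W :=
  ct_congr fun a => by rw [h]

theorem Gd.congr {φ : CNF n m} {k : ℕ} {r r' : ℕ → ℕ} (h : Gd φ k r)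
    (he : ∀ v < n, r' v = r v) : Gd φ k r' := by
  constructor
  · intro v hv; rw [he v hv]; exact h.lt v hv
  · intro v hv h0
    rw [he v hv] at h0
    obtain ⟨j, hj, h1, h2⟩ := h.closed v hv h0
    exact ⟨j, hj, (sup_congr he j).mpr h1, h2⟩

theorem Gd.mono {φ : CNF n m} {k k' : ℕ} {r : ℕ → ℕ} (h : Gd φ k r) (hk : k ≤ k') :
    Gd φ k' r := by
  constructor
  · exact h.lt
  · intro v hv h0
    obtain ⟨j, hj, h1⟩ := h.closed v hv h0
    exact ⟨j, by omega, h1⟩

theorem gd_inj {φ : CNF n m} {k : ℕ} {r r' : ℕ → ℕ} (h : Gd φ k r) (h' : Gd φ k r')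
    (he : ∀ j < k, sup φ r j ↔ sup φ r' j) : ∀ v < n, r v = r' v := by
  have key : ∀ (r r' : ℕ → ℕ), Gd φ k r → (∀ j < k, sup φ r j → sup φ r' j) →
      ∀ v < n, r v ≠ 0 → r v = r' v := by
    intro r r' h he v hv h0
    obtain ⟨j, hj, h1, h2⟩ := h.closed v hv h0
    have h3 := he j hj h1 v hv
    have h4 := h1 v hv
    rcases h3 with h3 | h3
    · exact absurd h3 h2
    · rcases h4 with h4 | h4
      · exact absurd h4 h2
      · rw [← h4, h3]
  intro v hv
  by_cases h0 : r v = 0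
  · by_cases h1 : r' v = 0
    · rw [h0, h1]
    · exact (key r' r h' (fun j hj => (he j hj).mpr) v hv h1).symm
  · exact key r r' h (fun j hj => (he j hj).mp) v hv h0

theorem isT_unique {φ : CNF n m} {k : ℕ} {r r' : ℕ → ℕ} {a : Fin n → Bool} (h : isT φ k r a)
    (h' : isT φ k r' a) : ∀ j < k, sup φ r j ↔ sup φ r' j :=
  fun j hj => (h j hj).symm.trans (h' j hj)

theorem in_cube {φ : CNF n m} {k : ℕ} {r : ℕ → ℕ} {a : Fin n → Bool} (hg : Gd φ k r)
    (h : isT φ k r a) : inC r a := by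
  intro v
  by_cases h0 : r v = 0
  · exact Or.inl h0
  · obtain ⟨j, hj, h1, h2⟩ := hg.closed v v.2 h0
    have h3 := (h j hj).mpr h1 v
    rcases h1 v v.2 with h4 | h4
    · exact absurd h4 h2
    · rw [← h4]; exact h3

/-- A clause cube containing the cube `r`. -/
theorem sup_in {φ : CNF n m} {r : ℕ → ℕ} {a : Fin n → Bool} {j : ℕ} (hs : sup φ r j)
    (h : inC r a) : inC (φ.ent j) a := by
  intro v
  rcases hs v v.2 with h1 | h1
  · exact Or.inl h1
  · rw [h1]; exact h v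

/-! ### Targets -/

open Classical in
/-- Digits of the intersection of the clause cubes `j < k` containing `r` that do not
restrict the variable `i`. -/
noncomputable def tg (φ : CNF n m) (k i : ℕ) (r : ℕ → ℕ) (v : ℕ) : ℕ :=
  if ∃ j < k, sup φ r j ∧ φ.ent j i = 0 ∧ φ.ent j v ≠ 0 then r v else 0

theorem tg_lt {φ : CNF n m} {k i : ℕ} {r : ℕ → ℕ} (h : ∀ v < n, r v < 3) :
    ∀ v < n, tg φ k i r v < 3 := by
  intro v hv
  unfold tg
  split_ifs
  · exact h v hv
  · omega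

theorem tg_congr {φ : CNF n m} {k i : ℕ} {r r' : ℕ → ℕ} (h : ∀ v < n, r v = r' v) :
    ∀ v < n, tg φ k i r v = tg φ k i r' v := by
  intro v hv
  unfold tg
  have h1 : (∃ j < k, sup φ r j ∧ φ.ent j i = 0 ∧ φ.ent j v ≠ 0) ↔
      (∃ j < k, sup φ r' j ∧ φ.ent j i = 0 ∧ φ.ent j v ≠ 0) := by
    constructor
    · rintro ⟨j, hj, h1, h2⟩
      exact ⟨j, hj, (sup_congr h j).mp h1, h2⟩
    · rintro ⟨j, hj, h1, h2⟩
      exact ⟨j, hj, (sup_congr h j).mpr h1, h2⟩
  by_cases h2 : ∃ j < k, sup φ r j ∧ φ.ent j i = 0 ∧ φ.ent j v ≠ 0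
  · rw [if_pos h2, if_pos (h1.mp h2), h v hv]
  · rw [if_neg h2, if_neg (fun h3 => h2 (h1.mpr h3))]

theorem tg_iff {φ : CNF n m} {k i : ℕ} {p r : ℕ → ℕ} (hp : Gd φ k p) (hi : i < n)
    (hpi : p i = 0) :
    (∀ v < n, tg φ k i r v = p v) ↔ ∀ j < k, φ.ent j i = 0 → (sup φ r j ↔ sup φ p j) := by
  constructor
  · intro h j hj h0
    constructor
    · intro hs v hv
      by_cases h1 : φ.ent j v = 0
      · exact Or.inl h1
      · right
        rw [← h v hv]
        unfold tg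
        rw [if_pos ⟨j, hj, hs, h0, h1⟩]
        exact (hs v hv).resolve_left h1
    · intro hs v hv
      by_cases h1 : φ.ent j v = 0
      · exact Or.inl h1
      · right
        have h2 := (hs v hv).resolve_left h1
        have h3 := h v hv
        unfold tg at h3
        split_ifs at h3
        · rw [h2, h3]
        · omega
  · intro h v hv
    by_cases h0 : p v = 0
    · rw [h0]
      unfold tg
      rw [if_neg]
      rintro ⟨j, hj, h1, h2, h3⟩
      have h4 := (h j hj h2).mp h1 v hv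
      rw [h0] at h4
      exact h3 (by tauto)
    · obtain ⟨j, hj, h1, h2⟩ := hp.closed v hv h0
      have h3 : φ.ent j i = 0 := by
        rcases h1 i hi with h3 | h3
        · exact h3
        · rw [h3, hpi]
      have h4 := (h j hj h3).mpr h1
      unfold tg
      rw [if_pos ⟨j, hj, h4, h3, h2⟩]
      rw [← (h4 v hv).resolve_left h2, ← (h1 v hv).resolve_left h2]

/-! ### Tables -/

/-- The rows below `N` are the distinct cubes, and all classes are represented. -/
structure Tb (φ : CNF n m) (k N : ℕ) (row : ℕ → ℕ → ℕ) : Prop where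
  good : ∀ e < N, Gd φ k (row e)
  inj : ∀ e < N, ∀ e' < N, (∀ v < n, row e v = row e' v) → e = e'
  cover : ∀ a : Fin n → Bool, ∃ e < N, isT φ k (row e) a

theorem Tb.uniq {φ : CNF n m} {k N : ℕ} {row : ℕ → ℕ → ℕ} (h : Tb φ k N row) {e e' : ℕ}
    (he : e < N) (he' : e' < N) {a : Fin n → Bool} (h1 : isT φ k (row e) a)
    (h2 : isT φ k (row e') a) : e = e' :=
  h.inj e he e' he' (gd_inj (h.good e he) (h.good e' he') (isT_unique h1 h2))

theorem Tb.congr {φ : CNF n m} {k N : ℕ} {row row' : ℕ → ℕ → ℕ} (h : Tb φ k N row)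
    (he : ∀ e < N, ∀ v < n, row' e v = row e v) : Tb φ k N row' := by
  constructor
  · intro e h1
    exact (h.good e h1).congr (he e h1)
  · intro e h1 e' h2 h3
    apply h.inj e h1 e' h2
    intro v hv
    rw [← he e h1 v hv, ← he e' h2 v hv]
    exact h3 v hv
  · intro a
    obtain ⟨e, h1, h2⟩ := h.cover a
    exact ⟨e, h1, (isT_congr (he e h1) a).mpr h2⟩

/-- Number of assignments in `V` whose class is one of the first `q` rows, with a digit `i` of
the type `ty`, and with target `p`. -/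
noncomputable def Bs (φ : CNF n m) (k : ℕ) (V : (Fin n → Bool) → Prop) (row : ℕ → ℕ → ℕ) (i : ℕ)
    (ty : ℕ → Prop) (q : ℕ) (p : ℕ → ℕ) : ℕ :=
  ct (fun a => V a ∧ ∃ e < q, isT φ k (row e) a ∧ ty (row e i) ∧ ∀ v < n, tg φ k i (row e) v = p v)

theorem Bs_zero (φ : CNF n m) (k : ℕ) (V : (Fin n → Bool) → Prop) (row : ℕ → ℕ → ℕ) (i : ℕ)
    (ty : ℕ → Prop) (p : ℕ → ℕ) : Bs φ k V row i ty 0 p = 0 := by
  apply ct_zero
  rintro a ⟨-, e, he, -⟩
  omega

theorem Bs_le (φ : CNF n m) (k : ℕ) (V : (Fin n → Bool) → Prop) (row : ℕ → ℕ → ℕ) (i : ℕ)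
    (ty : ℕ → Prop) (q : ℕ) (p : ℕ → ℕ) : Bs φ k V row i ty q p ≤ 2 ^ n := ct_le _

theorem Bs_congr {φ : CNF n m} {k : ℕ} {V : (Fin n → Bool) → Prop} {row row' : ℕ → ℕ → ℕ}
    {i : ℕ} (hi : i < n) {ty : ℕ → Prop} {q : ℕ} {p p' : ℕ → ℕ} (hp : ∀ v < n, p v = p' v)
    (hr : ∀ e < q, ∀ v < n, row e v = row' e v) :
    Bs φ k V row i ty q p = Bs φ k V row' i ty q p' := by
  apply ct_congr
  intro a
  apply and_congr_right
  intro _
  constructor
  · rintro ⟨e, he, h1, h2, h3⟩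
    refine ⟨e, he, (isT_congr (hr e he) a).mp h1, by rw [← hr e he i hi]; exact h2, ?_⟩
    intro v hv
    rw [← tg_congr (hr e he) v hv, h3 v hv, hp v hv]
  · rintro ⟨e, he, h1, h2, h3⟩
    refine ⟨e, he, (isT_congr (hr e he) a).mpr h1, by rw [hr e he i hi]; exact h2, ?_⟩
    intro v hv
    rw [tg_congr (hr e he) v hv, h3 v hv, hp v hv]

theorem Bs_succ_pos {φ : CNF n m} {k N : ℕ} {V : (Fin n → Bool) → Prop} {row : ℕ → ℕ → ℕ}
    (hT : Tb φ k N row) {i : ℕ} {ty : ℕ → Prop} {q : ℕ} (hq : q < N) {p : ℕ → ℕ}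
    (h : ty (row q i) ∧ ∀ v < n, tg φ k i (row q) v = p v) :
    Bs φ k V row i ty (q + 1) p = Bs φ k V row i ty q p + cl φ k (row q) V := by
  unfold Bs cl
  rw [← ct_add]
  · apply ct_congr
    intro a
    constructor
    · rintro ⟨h1, e, he, h2⟩
      rcases Nat.lt_succ_iff_lt_or_eq.mp he with he | he
      · exact Or.inl ⟨h1, e, he, h2⟩
      · rw [he] at h2
        exact Or.inr ⟨h1, h2.1⟩
    · rintro (⟨h1, e, he, h2⟩ | ⟨h1, h2⟩)
      · exact ⟨h1, e, by omega, h2⟩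
      · exact ⟨h1, q, by omega, h2, h⟩
  · rintro a ⟨h1, e, he, h2, -⟩ ⟨-, h3⟩
    have := hT.uniq (by omega) hq h2 h3
    omega

theorem Bs_succ_neg {φ : CNF n m} {k : ℕ} {V : (Fin n → Bool) → Prop} {row : ℕ → ℕ → ℕ}
    {i : ℕ} {ty : ℕ → Prop} {q : ℕ} {p : ℕ → ℕ}
    (h : ¬ (ty (row q i) ∧ ∀ v < n, tg φ k i (row q) v = p v)) :
    Bs φ k V row i ty (q + 1) p = Bs φ k V row i ty q p := by
  apply ct_congr
  intro a
  apply and_congr_right
  intro _
  constructor
  · rintro ⟨e, he, h2⟩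
    rcases Nat.lt_succ_iff_lt_or_eq.mp he with he | he
    · exact ⟨e, he, h2⟩
    · rw [he] at h2
      exact absurd h2.2 h
  · rintro ⟨e, he, h2⟩
    exact ⟨e, by omega, h2⟩

theorem inD_eq {c d : ℕ} {x : Bool} (hc : c = 1 ∨ c = 2) (hd : d ≠ 0) (h1 : inD c x)
    (h2 : inD d x) : d = c := by
  unfold inD at *
  rcases hc with rfl | rfl <;> cases x <;> simp_all

/-- The points of the half cube counted by the table of the rows with digit `c`. -/
theorem Bs_eq {φ : CNF n m} {k N : ℕ} {V : (Fin n → Bool) → Prop} {row : ℕ → ℕ → ℕ}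
    (hT : Tb φ k N row) {i : ℕ} (hi : i < n) {p : ℕ → ℕ} (hp : Gd φ k p) (hpi : p i = 0)
    {c : ℕ} (hc : c = 1 ∨ c = 2) :
    Bs φ k V row i (fun d => d = c) N p =
      ct (fun a => V a ∧ inD c (a ⟨i, hi⟩) ∧ (∀ j < k, φ.ent j i = 0 →
        (inC (φ.ent j) a ↔ sup φ p j)) ∧ ∃ j < k, φ.ent j i ≠ 0 ∧ inC (φ.ent j) a) := by
  apply ct_congr
  intro a
  apply and_congr_right
  intro _
  constructor
  · rintro ⟨e, he, h1, h2, h3⟩
    obtain ⟨j, hj, h4, h5⟩ := (hT.good e he).closed i hi (by omega)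
    have h6 := (h1 j hj).mpr h4
    refine ⟨?_, ?_, j, hj, h5, h6⟩
    · have h7 := h6 ⟨i, hi⟩
      simp only at h7
      rw [(h4 i hi).resolve_left h5, h2] at h7
      exact h7
    · intro j hj h0
      rw [h1 j hj]
      exact (tg_iff hp hi hpi).mp h3 j hj h0
  · rintro ⟨h1, h2, j, hj, h3, h4⟩
    obtain ⟨e, he, h5⟩ := hT.cover a
    have h6 := (h5 j hj).mp h4
    have h7 := (h6 i hi).resolve_left h3
    refine ⟨e, he, h5, ?_, ?_⟩
    · have h8 := h4 ⟨i, hi⟩
      simp only at h8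
      rw [← h7]
      exact inD_eq hc h3 h1 h8
    · rw [tg_iff hp hi hpi]
      intro j hj h0
      rw [← h5 j hj]
      exact h2 j hj h0

theorem Bs_opp {φ : CNF n m} {k N : ℕ} {V : (Fin n → Bool) → Prop} {row : ℕ → ℕ → ℕ}
    (hT : Tb φ k N row) {i : ℕ} (hi : i < n) {p : ℕ → ℕ} {c : ℕ} (hc : c = 1 ∨ c = 2) :
    Bs φ k V row i (fun d => d ≠ 0 ∧ d ≠ c) N p = Bs φ k V row i (fun d => d = 3 - c) N p := by
  apply ct_congr
  intro a
  apply and_congr_right
  intro _
  have key : ∀ e < N, ((row e i ≠ 0 ∧ row e i ≠ c) ↔ row e i = 3 - c) := by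
    intro e he
    have := (hT.good e he).lt i hi
    omega
  constructor
  · rintro ⟨e, he, h1, h2, h3⟩
    exact ⟨e, he, h1, (key e he).mp h2, h3⟩
  · rintro ⟨e, he, h1, h2, h3⟩
    exact ⟨e, he, h1, (key e he).mpr h2, h3⟩

theorem inC_flip {φ : CNF n m} {i j : ℕ} (h : φ.ent j i = 0) (a : Fin n → Bool) :
    inC (φ.ent j) (flip i a) ↔ inC (φ.ent j) a := by
  unfold inC
  apply forall_congr'
  intro v
  by_cases hv : (v : ℕ) = i
  · rw [hv, h]
    simp [inD]
  · rw [flip, if_neg hv]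

theorem inD_not {c : ℕ} (hc : c = 1 ∨ c = 2) (x : Bool) : inD (3 - c) (!x) ↔ inD c x := by
  unfold inD
  rcases hc with rfl | rfl <;> cases x <;> simp

theorem isT_star {φ : CNF n m} {k i : ℕ} (hi : i < n) {p : ℕ → ℕ} (hpi : p i = 0)
    (a : Fin n → Bool) :
    isT φ k p a ↔ (∀ j < k, φ.ent j i = 0 → (inC (φ.ent j) a ↔ sup φ p j)) ∧
      ¬ ∃ j < k, φ.ent j i ≠ 0 ∧ inC (φ.ent j) a := by
  constructor
  · intro h
    refine ⟨fun j hj _ => h j hj, ?_⟩
    rintro ⟨j, hj, h0, h1⟩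
    have h2 := (h j hj).mp h1 i hi
    rw [hpi] at h2
    exact h0 (by tauto)
  · rintro ⟨h1, h2⟩ j hj
    by_cases h0 : φ.ent j i = 0
    · exact h1 j hj h0
    · constructor
      · intro h3
        exact absurd ⟨j, hj, h0, h3⟩ h2
      · intro h3
        have := h3 i hi
        rw [hpi] at this
        exact absurd (by tauto) h0

/-- The key identity. -/
theorem main_id {φ : CNF n m} {k N : ℕ} {V : (Fin n → Bool) → Prop} {row : ℕ → ℕ → ℕ}
    (hT : Tb φ k N row) {i : ℕ} (hi : i < n) (hV : ∀ a, V (flip i a) ↔ V a) {p : ℕ → ℕ}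
    (hp : Gd φ k p) (hpi : p i = 0) {c : ℕ} (hc : c = 1 ∨ c = 2) :
    2 * cl φ k p (fun a => V a ∧ inD c (a ⟨i, hi⟩)) + Bs φ k V row i (fun d => d = c) N p =
      cl φ k p V + Bs φ k V row i (fun d => d ≠ 0 ∧ d ≠ c) N p := by
  have hc' : 3 - c = 1 ∨ 3 - c = 2 := by omega
  rw [Bs_opp hT hi hc, Bs_eq hT hi hp hpi hc, Bs_eq hT hi hp hpi hc']
  -- the half cubes
  have key : ∀ d, ct (fun a => V a ∧ inD d (a ⟨i, hi⟩) ∧ (∀ j < k, φ.ent j i = 0 →
        (inC (φ.ent j) a ↔ sup φ p j))) =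
      cl φ k p (fun a => V a ∧ inD d (a ⟨i, hi⟩)) +
      ct (fun a => V a ∧ inD d (a ⟨i, hi⟩) ∧ (∀ j < k, φ.ent j i = 0 →
        (inC (φ.ent j) a ↔ sup φ p j)) ∧ ∃ j < k, φ.ent j i ≠ 0 ∧ inC (φ.ent j) a) := by
    intro d
    rw [ct_split _ (fun a => ∃ j < k, φ.ent j i ≠ 0 ∧ inC (φ.ent j) a), add_comm]
    congr 1
    · unfold cl
      apply ct_congr
      intro a
      rw [isT_star hi hpi]
      tauto
    · apply ct_congr
      intro a
      tauto
  have hflip : ct (fun a => V a ∧ inD c (a ⟨i, hi⟩) ∧ (∀ j < k, φ.ent j i = 0 →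
        (inC (φ.ent j) a ↔ sup φ p j))) =
      ct (fun a => V a ∧ inD (3 - c) (a ⟨i, hi⟩) ∧ (∀ j < k, φ.ent j i = 0 →
        (inC (φ.ent j) a ↔ sup φ p j))) := by
    rw [← ct_flip i (fun a => V a ∧ inD (3 - c) (a ⟨i, hi⟩) ∧ (∀ j < k, φ.ent j i = 0 →
        (inC (φ.ent j) a ↔ sup φ p j)))]
    apply ct_congr
    intro a
    have h1 : flip i a ⟨i, hi⟩ = !a ⟨i, hi⟩ := by simp [flip]
    rw [hV, h1, inD_not hc]
    apply and_congr_right
    intro _
    apply and_congr_right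
    intro _
    apply forall_congr'
    intro j
    apply forall_congr'
    intro _
    constructor
    · intro h h0
      rw [inC_flip h0]; exact h h0
    · intro h h0
      rw [← inC_flip h0]; exact h h0
  have hsum : cl φ k p V = cl φ k p (fun a => V a ∧ inD c (a ⟨i, hi⟩)) +
      cl φ k p (fun a => V a ∧ inD (3 - c) (a ⟨i, hi⟩)) := by
    unfold cl
    rw [ct_split _ (fun a => inD c (a ⟨i, hi⟩))]
    congr 1
    · apply ct_congr
      intro a
      tauto
    · apply ct_congr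
      intro a
      have : ¬ inD c (a ⟨i, hi⟩) ↔ inD (3 - c) (a ⟨i, hi⟩) := by
        unfold inD
        rcases hc with rfl | rfl <;> cases a ⟨i, hi⟩ <;> simp
      rw [this]
      tauto
  have h1 := key c
  have h2 := key (3 - c)
  rw [hflip, h2] at h1
  omega

theorem cl_same {φ : CNF n m} {k : ℕ} {V : (Fin n → Bool) → Prop} {r : ℕ → ℕ} (hg : Gd φ k r)
    {i : ℕ} (hi : i < n) {c : ℕ} (h : r i = c) :
    cl φ k r (fun a => V a ∧ inD c (a ⟨i, hi⟩)) = cl φ k r V := by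
  apply ct_congr
  intro a
  constructor
  · rintro ⟨⟨h1, -⟩, h2⟩
    exact ⟨h1, h2⟩
  · rintro ⟨h1, h2⟩
    refine ⟨⟨h1, ?_⟩, h2⟩
    have := in_cube hg h2 ⟨i, hi⟩
    simp only at this
    rw [h] at this
    exact this

theorem cl_opp {φ : CNF n m} {k : ℕ} {V : (Fin n → Bool) → Prop} {r : ℕ → ℕ} (hg : Gd φ k r)
    {i : ℕ} (hi : i < n) {c : ℕ} (hc : c = 1 ∨ c = 2) (h0 : r i ≠ 0) (h : r i ≠ c) :
    cl φ k r (fun a => V a ∧ inD c (a ⟨i, hi⟩)) = 0 := by
  apply ct_zero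
  rintro a ⟨⟨-, h1⟩, h2⟩
  have := in_cube hg h2 ⟨i, hi⟩
  simp only at this
  exact h (inD_eq hc h0 h1 this)

theorem cl_three {φ : CNF n m} {k : ℕ} {V : (Fin n → Bool) → Prop} {r : ℕ → ℕ}
    {i : ℕ} (hi : i < n) : cl φ k r (fun a => V a ∧ inD 3 (a ⟨i, hi⟩)) = 0 := by
  apply ct_zero
  rintro a ⟨⟨-, h1⟩, -⟩
  unfold inD at h1
  omega

/-! ### Restriction to the cube of a clause -/

/-- The first `i` coordinates are in the clause cube `k`. -/
def Vp (φ : CNF n m) (k i : ℕ) (a : Fin n → Bool) : Prop :=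
  ∀ u : Fin n, (u : ℕ) < i → inD (φ.ent k u) (a u)

theorem Vp_zero (φ : CNF n m) (k : ℕ) (a : Fin n → Bool) : Vp φ k 0 a :=
  fun u hu => absurd hu (by omega)

theorem Vp_succ {φ : CNF n m} {k i : ℕ} (hi : i < n) (a : Fin n → Bool) :
    Vp φ k (i + 1) a ↔ Vp φ k i a ∧ inD (φ.ent k i) (a ⟨i, hi⟩) := by
  constructor
  · intro h
    exact ⟨fun u hu => h u (by omega), h ⟨i, hi⟩ (by simp)⟩
  · rintro ⟨h1, h2⟩ u hu
    rcases Nat.lt_succ_iff_lt_or_eq.mp hu with hu | hu
    · exact h1 u hu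
    · have : u = ⟨i, hi⟩ := Fin.ext hu
      rw [this]; exact h2

theorem Vp_last {φ : CNF n m} {k : ℕ} (a : Fin n → Bool) : Vp φ k n a ↔ inC (φ.ent k) a :=
  ⟨fun h u => h u u.2, fun h u _ => h u⟩

theorem Vp_flip {φ : CNF n m} {k i : ℕ} (a : Fin n → Bool) :
    Vp φ k i (flip i a) ↔ Vp φ k i a := by
  unfold Vp
  apply forall_congr'
  intro u
  constructor
  · intro h hu
    have := h hu
    rwa [flip, if_neg (by omega)] at this
  · intro h hu
    rw [flip, if_neg (by omega)]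
    exact h hu

theorem Vp_skip {φ : CNF n m} {k i : ℕ} (hi : i < n) (h0 : φ.ent k i = 0) (a : Fin n → Bool) :
    Vp φ k (i + 1) a ↔ Vp φ k i a := by
  rw [Vp_succ hi, h0]
  simp [inD]

/-- New value of the cell `R`. -/
theorem cl_step {φ : CNF n m} {k N : ℕ} {row : ℕ → ℕ → ℕ} (hT : Tb φ k N row) {i : ℕ}
    (hi : i < n) {p : ℕ → ℕ} (hp : Gd φ k p) {c : ℕ} (hce : φ.ent k i = c) :
    (c = 3 → cl φ k p (Vp φ k (i + 1)) = 0) ∧
    (c = 1 ∨ c = 2 → p i ≠ 0 → p i = c → cl φ k p (Vp φ k (i + 1)) = cl φ k p (Vp φ k i)) ∧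
    (c = 1 ∨ c = 2 → p i ≠ 0 → p i ≠ c → cl φ k p (Vp φ k (i + 1)) = 0) ∧
    (c = 1 ∨ c = 2 → p i = 0 → 2 * cl φ k p (Vp φ k (i + 1)) +
      Bs φ k (Vp φ k i) row i (fun d => d = c) N p =
      cl φ k p (Vp φ k i) + Bs φ k (Vp φ k i) row i (fun d => d ≠ 0 ∧ d ≠ c) N p) := by
  have h : cl φ k p (Vp φ k (i + 1)) = cl φ k p (fun a => Vp φ k i a ∧ inD c (a ⟨i, hi⟩)) := by
    apply cl_congr'
    intro a
    rw [Vp_succ hi, hce]
  rw [h]
  refine ⟨?_, ?_, ?_, ?_⟩
  · rintro rfl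
    exact cl_three hi
  · intro _ _ h2
    exact cl_same hp hi h2
  · intro h1 h2 h3
    exact cl_opp hp hi h1 h2 h3
  · intro h1 h2
    exact main_id hT hi Vp_flip hp h2 h1

/-! ### Adding a clause -/

/-- Intersection of two cubes that meet. -/
def mt (r e : ℕ → ℕ) (v : ℕ) : ℕ := if r v = 0 then e v else r v

theorem inC_mt {r e : ℕ → ℕ} {a : Fin n → Bool} (h1 : inC r a) (h2 : inC e a) :
    inC (mt r e) a := by
  intro v
  unfold mt
  split_ifs
  · exact h2 v
  · exact h1 v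

theorem inD_lt {d : ℕ} {x : Bool} (h : inD d x) : d < 3 := by
  unfold inD at h; omega

theorem mt_eq_right {r e : ℕ → ℕ} {a : Fin n → Bool} (h1 : inC r a) (h2 : inC e a) {v : ℕ}
    (hv : v < n) (h0 : e v ≠ 0) : mt r e v = e v := by
  unfold mt
  split_ifs with h
  · rfl
  · have h3 := h1 ⟨v, hv⟩
    have h4 := h2 ⟨v, hv⟩
    simp only at h3 h4
    have := inD_lt h4
    exact inD_eq (by omega) h h4 h3

/-- A class meeting the cube of the clause `k`. -/
def Hit (φ : CNF n m) (k : ℕ) (r : ℕ → ℕ) : Prop := ∃ a, inC (φ.ent k) a ∧ isT φ k r a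

theorem hit_iff {φ : CNF n m} {k : ℕ} {r : ℕ → ℕ} :
    Hit φ k r ↔ 0 < cl φ k r (Vp φ k n) := by
  unfold cl
  rw [ct_pos]
  simp only [Vp_last]
  rfl

theorem sup_mt {φ : CNF n m} {k : ℕ} {r : ℕ → ℕ} (hg : Gd φ k r) (h : Hit φ k r) {j : ℕ}
    (hj : j < k) : sup φ (mt r (φ.ent k)) j ↔ sup φ r j := by
  obtain ⟨a, h1, h2⟩ := h
  have h3 := in_cube hg h2
  constructor
  · intro hs
    rw [← h2 j hj]
    exact sup_in hs (inC_mt h3 h1)
  · intro hs v hv
    by_cases h0 : φ.ent j v = 0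
    · exact Or.inl h0
    · right
      have h4 := (hs v hv).resolve_left h0
      rw [mt, if_neg (by rw [← h4]; exact h0)]
      exact h4

theorem sup_mt_last {φ : CNF n m} {k : ℕ} {r : ℕ → ℕ} (hg : Gd φ k r) (h : Hit φ k r) :
    sup φ (mt r (φ.ent k)) k := by
  obtain ⟨a, h1, h2⟩ := h
  have h3 := in_cube hg h2
  intro v hv
  by_cases h0 : φ.ent k v = 0
  · exact Or.inl h0
  · right
    exact (mt_eq_right h3 h1 hv h0).symm

theorem mt_good {φ : CNF n m} {k : ℕ} {r : ℕ → ℕ} (hg : Gd φ k r) (h : Hit φ k r) :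
    Gd φ (k + 1) (mt r (φ.ent k)) := by
  have hs : ∀ {j : ℕ}, j < k → (sup φ (mt r (φ.ent k)) j ↔ sup φ r j) :=
    fun hj => sup_mt hg h hj
  have hl := sup_mt_last hg h
  obtain ⟨a, h1, h2⟩ := h
  have h3 := in_cube hg h2
  constructor
  · intro v hv
    exact inD_lt (inC_mt h3 h1 ⟨v, hv⟩)
  · intro v hv h0
    by_cases h4 : φ.ent k v = 0
    · have h5 : r v ≠ 0 := by
        intro h5
        rw [mt, if_pos h5] at h0
        exact h0 h4
      obtain ⟨j, hj, h6, h7⟩ := hg.closed v hv h5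
      exact ⟨j, by omega, (hs hj).mpr h6, h7⟩
    · exact ⟨k, by omega, hl, h4⟩

/-- The class of the new row. -/
theorem isT_mt {φ : CNF n m} {k : ℕ} {r : ℕ → ℕ} (hg : Gd φ k r) (h : Hit φ k r)
    (a : Fin n → Bool) : isT φ (k + 1) (mt r (φ.ent k)) a ↔ inC (φ.ent k) a ∧ isT φ k r a := by
  constructor
  · intro h1
    refine ⟨(h1 k (by omega)).mpr (sup_mt_last hg h), fun j hj => ?_⟩
    rw [h1 j (by omega), sup_mt hg h hj]
  · rintro ⟨h1, h2⟩ j hj
    rcases Nat.lt_succ_iff_lt_or_eq.mp hj with hj | hj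
    · rw [h2 j hj, sup_mt hg h hj]
    · rw [hj]
      exact ⟨fun _ => sup_mt_last hg h, fun _ => h1⟩

theorem isT_old {φ : CNF n m} {k : ℕ} {r : ℕ → ℕ} (hs : ¬ sup φ r k) (a : Fin n → Bool) :
    isT φ (k + 1) r a ↔ ¬ inC (φ.ent k) a ∧ isT φ k r a := by
  constructor
  · intro h1
    exact ⟨fun h => hs ((h1 k (by omega)).mp h), fun j hj => h1 j (by omega)⟩
  · rintro ⟨h1, h2⟩ j hj
    rcases Nat.lt_succ_iff_lt_or_eq.mp hj with hj | hj
    · exact h2 j hj
    · rw [hj]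
      exact ⟨fun h => absurd h h1, fun h => absurd h hs⟩

theorem isT_sup {φ : CNF n m} {k : ℕ} {r : ℕ → ℕ} (hg : Gd φ k r) (hs : sup φ r k)
    (a : Fin n → Bool) : isT φ (k + 1) r a ↔ isT φ k r a := by
  constructor
  · intro h1 j hj
    exact h1 j (by omega)
  · intro h2 j hj
    rcases Nat.lt_succ_iff_lt_or_eq.mp hj with hj | hj
    · exact h2 j hj
    · rw [hj]
      exact ⟨fun _ => hs, fun _ => sup_in hs (in_cube hg h2)⟩

theorem mt_of_sup {φ : CNF n m} {k : ℕ} {r : ℕ → ℕ} (hs : sup φ r k) {v : ℕ} (hv : v < n) :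
    mt r (φ.ent k) v = r v := by
  unfold mt
  split_ifs with h
  · have := hs v hv
    omega
  · rfl

/-- If the meet is one of the rows of level `k`, it is the row itself. -/
theorem mt_self {φ : CNF n m} {k : ℕ} {r e : ℕ → ℕ} (hg : Gd φ k r) (h : Hit φ k r)
    (he : Gd φ k e) (hv : ∀ v < n, e v = mt r (φ.ent k) v) :
    (∀ v < n, e v = r v) ∧ sup φ r k := by
  have h1 : ∀ v < n, e v = r v := by
    apply gd_inj he hg
    intro j hj
    rw [sup_congr hv, sup_mt hg h hj]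
  refine ⟨h1, ?_⟩
  rw [← sup_congr h1, sup_congr hv]
  exact sup_mt_last hg h

theorem mt_inj {φ : CNF n m} {k : ℕ} {r e : ℕ → ℕ} (hg : Gd φ k r) (h : Hit φ k r)
    (he : Gd φ k e) (h' : Hit φ k e)
    (hv : ∀ v < n, mt e (φ.ent k) v = mt r (φ.ent k) v) : ∀ v < n, e v = r v := by
  apply gd_inj he hg
  intro j hj
  rw [← sup_mt hg h hj, ← sup_mt he h' hj]
  exact sup_congr hv j

/-- All assignments. -/
def Al (_ : Fin n → Bool) : Prop := True

theorem cl_mt {φ : CNF n m} {k : ℕ} {r : ℕ → ℕ} (hg : Gd φ k r) (h : Hit φ k r) :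
    cl φ (k + 1) (mt r (φ.ent k)) Al = cl φ k r (Vp φ k n) := by
  apply ct_congr
  intro a
  rw [isT_mt hg h, Vp_last]
  simp [Al]

theorem cl_old {φ : CNF n m} {k : ℕ} {r : ℕ → ℕ} (hs : ¬ sup φ r k) :
    cl φ (k + 1) r Al = cl φ k r Al - cl φ k r (Vp φ k n) := by
  have h1 : cl φ k r Al = cl φ k r (Vp φ k n) + cl φ (k + 1) r Al := by
    unfold cl
    rw [ct_split _ (fun a => Vp φ k n a)]
    congr 1
    · apply ct_congr
      intro a
      simp only [Al]
      tauto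
    · apply ct_congr
      intro a
      rw [isT_old hs, Vp_last]
      simp only [Al]
      tauto
  omega

theorem cl_sup {φ : CNF n m} {k : ℕ} {r : ℕ → ℕ} (hg : Gd φ k r) (hs : sup φ r k) :
    cl φ (k + 1) r Al = cl φ k r Al := by
  apply ct_congr
  intro a
  rw [isT_sup hg hs]

theorem cl_miss {φ : CNF n m} {k : ℕ} {r : ℕ → ℕ} (hg : Gd φ k r) (h : ¬ Hit φ k r) :
    cl φ (k + 1) r Al = cl φ k r Al := by
  by_cases hs : sup φ r k
  · exact cl_sup hg hs
  · rw [cl_old hs]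
    rw [hit_iff] at h
    omega

/-- Rows with nonempty classes are at most as many as projections. -/
theorem live_le {φ : CNF n m} {k : ℕ} (hk : k ≤ m) {row : ℕ → ℕ → ℕ} (I : Finset ℕ)
    (hg : ∀ e ∈ I, Gd φ k (row e))
    (hd : ∀ e ∈ I, ∀ e' ∈ I, (∀ v < n, row e v = row e' v) → e = e')
    (hl : ∀ e ∈ I, ∃ a, isT φ k (row e) a) : I.card ≤ φ.numProj := by
  classical
  choose! w hw using hl
  unfold CNF.numProj
  apply card_le_card_of_injOn (fun e => φ.proj (w e))
  · intro e _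
    simp
  · intro e he e' he' h
    simp only [mem_coe] at he he'
    simp only at h
    apply hd e he e' he'
    apply gd_inj (hg e he) (hg e' he')
    intro j hj
    rw [← hw e he j hj, ← hw e' he' j hj]
    have h1 := inC_ent φ ⟨j, by omega⟩ (w e)
    have h2 := inC_ent φ ⟨j, by omega⟩ (w e')
    simp only at h1 h2
    rw [h1, h2, ← mem_proj, ← mem_proj, h]

/-! ### The number of satisfying assignments -/

/-- Number of assignments satisfying the first `k` clauses. -/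
noncomputable def nsat (φ : CNF n m) (k : ℕ) : ℕ := ct (fun a : Fin n → Bool => ∀ j < k, ¬ inC (φ.ent j) a)

theorem nsat_zero (φ : CNF n m) : nsat φ 0 = 2 ^ n := by
  unfold nsat
  rw [← ct_true]
  apply ct_congr
  intro a
  simp

theorem nsat_last (φ : CNF n m) : nsat φ m = φ.numSat := by
  classical
  unfold nsat CNF.numSat ct
  congr 1
  ext a
  simp only [mem_filter, mem_univ, true_and]
  constructor
  · intro h j
    have := h j j.2
    rw [inC_ent, not_not] at this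
    exact this
  · intro h j hj
    have := inC_ent φ ⟨j, hj⟩ a
    simp only at this
    rw [this, not_not]
    exact h _

theorem nsat_succ {φ : CNF n m} {k : ℕ} {r : ℕ → ℕ} (h0 : ∀ v < n, r v = 0) :
    nsat φ (k + 1) = nsat φ k - cl φ k r (Vp φ k n) := by
  by_cases he : ∃ j < k, sup φ r j
  · obtain ⟨j, hj, hs⟩ := he
    have hall : ∀ a : Fin n → Bool, inC (φ.ent j) a := by
      intro a
      apply sup_in hs
      intro v
      exact Or.inl (h0 v v.2)
    have h1 : nsat φ (k + 1) = 0 := by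
      apply ct_zero
      intro a h
      exact h j (by omega) (hall a)
    have h2 : nsat φ k = 0 := by
      apply ct_zero
      intro a h
      exact h j hj (hall a)
    omega
  · have he : ∀ j < k, ¬ sup φ r j := fun j hj h => he ⟨j, hj, h⟩
    have h1 : nsat φ k = cl φ k r (Vp φ k n) + nsat φ (k + 1) := by
      unfold nsat cl
      rw [ct_split _ (fun a => Vp φ k n a)]
      congr 1
      · apply ct_congr
        intro a
        constructor
        · rintro ⟨h1, h2⟩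
          exact ⟨h2, fun j hj => ⟨fun h => absurd h (h1 j hj), fun h => absurd h (he j hj)⟩⟩
        · rintro ⟨h1, h2⟩
          exact ⟨fun j hj h => he j hj ((h2 j hj).mp h), h1⟩
      · apply ct_congr
        intro a
        rw [Vp_last]
        constructor
        · rintro ⟨h1, h2⟩ j hj
          rcases Nat.lt_succ_iff_lt_or_eq.mp hj with hj | hj
          · exact h1 j hj
          · rw [hj]; exact h2
        · intro h
          exact ⟨fun j hj => h j (by omega), h k (by omega)⟩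
    omega

end Pool.Agent.H624R2.Lin
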