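import Pool.Agent.H624R2.Sym
import Pool.Agent.H624R2.Lin1

/-!
Memory layout, and the computation of the code of the target of a row.
-/

namespace Pool.Agent.H624R2.Lin

open Finset Pool.Agent.H588R2

variable {n m : ℕ}

/-- Rebuild a list of known registers. -/
def chk : List (ℕ × ℕ) → List (ℕ × ℕ) → Prop
  | [], _ => True
  | p :: l, l' => look p.1 l' = some p.2 ∧ chk l l'

theorem Rg.of {s : St} {l' : List (ℕ × ℕ)} (h : Rg s l') : ∀ {l : List (ℕ × ℕ)}, chk l l' →
    Rg s l := by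
  intro l
  induction l with
  | nil => intro _ x v hx; simp [look] at hx
  | cons p l ih =>
    rintro ⟨h1, h2⟩
    exact (ih h2).cons (h _ _ h1)

/-- Addresses: `T` of the table of codes, `R` of the rows, `S` length of the rows. -/
structure Lay (n m T R S : ℕ) : Prop where
  hT : T = m * n + n + 1
  hR : R = T + 4 ^ n
  hS : S = n + 4

/-- Contents of the memory. -/
structure Rep (φ : CNF n m) (T R S : ℕ) (tab : ℕ → ℕ) (row : ℕ → ℕ → ℕ) (M : ℕ → ℕ) :
    Prop where
  inp : ∀ j < m, ∀ v < n, M (j * n + v) = φ.ent j v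
  pw : ∀ q ≤ n, M (m * n + q) = 2 ^ q
  tb : ∀ c < 4 ^ n, M (T + c) = tab c
  rw : ∀ e, ∀ f < S, M (R + e * S + f) = row e f

theorem adr_inj {S i f i' f' : ℕ} (hf : f < S) (hf' : f' < S) (h : i' * S + f' = i * S + f) :
    i' = i ∧ f' = f := by
  have key : ∀ {i f i' f' : ℕ}, f < S → f' < S → i' * S + f' = i * S + f → ¬ i' < i := by
    intro i f i' f' hf hf' h hlt
    have : (i' + 1) * S ≤ i * S := Nat.mul_le_mul_right _ hlt
    rw [Nat.add_mul, one_mul] at this
    omega
  have h1 := key hf hf' h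
  have h2 := key hf' hf h.symm
  have h3 : i' = i := by omega
  subst h3
  exact ⟨rfl, by omega⟩

theorem inp_lt {j v : ℕ} (hj : j < m) (hv : v < n) : j * n + v < m * n := by
  have : (j + 1) * n ≤ m * n := Nat.mul_le_mul_right _ hj
  rw [Nat.add_mul, one_mul] at this
  omega

theorem row_le {S e N : ℕ} (he : e < N) : e * S + S ≤ N * S := by
  have : (e + 1) * S ≤ N * S := Nat.mul_le_mul_right _ he
  rwa [Nat.add_mul, one_mul] at this

/-- Change one cell of one row. -/
def upd (row : ℕ → ℕ → ℕ) (i f x : ℕ) : ℕ → ℕ → ℕ :=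
  fun i' f' => if i' = i ∧ f' = f then x else row i' f'

theorem upd_self (row : ℕ → ℕ → ℕ) (i f x : ℕ) : upd row i f x i f = x := by simp [upd]

theorem upd_row (row : ℕ → ℕ → ℕ) {i i' : ℕ} (f x : ℕ) (h : i' ≠ i) :
    upd row i f x i' = row i' := by
  funext f'; simp [upd, h]

theorem upd_cell (row : ℕ → ℕ → ℕ) {i i' f f' : ℕ} (x : ℕ) (h : f' ≠ f) :
    upd row i f x i' f' = row i' f' := by
  simp [upd, h]

section
variable {φ : CNF n m} {T R S : ℕ} {tab : ℕ → ℕ} {row : ℕ → ℕ → ℕ} {M : ℕ → ℕ}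

theorem Rep.congr (h : Rep φ T R S tab row M) {row' : ℕ → ℕ → ℕ}
    (he : ∀ e, ∀ f < S, row' e f = row e f) : Rep φ T R S tab row' M :=
  ⟨h.inp, h.pw, h.tb, fun e f hf => by rw [he e f hf]; exact h.rw e f hf⟩

theorem Rep.storeRow (h : Rep φ T R S tab row M) (hL : Lay n m T R S) {i f : ℕ} (hf : f < S)
    (x : ℕ) {a : ℕ} (ha : a = R + i * S + f) :
    Rep φ T R S tab (upd row i f x) (Function.update M a x) := by
  obtain ⟨hT, hR, hS⟩ := hL
  have h4 : 0 < 4 ^ n := by positivity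
  subst ha
  constructor
  · intro j hj v hv
    have := inp_lt hj hv
    rw [Function.update_of_ne (by omega)]
    exact h.inp j hj v hv
  · intro q hq
    rw [Function.update_of_ne (by omega)]
    exact h.pw q hq
  · intro c hc
    rw [Function.update_of_ne (by omega)]
    exact h.tb c hc
  · intro i' f' hf'
    unfold upd
    by_cases he : i' = i ∧ f' = f
    · rw [if_pos he, he.1, he.2, Function.update_self]
    · rw [if_neg he, Function.update_of_ne]
      · exact h.rw i' f' hf'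
      · intro h'
        exact he (adr_inj hf hf' (by omega))

theorem Rep.storeTab (h : Rep φ T R S tab row M) (hL : Lay n m T R S) {c : ℕ} (hc : c < 4 ^ n)
    (x : ℕ) {a : ℕ} (ha : a = T + c) :
    Rep φ T R S (Function.update tab c x) row (Function.update M a x) := by
  obtain ⟨hT, hR, hS⟩ := hL
  subst ha
  constructor
  · intro j hj v hv
    have := inp_lt hj hv
    rw [Function.update_of_ne (by omega)]
    exact h.inp j hj v hv
  · intro q hq
    rw [Function.update_of_ne (by omega)]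
    exact h.pw q hq
  · intro c' hc'
    by_cases he : c' = c
    · rw [he, Function.update_self, Function.update_self]
    · rw [Function.update_of_ne (by omega), Function.update_of_ne he]
      exact h.tb c' hc'
  · intro i' f' hf'
    rw [Function.update_of_ne (by omega)]
    exact h.rw i' f' hf'

theorem Rep.row' (h : Rep φ T R S tab row M) {e f a : ℕ} (hf : f < S) (ha : a = R + e * S + f) :
    M a = row e f := by rw [ha]; exact h.rw e f hf

theorem Rep.inp' (h : Rep φ T R S tab row M) {j v a : ℕ} (hj : j < m) (hv : v < n)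
    (ha : a = j * n + v) : M a = φ.ent j v := by rw [ha]; exact h.inp j hj v hv

end

/-- Values of the constant registers. -/
abbrev cs (n m T R S : ℕ) : List (ℕ × ℕ) :=
  [(0, n), (1, m), (2, 1), (3, m * n), (4, S), (5, R), (21, 4), (22, 3), (25, 0), (27, T),
    (30, n + 1), (31, n + 2), (32, n + 3)]

/-- Overwrite the first `q` cells of the row `N` by `g`. -/
def fill (row : ℕ → ℕ → ℕ) (N : ℕ) (g : ℕ → ℕ) (q : ℕ) : ℕ → ℕ → ℕ :=
  fun e f => if e = N ∧ f < q then g f else row e f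

theorem fill_zero (row : ℕ → ℕ → ℕ) (N : ℕ) (g : ℕ → ℕ) : fill row N g 0 = row := by
  funext e f; simp [fill]

theorem fill_succ (row : ℕ → ℕ → ℕ) (N : ℕ) (g : ℕ → ℕ) (q : ℕ) :
    upd (fill row N g q) N q (g q) = fill row N g (q + 1) := by
  funext e f
  unfold upd fill
  by_cases h1 : e = N ∧ f = q
  · rw [if_pos h1, if_pos ⟨h1.1, by omega⟩, h1.2]
  · rw [if_neg h1]
    by_cases h2 : e = N ∧ f < q
    · rw [if_pos h2, if_pos ⟨h2.1, by omega⟩]
    · rw [if_neg h2, if_neg]
      rintro ⟨h3, h4⟩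
      exact h2 ⟨h3, by
        have : f ≠ q := fun h5 => h1 ⟨h3, h5⟩
        omega⟩

theorem fill_ne (row : ℕ → ℕ → ℕ) {N e : ℕ} (g : ℕ → ℕ) (q : ℕ) (h : e ≠ N) :
    fill row N g q e = row e := by
  funext f; simp [fill, h]

theorem fill_lt (row : ℕ → ℕ → ℕ) {N f q : ℕ} (g : ℕ → ℕ) (h : f < q) :
    fill row N g q N f = g f := by
  simp [fill, h]

theorem fill_ge (row : ℕ → ℕ → ℕ) {N f q : ℕ} (g : ℕ → ℕ) (h : q ≤ f) :
    fill row N g q N f = row N f := by
  simp [fill, h]

theorem fill_fill (row : ℕ → ℕ → ℕ) (N : ℕ) (g g' : ℕ → ℕ) (q : ℕ) :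
    fill (fill row N g q) N g' q = fill row N g' q := by
  funext e f
  unfold fill
  by_cases h : e = N ∧ f < q
  · rw [if_pos h, if_pos h]
  · rw [if_neg h, if_neg h, if_neg h]

/-- `M[r_6 + v] := 0` for all `v < n`. -/
def zCode : Cmd := FOR 17 0 (.seq (.op (.add 18 6 17)) (.seq (.op (.store 18 25)) .skip))

section
variable {φ : CNF n m} {T R S : ℕ} {tab : ℕ → ℕ} {row : ℕ → ℕ → ℕ} {w : ℕ} {s : St}
  {Q : St → ℕ → Prop}

theorem runs_zCode (hL : Lay n m T R S) {N : ℕ} (hl : Rg s ((6, R + N * S) :: cs n m T R S))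
    (hR : Rep φ T R S tab row s.mem) (hb : R + N * S + S < 2 ^ w)
    (hQ : ∀ s' t, t ≤ n * 5 + 3 → Keep [17, 18] s s' →
      Rep φ T R S tab (fill row N (fun _ => 0) n) s'.mem → Q s' t) :
    Runs w zCode s Q := by
  have hS := hL.hS
  refine rFor (N := n) (T := 2) [18] hl rfl rfl rfl rfl rfl (by omega)
    (fun q s => Rep φ T R S tab (fill row N (fun _ => 0) q) s.mem) (fun q s x h => h)
    (by rw [fill_zero]; exact hR) ?_ ?_
  · intro q s' hq hl' hI
    have hs := Sy.start (K := [18]) hl'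
    refine sAdd hs rfl rfl rfl (by omega) fun hs => ?_
    refine sStore hs rfl rfl fun hs => ?_
    apply Runs.skip
    refine ⟨by omega, hs.keep, ?_⟩
    rw [hs.mem, ← fill_succ]
    exact hI.storeRow hL (by omega) _ (by omega)
  · intro s' t ht hK hI
    exact hQ s' t (by omega) hK hI

/-- A flag. -/
def Fl (x : ℕ) (P : Prop) : Prop := (x = 1 ∧ P) ∨ (x = 0 ∧ ¬ P)

/-- Comparison of the clause at `r_15` with the row at `r_7`. -/
def fCode : Cmd := FOR 17 0 (.seq (.op (.add 18 15 17)) (.seq (.op (.load 18 18))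
  (.ite 25 18 (.seq (.op (.add 19 7 17)) (.seq (.op (.load 19 19))
    (.ite 18 19 (.seq (.op (.const 16 0)) .skip)
      (.ite 19 18 (.seq (.op (.const 16 0)) .skip) .skip)))) .skip)))

theorem runs_fCode (hL : Lay n m T R S) {e j : ℕ} (hj : j < m)
    (hl : Rg s ((7, R + e * S) :: (15, j * n) :: cs n m T R S))
    (h16 : s.reg 16 = 1) (hw : 3 < w) (hlt : ∀ v < n, row e v < 3)
    (hR : Rep φ T R S tab row s.mem) (hb : R + e * S + S < 2 ^ w)
    (hQ : ∀ s' t, t ≤ n * 13 + 3 → Keep [17, 16, 18, 19] s s' → s'.mem = s.mem →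
      Fl (s'.reg 16) (sup φ (row e) j) → Q s' t) :
    Runs w fCode s Q := by
  obtain ⟨hT, hR', hS⟩ := id hL
  have hw4 : 2 ^ 4 ≤ 2 ^ w := Nat.pow_le_pow_right (by norm_num) hw
  have h4n : 0 < 4 ^ n := by positivity
  refine rFor (N := n) (T := 10) [16, 18, 19] hl rfl rfl rfl rfl rfl (by omega)
    (fun q s' => Fl (s'.reg 16) (∀ v < q, φ.ent j v = 0 ∨ φ.ent j v = row e v) ∧
      s'.mem = s.mem) (fun q s x h => by simpa [reg_set] using h)
    ⟨Or.inl ⟨h16, fun v hv => absurd hv (by omega)⟩, rfl⟩ ?_ ?_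
  · rintro q s' hq hl' ⟨hF, hm⟩
    have hs := Sy.start (K := [16, 18, 19]) hl'
    rw [hm] at hs
    have hjm := inp_lt hj hq
    have hel := ent_lt φ j q
    have hrl := hlt q hq
    refine sAdd hs rfl rfl rfl (by omega) fun hs => ?_
    refine sLoad hs rfl (hR.inp' hj hq rfl) rfl (by omega) fun hs => ?_
    have hsucc : (∀ v < q + 1, φ.ent j v = 0 ∨ φ.ent j v = row e v) ↔
        (∀ v < q, φ.ent j v = 0 ∨ φ.ent j v = row e v) ∧
          (φ.ent j q = 0 ∨ φ.ent j q = row e q) := by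
      constructor
      · intro h
        exact ⟨fun v hv => h v (by omega), h q (by omega)⟩
      · rintro ⟨h1, h2⟩ v hv
        rcases Nat.lt_succ_iff_lt_or_eq.mp hv with hv | hv
        · exact h1 v hv
        · rw [hv]; exact h2
    -- the flag is not changed
    have hsame : ∀ s2 : St, s2.reg 16 = s'.reg 16 → (φ.ent j q = 0 ∨ φ.ent j q = row e q) →
        Fl (s2.reg 16) (∀ v < q + 1, φ.ent j v = 0 ∨ φ.ent j v = row e v) := by
      intro s2 h1 h2
      rw [h1]
      rcases hF with ⟨h3, h4⟩ | ⟨h3, h4⟩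
      · exact Or.inl ⟨h3, hsucc.mpr ⟨h4, h2⟩⟩
      · exact Or.inr ⟨h3, fun h5 => h4 (hsucc.mp h5).1⟩
    refine sIte hs rfl rfl (fun h1 => ?_) (fun h1 => ?_)
    · refine sAdd hs rfl rfl rfl (by omega) fun hs => ?_
      refine sLoad hs rfl (hR.row' (by omega) rfl) rfl (by omega) fun hs => ?_
      refine sIte hs rfl rfl (fun h2 => ?_) (fun h2 => ?_)
      · refine sConst hs rfl (by omega) fun hs => ?_
        apply Runs.skip
        refine ⟨by omega, hs.keep, Or.inr ⟨hs.reg rfl, fun h => ?_⟩, hs.mem⟩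
        have := (hsucc.mp h).2
        omega
      · refine sIte hs rfl rfl (fun h3 => ?_) (fun h3 => ?_)
        · refine sConst hs rfl (by omega) fun hs => ?_
          apply Runs.skip
          refine ⟨by omega, hs.keep, Or.inr ⟨hs.reg rfl, fun h => ?_⟩, hs.mem⟩
          have := (hsucc.mp h).2
          omega
        · apply Runs.skip
          refine ⟨by omega, hs.keep, hsame _ ?_ (by omega), hs.mem⟩
          simp [reg_set]
    · apply Runs.skip
      refine ⟨by omega, hs.keep, hsame _ ?_ (by omega), hs.mem⟩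
      simp [reg_set]
  · rintro s' t ht hK ⟨hF, hm⟩
    exact hQ s' t (by omega) hK hm hF

/-- Copy the nonzero digits of the clause at `r_15` to the row at `r_6`. -/
def oCode : Cmd := FOR 17 0 (.seq (.op (.add 18 15 17)) (.seq (.op (.load 18 18))
  (.ite 25 18 (.seq (.op (.add 19 6 17)) (.seq (.op (.store 19 18)) .skip)) .skip)))

theorem runs_oCode (hL : Lay n m T R S) {N j : ℕ} (hj : j < m)
    (hl : Rg s ((6, R + N * S) :: (15, j * n) :: cs n m T R S)) (hw : 3 < w)
    (hR : Rep φ T R S tab row s.mem) (hb : R + N * S + S < 2 ^ w)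
    (hQ : ∀ s' t, t ≤ n * 9 + 3 → Keep [17, 18, 19] s s' →
      Rep φ T R S tab (fill row N (fun v => if φ.ent j v = 0 then row N v else φ.ent j v) n)
        s'.mem → Q s' t) :
    Runs w oCode s Q := by
  obtain ⟨hT, hR', hS⟩ := id hL
  have hw4 : 2 ^ 4 ≤ 2 ^ w := Nat.pow_le_pow_right (by norm_num) hw
  have h4n : 0 < 4 ^ n := by positivity
  set g := fun v => if φ.ent j v = 0 then row N v else φ.ent j v with hg
  refine rFor (N := n) (T := 6) [18, 19] hl rfl rfl rfl rfl rfl (by omega)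
    (fun q s' => Rep φ T R S tab (fill row N g q) s'.mem) (fun q s x h => h)
    (by rw [fill_zero]; exact hR) ?_ ?_
  · rintro q s' hq hl' hI
    have hs := Sy.start (K := [18, 19]) hl'
    have hjm := inp_lt hj hq
    have hel := ent_lt φ j q
    refine sAdd hs rfl rfl rfl (by omega) fun hs => ?_
    refine sLoad hs rfl (hI.inp' hj hq rfl) rfl (by omega) fun hs => ?_
    refine sIte hs rfl rfl (fun h1 => ?_) (fun h1 => ?_)
    · refine sAdd hs rfl rfl rfl (by omega) fun hs => ?_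
      refine sStore hs rfl rfl fun hs => ?_
      apply Runs.skip
      refine ⟨by omega, hs.keep, ?_⟩
      rw [hs.mem, ← fill_succ]
      have : g q = φ.ent j q := by simp only [hg]; rw [if_neg (by omega)]
      rw [this]
      exact hI.storeRow hL (by omega) _ (by omega)
    · apply Runs.skip
      refine ⟨by omega, hs.keep, ?_⟩
      rw [hs.mem]
      refine hI.congr fun e f hf => ?_
      rw [← fill_succ]
      unfold upd
      by_cases h2 : e = N ∧ f = q
      · rw [if_pos h2, h2.1, h2.2, fill_ge _ _ le_rfl]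
        simp only [hg]; rw [if_pos (by omega)]
      · rw [if_neg h2]
  · rintro s' t ht hK hI
    exact hQ s' t (by omega) hK hI

/-- One clause in the computation of the target. -/
def jCode : Cmd := .seq (.op (.const 16 1)) (.seq fCode (.seq (.op (.add 18 15 10))
  (.seq (.op (.load 18 18)) (.seq (.ite 25 18 (.seq (.op (.const 16 0)) .skip) .skip)
    (.seq (.ite 25 16 oCode .skip) (.seq (.op (.add 15 15 0)) .skip))))))

theorem tg_succ {φ : CNF n m} {j i : ℕ} {r : ℕ → ℕ} {v : ℕ} (hv : v < n) :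
    (sup φ r j → φ.ent j i = 0 →
      tg φ (j + 1) i r v = if φ.ent j v = 0 then tg φ j i r v else φ.ent j v) ∧
    (¬ (sup φ r j ∧ φ.ent j i = 0) → tg φ (j + 1) i r v = tg φ j i r v) := by
  constructor
  · intro h1 h2
    split_ifs with h3
    · unfold tg
      by_cases h4 : ∃ j' < j, sup φ r j' ∧ φ.ent j' i = 0 ∧ φ.ent j' v ≠ 0
      · rw [if_pos h4, if_pos]
        obtain ⟨j', h5, h6⟩ := h4
        exact ⟨j', by omega, h6⟩
      · rw [if_neg h4, if_neg]
        rintro ⟨j', h5, h6, h7, h8⟩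
        rcases Nat.lt_succ_iff_lt_or_eq.mp h5 with h5 | h5
        · exact h4 ⟨j', h5, h6, h7, h8⟩
        · rw [h5] at h8; exact h8 h3
    · unfold tg
      rw [if_pos ⟨j, by omega, h1, h2, h3⟩]
      exact ((h1 v hv).resolve_left h3).symm
  · intro h1
    unfold tg
    by_cases h4 : ∃ j' < j, sup φ r j' ∧ φ.ent j' i = 0 ∧ φ.ent j' v ≠ 0
    · rw [if_pos h4, if_pos]
      obtain ⟨j', h5, h6⟩ := h4
      exact ⟨j', by omega, h6⟩
    · rw [if_neg h4, if_neg]
      rintro ⟨j', h5, h6, h7, h8⟩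
      rcases Nat.lt_succ_iff_lt_or_eq.mp h5 with h5 | h5
      · exact h4 ⟨j', h5, h6, h7, h8⟩
      · rw [h5] at h6 h7; exact h1 ⟨h6, h7⟩

theorem runs_jCode (hL : Lay n m T R S) {e N i j : ℕ} (hj : j < m) (hi : i < n) (heN : e < N)
    (hl : Rg s ((6, R + N * S) :: (7, R + e * S) :: (10, i) :: (15, j * n) :: cs n m T R S))
    (hw : 3 < w) (hlt : ∀ v < n, row e v < 3) (hrow : ∀ v < n, row N v = tg φ j i (row e) v)
    (hR : Rep φ T R S tab row s.mem) (hb : R + N * S + S < 2 ^ w)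
    (hQ : ∀ s' t, t ≤ n * 22 + 17 → Keep [15, 16, 17, 18, 19] s s' →
      s'.reg 15 = (j + 1) * n →
      Rep φ T R S tab (fill row N (tg φ (j + 1) i (row e)) n) s'.mem → Q s' t) :
    Runs w jCode s Q := by
  obtain ⟨hT, hR', hS⟩ := id hL
  have hw4 : 2 ^ 4 ≤ 2 ^ w := Nat.pow_le_pow_right (by norm_num) hw
  have h4n : 0 < 4 ^ n := by positivity
  have heS := row_le (S := S) heN
  have hjn := inp_lt hj hi
  have hjn2 : j * n + n ≤ m * n := by
    have : (j + 1) * n ≤ m * n := Nat.mul_le_mul_right _ hj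
    rwa [Nat.add_mul, one_mul] at this
  have hel := ent_lt φ j i
  have hs := Sy.start (K := [15, 16, 17, 18, 19]) hl
  unfold jCode
  refine sConst hs rfl (by omega) fun hs => ?_
  refine sCall (runs_fCode (φ := φ) (row := row) (Q := fun s' t => t ≤ n * 13 + 3 ∧
    Keep [17, 16, 18, 19] (s.set 16 1) s' ∧ s'.mem = (s.set 16 1).mem ∧
      Fl (s'.reg 16) (sup φ (row e) j)) hL hj (hs.rg.of (by repeat (first | exact trivial | refine ⟨rfl, ?_⟩))) (hs.reg rfl) hw hlt hR (by omega)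
      (fun s' t h1 h2 h3 h4 => ⟨h1, h2, h3, h4⟩)) ?_
  rintro s1 t1 ⟨ht1, hK1, hm1, hF1⟩
  have hs := hs.sub hK1 rfl
  rw [hm1] at hs
  refine sAdd hs rfl rfl rfl (by omega) fun hs => ?_
  refine sLoad hs rfl (hR.inp' hj hi rfl) rfl (by omega) fun hs => ?_
  -- the second test
  set s2 := (s1.set 18 (j * n + i)).set 18 (φ.ent j i) with hs2
  have h16 : s2.reg 16 = s1.reg 16 := by simp [hs2, reg_set]
  refine sCall (P := fun s' t => t ≤ 2 ∧ Keep [16] s2 s' ∧ s'.mem = s2.mem ∧
      Fl (s'.reg 16) (sup φ (row e) j ∧ φ.ent j i = 0))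
    (sIte hs rfl rfl (fun h1 => ?_) (fun h1 => ?_)) ?_
  · have hs' := Sy.start (K := [16]) hs.rg
    refine sConst hs' rfl (by omega) fun hs' => ?_
    apply Runs.skip
    exact ⟨by omega, hs'.keep, hs'.mem, Or.inr ⟨hs'.reg rfl, fun h => by omega⟩⟩
  · apply Runs.skip
    refine ⟨by omega, Keep.refl _ _, rfl, ?_⟩
    rw [h16]
    rcases hF1 with ⟨h2, h3⟩ | ⟨h2, h3⟩
    · exact Or.inl ⟨h2, h3, by omega⟩
    · exact Or.inr ⟨h2, fun h => h3 h.1⟩
  rintro s3 t3 ⟨ht3, hK3, hm3, hF3⟩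
  have hm3' : s3.mem = s.mem := by rw [hm3]; exact hm1
  have hs := hs.sub hK3 rfl
  rw [hm3'] at hs
  obtain ⟨x, hx⟩ : ∃ x, s3.reg 16 = x := ⟨_, rfl⟩
  rw [hx] at hF3
  have hs := hs.cons hx
  refine sCall (P := fun s' t => t ≤ n * 9 + 4 ∧ Keep [17, 18, 19] s3 s' ∧
      Rep φ T R S tab (fill row N (tg φ (j + 1) i (row e)) n) s'.mem)
    (sIte hs rfl rfl (fun h1 => ?_) (fun h1 => ?_)) ?_
  · have h2 : sup φ (row e) j ∧ φ.ent j i = 0 := by
      rcases hF3 with h3 | h3
      · exact h3.2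
      · omega
    refine runs_oCode (φ := φ) hL hj (hs.rg.of (by repeat (first | exact trivial | refine ⟨rfl, ?_⟩))) hw (by rw [hs.mem]; exact hR) hb ?_
    intro s' t ht hK hR2
    refine ⟨by omega, hK, hR2.congr fun e' f hf => ?_⟩
    by_cases h3 : e' = N
    · rw [h3]
      by_cases h4 : f < n
      · rw [fill_lt _ _ h4, fill_lt _ _ h4, (tg_succ h4).1 h2.1 h2.2, hrow f h4]
      · rw [fill_ge _ _ (by omega), fill_ge _ _ (by omega)]
    · rw [fill_ne _ _ _ h3, fill_ne _ _ _ h3]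
  · have h2 : ¬ (sup φ (row e) j ∧ φ.ent j i = 0) := by
      rcases hF3 with h3 | h3
      · omega
      · exact h3.2
    apply Runs.skip
    refine ⟨by omega, Keep.refl _ _, ?_⟩
    rw [hs.mem]
    refine hR.congr fun e' f hf => ?_
    by_cases h3 : e' = N
    · rw [h3]
      by_cases h4 : f < n
      · rw [fill_lt _ _ h4, (tg_succ h4).2 h2, hrow f h4]
      · rw [fill_ge _ _ (by omega)]
    · rw [fill_ne _ _ _ h3]
  rintro s4 t4 ⟨ht4, hK4, hR4⟩
  have hs := hs.sub hK4 rfl
  refine sAdd hs rfl rfl rfl (by omega) fun hs => ?_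
  apply Runs.skip
  refine hQ _ _ (by omega) hs.keep ?_ ?_
  · rw [hs.reg rfl]; ring
  · rw [hs.mem]; exact hR4

/-- Code of the row at `r_6`. -/
def cdCode : Cmd := .seq (.op (.const 13 0)) (FOR 17 0 (.seq (.op (.mul 13 13 21))
  (.seq (.op (.add 18 6 17)) (.seq (.op (.load 18 18)) (.seq (.op (.add 13 13 18)) .skip)))))

theorem runs_cdCode (hL : Lay n m T R S) {N : ℕ} (hl : Rg s ((6, R + N * S) :: cs n m T R S))
    (hw : 3 < w) (hR : Rep φ T R S tab row s.mem) (hlt : ∀ v < n, row N v < 3)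
    (hb : R + N * S + S < 2 ^ w)
    (hQ : ∀ s' t, t ≤ n * 7 + 4 → Keep [17, 18, 13] s s' → s'.mem = s.mem →
      s'.reg 13 = cod (row N) n → Q s' t) :
    Runs w cdCode s Q := by
  obtain ⟨hT, hR', hS⟩ := id hL
  have hw4 : 2 ^ 4 ≤ 2 ^ w := Nat.pow_le_pow_right (by norm_num) hw
  have h4n : 0 < 4 ^ n := by positivity
  have hs := Sy.start (K := [17, 18, 13]) hl
  unfold cdCode
  refine sConst hs rfl (by omega) fun hs => ?_
  refine rFor (N := n) (T := 4) [13, 18] (hs.rg.of (l := (6, R + N * S) :: cs n m T R S) (by repeat (first | exact trivial | refine ⟨rfl, ?_⟩))) rfl rfl rfl rfl rfl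
    (by omega) (fun q s' => s'.reg 13 = cod (row N) q ∧ s'.mem = s.mem)
    (fun q s x h => by simpa [reg_set] using h) ⟨hs.reg rfl, rfl⟩ ?_ ?_
  · rintro q s' hq hl' ⟨h13, hm⟩
    have hs := Sy.start (K := [13, 18]) (hl'.cons h13)
    rw [hm] at hs
    have hc : cod (row N) q < 4 ^ q := cod_lt (fun v hv => hlt v (by omega))
    have h4 : 4 ^ (q + 1) ≤ 4 ^ n := Nat.pow_le_pow_right (by norm_num) hq
    rw [pow_succ] at h4
    have hrl := hlt q hq
    refine sMul hs rfl rfl rfl (by omega) fun hs => ?_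
    refine sAdd hs rfl rfl rfl (by omega) fun hs => ?_
    refine sLoad hs rfl (hR.row' (by omega) rfl) rfl (by omega) fun hs => ?_
    refine sAdd hs rfl rfl rfl (by omega) fun hs => ?_
    apply Runs.skip
    exact ⟨by omega, hs.keep, hs.reg rfl, hs.mem⟩
  · rintro s' t ht hK ⟨h13, hm⟩
    refine hQ s' _ (by omega) ?_ hm h13
    exact hs.keep.trans (hK.mono rfl)

/-- Code of the target of the row at `r_7` with respect to the variable `r_10`. -/
def tgCode : Cmd := .seq zCode (.seq (.op (.const 15 0)) (.seq (FOR 14 8 jCode) cdCode))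

theorem runs_tgCode (hL : Lay n m T R S) {e N i k : ℕ} (hk : k < m) (hi : i < n) (heN : e < N)
    (hl : Rg s ((6, R + N * S) :: (7, R + e * S) :: (8, k) :: (10, i) :: cs n m T R S))
    (hw : 3 < w) (hmw : m < 2 ^ w) (hlt : ∀ v < n, row e v < 3)
    (hR : Rep φ T R S tab row s.mem) (hb : R + N * S + S < 2 ^ w)
    (hQ : ∀ s' t, t ≤ k * (n * 22 + 20) + n * 12 + 11 → Keep [13, 14, 15, 16, 17, 18, 19] s s' →
      s'.reg 13 = cod (tg φ k i (row e)) n →
      Rep φ T R S tab (fill row N (tg φ k i (row e)) n) s'.mem → Q s' t) :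
    Runs w tgCode s Q := by
  have hw4 : 2 ^ 4 ≤ 2 ^ w := Nat.pow_le_pow_right (by norm_num) hw
  have h4n : 0 < 4 ^ n := by positivity
  have hs := Sy.start (K := [13, 14, 15, 16, 17, 18, 19]) hl
  unfold tgCode
  refine sCall (runs_zCode (φ := φ) (row := row) (tab := tab) (Q := fun s' t => t ≤ n * 5 + 3 ∧
    Keep [17, 18] s s' ∧ Rep φ T R S tab (fill row N (fun _ => 0) n) s'.mem) hL
      (hs.rg.of (by repeat (first | exact trivial | refine ⟨rfl, ?_⟩))) hR hb (fun s' t h1 h2 h3 => ⟨h1, h2, h3⟩)) ?_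
  rintro s1 t1 ⟨ht1, hK1, hR1⟩
  have hs := hs.sub hK1 rfl
  refine sConst hs rfl (by omega) fun hs => ?_
  refine sCall (P := fun s' t => t ≤ k * (n * 22 + 20) + 3 ∧
    Keep [14, 15, 16, 17, 18, 19] (s1.set 15 0) s' ∧
    Rep φ T R S tab (fill row N (tg φ k i (row e)) n) s'.mem) ?_ ?_
  · refine rFor (N := k) (T := n * 22 + 17) [15, 16, 17, 18, 19]
      (hs.rg.of (l := (8, k) :: (6, R + N * S) :: (7, R + e * S) :: (10, i) :: cs n m T R S)
        (by repeat (first | exact trivial | refine ⟨rfl, ?_⟩))) rfl rfl rfl rfl rfl (by omega)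
      (fun j s' => s'.reg 15 = j * n ∧ Rep φ T R S tab (fill row N (tg φ j i (row e)) n) s'.mem)
      (fun q s x h => by simpa [reg_set] using h) ⟨?_, ?_⟩ ?_ ?_
    · rw [hs.reg rfl]; omega
    · rw [hs.mem]
      refine hR1.congr fun e' f hf => ?_
      by_cases h3 : e' = N
      · rw [h3]
        by_cases h4 : f < n
        · rw [fill_lt _ _ h4, fill_lt _ _ h4]
          unfold tg
          rw [if_neg]
          rintro ⟨j, hj, -⟩
          omega
        · rw [fill_ge _ _ (by omega), fill_ge _ _ (by omega)]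
      · rw [fill_ne _ _ _ h3, fill_ne _ _ _ h3]
    · rintro j s' hj hl' ⟨h15, hRj⟩
      have hrow : fill row N (tg φ j i (row e)) n e = row e := fill_ne _ _ _ (by omega)
      refine runs_jCode (φ := φ) (j := j) (e := e) (i := i) hL (by omega) hi heN
        ((hl'.cons h15).of (by repeat (first | exact trivial | refine ⟨rfl, ?_⟩))) hw ?_ ?_ hRj hb ?_
      · rw [hrow]; exact hlt
      · intro v hv
        rw [hrow, fill_lt _ _ hv]
      · intro s'' t ht hK h15' hR''
        refine ⟨by omega, hK, h15', ?_⟩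
        rw [fill_fill, hrow] at hR''
        exact hR''
    · rintro s' t ht hK ⟨h15, hR'⟩
      exact ⟨by omega, hK, hR'⟩
  rintro s2 t2 ⟨ht2, hK2, hR2⟩
  have hs := hs.sub hK2 rfl
  refine runs_cdCode (φ := φ) hL (hs.rg.of (by repeat (first | exact trivial | refine ⟨rfl, ?_⟩))) hw hR2 ?_ hb ?_
  · intro v hv
    rw [fill_lt _ _ hv]
    exact tg_lt hlt v hv
  · intro s3 t3 ht3 hK3 hm3 h13
    have hs := hs.sub hK3 rfl
    refine hQ s3 _ (by omega) hs.keep ?_ (by rw [hm3]; exact hR2)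
    rw [h13]
    exact cod_congr (fun v hv => fill_lt _ _ hv)

end

end Pool.Agent.H624R2.Lin
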