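import Pool.Agent.H624R2.Lin2

/-!
The loops over the rows for one clause and one variable.
-/

namespace Pool.Agent.H624R2.Lin

open Finset Pool.Agent.H588R2

variable {n m : ℕ}

/-- Loop over the rows. -/
theorem rPtr {w b N R S Tm : ℕ} {body : Cmd} {s : St} {l : List (ℕ × ℕ)} {Q : St → ℕ → Prop}
    (K : List ℕ) (hl : Rg s l) (hb : look b l = some (R + N * S)) (hbK : notIn K b = true)
    (h7 : s.reg 7 = R) (hS : 0 < S) (I : ℕ → St → Prop) (hI0 : I 0 s)
    (hstep : ∀ q s', q < N → Rg s' ((7, R + q * S) :: restr K l) → I q s' →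
      Runs w body s' (fun s'' t => t ≤ Tm ∧ Keep K s' s'' ∧ s''.reg 7 = R + (q + 1) * S ∧
        I (q + 1) s''))
    (hQ : ∀ s' t, t ≤ N * (Tm + 2) + 2 → Keep K s s' → I N s' → Q s' t) :
    Runs w (.loop 7 b body) s Q := by
  refine Runs.loop N (fun q s' τ => τ ≤ q * (Tm + 2) ∧ Keep K s s' ∧ s'.reg 7 = R + q * S ∧
    I q s') ?_ ?_ ?_ ?_
  · rintro q s' τ hq ⟨hτ, hK, hv, hI⟩
    have e1 : s'.reg b = R + N * S := by rw [hK b hbK]; exact hl b _ hb
    have hqS := row_le (S := S) hq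
    refine ⟨by rw [hv, e1]; omega, ?_⟩
    refine (hstep q s' hq ((hl.keep hK).cons hv) hI).mono ?_
    rintro s'' t ⟨ht, hK', h7', hI'⟩
    refine ⟨?_, hK.trans hK', h7', hI'⟩
    rw [Nat.add_mul, one_mul]; omega
  · rintro s' τ ⟨hτ, hK, hv, hI⟩
    rw [hv, hK b hbK, hl b _ hb]; omega
  · exact ⟨by omega, Keep.refl _ _, by rw [h7]; omega, hI0⟩
  · rintro s' τ ⟨hτ, hK, hv, hI⟩
    exact hQ s' _ (by omega) hK hI

/-- The tables of codes. -/
structure Tabs (φ : CNF n m) (R S k N : ℕ) (tab : ℕ → ℕ) (row : ℕ → ℕ → ℕ) : Prop where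
  tb : Tb φ k N row
  tab1 : ∀ e < N, tab (cod (row e) n) = R + e * S
  tab2 : ∀ c < 4 ^ n, tab c ≠ 0 → ∃ e < N, cod (row e) n = c

theorem cl_le (φ : CNF n m) (k : ℕ) (r : ℕ → ℕ) (V : (Fin n → Bool) → Prop) :
    cl φ k r V ≤ 2 ^ n := ct_le _

/-- State during the first loop over the rows. -/
structure AI (φ : CNF n m) (k i c N : ℕ) (row0 : ℕ → ℕ → ℕ) (q : ℕ) (row : ℕ → ℕ → ℕ) :
    Prop where
  dg : ∀ e < N, ∀ f < n + 2, row e f = row0 e f
  bs : ∀ e < N, row e (n + 2) = Bs φ k (Vp φ k i) row0 i (fun d => d = c) q (row0 e)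
  bo : ∀ e < N, row e (n + 3) = Bs φ k (Vp φ k i) row0 i (fun d => d ≠ 0 ∧ d ≠ c) q (row0 e)

section
variable {φ : CNF n m} {k i c N q : ℕ} {row0 row row' : ℕ → ℕ → ℕ}

theorem AI.congr (h : AI φ k i c N row0 q row)
    (he : ∀ e < N, ∀ f < n + 4, row' e f = row e f) : AI φ k i c N row0 q row' :=
  ⟨fun e h1 f hf => by rw [he e h1 f (by omega)]; exact h.dg e h1 f hf,
    fun e h1 => by rw [he e h1 _ (by omega)]; exact h.bs e h1,
    fun e h1 => by rw [he e h1 _ (by omega)]; exact h.bo e h1⟩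

theorem AI.skip (h : AI φ k i c N row0 q row) (hc : c ≠ 0)
    (hn : row0 q i ≠ 0 → ∀ e < N, ¬ ∀ v < n, tg φ k i (row0 q) v = row0 e v) :
    AI φ k i c N row0 (q + 1) row := by
  refine ⟨h.dg, fun e he => ?_, fun e he => ?_⟩
  · rw [h.bs e he, Bs_succ_neg]
    rintro ⟨h1, h2⟩
    exact hn (by omega) e he h2
  · rw [h.bo e he, Bs_succ_neg]
    rintro ⟨h1, h2⟩
    exact hn h1.1 e he h2

theorem AI.add (h : AI φ k i c N row0 q row) (hT : Tb φ k N row0)
    (hR0 : ∀ e < N, row0 e (n + 1) = cl φ k (row0 e) (Vp φ k i)) (hq : q < N)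
    (hd : row0 q i ≠ 0) {e' : ℕ} (he' : e' < N) (ht : ∀ v < n, tg φ k i (row0 q) v = row0 e' v)
    {f : ℕ} (hf : f = if row0 q i = c then n + 2 else n + 3) :
    AI φ k i c N row0 (q + 1) (upd row e' f (row e' f + row q (n + 1))) := by
  have hv : row q (n + 1) = cl φ k (row0 q) (Vp φ k i) := by
    rw [h.dg q hq _ (by omega), hR0 q hq]
  have huniq : ∀ e < N, (∀ v < n, tg φ k i (row0 q) v = row0 e v) → e = e' := by
    intro e he h1
    apply hT.inj e he e' he'
    intro v hv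
    rw [← h1 v hv, ht v hv]
  refine ⟨fun e he g hg => ?_, fun e he => ?_, fun e he => ?_⟩
  · rw [upd_cell _ _ (by split_ifs at hf <;> omega)]
    exact h.dg e he g hg
  · by_cases h1 : row0 q i = c
    · rw [if_pos h1] at hf
      subst hf
      by_cases h2 : e = e'
      · subst h2
        rw [upd_self, h.bs e he, hv, Bs_succ_pos hT hq ⟨h1, ht⟩]
      · rw [upd_row _ _ _ h2, h.bs e he, Bs_succ_neg]
        rintro ⟨-, h3⟩
        exact h2 (huniq e he h3)
    · rw [if_neg h1] at hf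
      subst hf
      rw [upd_cell _ _ (by omega), h.bs e he, Bs_succ_neg]
      rintro ⟨h3, -⟩
      exact h1 h3
  · by_cases h1 : row0 q i = c
    · rw [if_pos h1] at hf
      subst hf
      rw [upd_cell _ _ (by omega), h.bo e he, Bs_succ_neg]
      rintro ⟨⟨-, h3⟩, -⟩
      exact h3 h1
    · rw [if_neg h1] at hf
      subst hf
      by_cases h2 : e = e'
      · subst h2
        rw [upd_self, h.bo e he, hv, Bs_succ_pos hT hq ⟨⟨hd, h1⟩, ht⟩]
      · rw [upd_row _ _ _ h2, h.bo e he, Bs_succ_neg]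
        rintro ⟨-, h3⟩
        exact h2 (huniq e he h3)

end

/-- Choice of the cell. -/
def ofCode : Cmd := .ite 12 28 (.seq (.op (.add 16 32 25)) .skip)
  (.ite 28 12 (.seq (.op (.add 16 32 25)) .skip) (.seq (.op (.add 16 31 25)) .skip))

def a2Code : Cmd := .seq (.op (.add 11 7 30)) (.seq (.op (.load 14 11)) (.seq ofCode
  (.seq (.op (.add 11 13 16)) (.seq (.op (.load 15 11)) (.seq (.op (.add 15 15 14))
    (.seq (.op (.store 11 15)) .skip))))))

def a1Code : Cmd := .seq tgCode (.seq (.op (.add 11 27 13)) (.seq (.op (.load 13 11))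
  (.ite 25 13 a2Code .skip)))

/-- Body of the first loop over the rows. -/
def aCode : Cmd := .seq (.op (.add 11 7 10)) (.seq (.op (.load 12 11))
  (.seq (.ite 25 12 a1Code .skip) (.seq (.op (.add 7 7 4)) .skip)))

section
variable {φ : CNF n m} {T R S : ℕ} {tab : ℕ → ℕ} {row row0 : ℕ → ℕ → ℕ} {w : ℕ} {s : St}
  {Q : St → ℕ → Prop}

theorem runs_aCode (hL : Lay n m T R S) {q N i k c : ℕ} (hk : k < m) (hi : i < n) (hq : q < N)
    (hc : c ≠ 0)
    (hl : Rg s ((7, R + q * S) :: (6, R + N * S) :: (8, k) :: (10, i) :: (28, c) ::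
      cs n m T R S))
    (hw : 3 < w) (hmw : m < 2 ^ w) (h2w : 4 * 2 ^ n < 2 ^ w)
    (hR : Rep φ T R S tab row s.mem) (hb : R + N * S + S < 2 ^ w)
    (hT : Tabs φ R S k N tab row0)
    (hR0 : ∀ e < N, row0 e (n + 1) = cl φ k (row0 e) (Vp φ k i))
    (hA : AI φ k i c N row0 q row)
    (hQ : ∀ s' t row', t ≤ k * (n * 22 + 20) + n * 12 + 40 →
      Keep [7, 11, 12, 13, 14, 15, 16, 17, 18, 19] s s' →
      s'.reg 7 = R + (q + 1) * S → Rep φ T R S tab row' s'.mem →
      AI φ k i c N row0 (q + 1) row' → Q s' t) :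
    Runs w aCode s Q := by
  obtain ⟨hT', hR', hS⟩ := id hL
  have hw4 : 2 ^ 4 ≤ 2 ^ w := Nat.pow_le_pow_right (by norm_num) hw
  have h4n : 0 < 4 ^ n := by positivity
  have hqS := row_le (S := S) hq
  have hdq : ∀ v < n, row q v = row0 q v := fun v hv => hA.dg q hq v (by omega)
  have hlt : ∀ v < n, row q v < 3 := fun v hv => by
    rw [hdq v hv]; exact (hT.tb.good q hq).lt v hv
  have hri := hlt i hi
  have hs := Sy.start (K := [7, 11, 12, 13, 14, 15, 16, 17, 18, 19]) hl
  unfold aCode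
  refine sAdd hs rfl rfl rfl (by omega) fun hs => ?_
  refine sLoad hs rfl (hR.row' (e := q) (f := i) (by omega) rfl) rfl (by omega) fun hs => ?_
  set s1 := (s.set 11 (R + q * S + i)).set 12 (row q i) with hs1
  refine sCall (P := fun s' t => t ≤ k * (n * 22 + 20) + n * 12 + 30 ∧
      Keep [11, 13, 14, 15, 16, 17, 18, 19] s1 s' ∧
      ∃ row', Rep φ T R S tab row' s'.mem ∧ AI φ k i c N row0 (q + 1) row')
    (sIte hs rfl rfl (fun h1 => ?_) (fun h1 => ?_)) ?_
  · have hs := Sy.start (K := [11, 13, 14, 15, 16, 17, 18, 19]) hs.rg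
    unfold a1Code
    refine sCall (runs_tgCode (φ := φ) (row := row) (tab := tab) (e := q) (N := N) (i := i)
      (k := k) (Q := fun s' t => t ≤ k * (n * 22 + 20) + n * 12 + 11 ∧
      Keep [13, 14, 15, 16, 17, 18, 19] s1 s' ∧ s'.reg 13 = cod (tg φ k i (row q)) n ∧
      Rep φ T R S tab (fill row N (tg φ k i (row q)) n) s'.mem) hL hk hi hq
        (hs.rg.of (by repeat (first | exact trivial | refine ⟨rfl, ?_⟩))) hw hmw hlt hR hb (fun s' t h1 h2 h3 h4 => ⟨h1, h2, h3, h4⟩)) ?_
    rintro s2 t2 ⟨ht2, hK2, h13, hR2⟩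
    have hs := (hs.sub hK2 rfl).cons h13
    have hcod : cod (tg φ k i (row q)) n < 4 ^ n := cod_lt (tg_lt hlt)
    have htq : ∀ v < n, tg φ k i (row q) v = tg φ k i (row0 q) v := tg_congr hdq
    have hA2 : AI φ k i c N row0 q (fill row N (tg φ k i (row q)) n) :=
      hA.congr (fun e he f _ => by rw [fill_ne _ _ _ (by omega)])
    refine sAdd hs rfl rfl rfl (by omega) fun hs => ?_
    have htab : tab (cod (tg φ k i (row q)) n) = 0 ∨ ∃ e < N,
        tab (cod (tg φ k i (row q)) n) = R + e * S ∧ ∀ v < n, tg φ k i (row0 q) v = row0 e v := by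
      by_cases h0 : tab (cod (tg φ k i (row q)) n) = 0
      · exact Or.inl h0
      · obtain ⟨e, he, h2⟩ := hT.tab2 _ hcod h0
        refine Or.inr ⟨e, he, by rw [← h2]; exact hT.tab1 e he, fun v hv => ?_⟩
        rw [← htq v hv]
        exact (cod_inj (hT.tb.good e he).lt (tg_lt hlt) h2 v hv).symm
    have hsmall : tab (cod (tg φ k i (row q)) n) < 2 ^ w := by
      rcases htab with h2 | ⟨e, he, h2, -⟩
      · omega
      · have := row_le (S := S) he
        omega
    refine sLoad hs rfl (hR2.tb _ hcod) rfl hsmall fun hs => ?_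
    refine sIte hs rfl rfl (fun h2 => ?_) (fun h2 => ?_)
    · obtain ⟨e, he, h3, h4⟩ := htab.resolve_left (by omega)
      have heS := row_le (S := S) he
      rw [h3] at hs ⊢
      unfold a2Code
      refine sAdd hs rfl rfl rfl (by omega) fun hs => ?_
      have hRq : fill row N (tg φ k i (row q)) n q (n + 1) ≤ 2 ^ n := by
        rw [hA2.dg q hq _ (by omega), hR0 q hq]
        exact cl_le _ _ _ _
      refine sLoad hs rfl (hR2.row' (e := q) (f := n + 1) (by omega) (by omega)) rfl (by omega)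
        fun hs => ?_
      set f := if row0 q i = c then n + 2 else n + 3 with hf
      obtain ⟨s3, hs3⟩ : ∃ s3, s3 = ((((s2.set 11 (T + cod (tg φ k i (row q)) n)).set 13
        (R + e * S)).set 11 (R + q * S + (n + 1))).set 14
          (fill row N (tg φ k i (row q)) n q (n + 1))) := ⟨_, rfl⟩
      rw [← hs3] at hs ⊢
      refine sCall (P := fun s' t => t ≤ 5 ∧ Keep [16] s3 s' ∧ s'.mem = s3.mem ∧
        s'.reg 16 = f) (sIte hs rfl rfl (fun h5 => ?_) (fun h5 => ?_)) ?_
      · have hs' := Sy.start (K := [16]) hs.rg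
        refine sAdd hs' rfl rfl rfl (by omega) fun hs' => ?_
        apply Runs.skip
        refine ⟨by omega, hs'.keep, hs'.mem, ?_⟩
        rw [hs'.reg rfl, hf, if_neg (by rw [← hdq i hi]; omega)]
      · refine sIte hs rfl rfl (fun h6 => ?_) (fun h6 => ?_)
        · have hs' := Sy.start (K := [16]) hs.rg
          refine sAdd hs' rfl rfl rfl (by omega) fun hs' => ?_
          apply Runs.skip
          refine ⟨by omega, hs'.keep, hs'.mem, ?_⟩
          rw [hs'.reg rfl, hf, if_neg (by rw [← hdq i hi]; omega)]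
        · have hs' := Sy.start (K := [16]) hs.rg
          refine sAdd hs' rfl rfl rfl (by omega) fun hs' => ?_
          apply Runs.skip
          refine ⟨by omega, hs'.keep, hs'.mem, ?_⟩
          rw [hs'.reg rfl, hf, if_pos (by rw [← hdq i hi]; omega)]
      rintro s4 t4 ⟨ht4, hK4, hm4, h16⟩
      have hfb : f < S := by rw [hf]; split_ifs <;> omega
      have hm4' : s4.mem = s2.mem := by rw [hm4, hs3]; rfl
      have hs := (hs.sub hK4 rfl).cons h16
      rw [hm4'] at hs
      have hef : fill row N (tg φ k i (row q)) n e f ≤ 2 ^ n := by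
        rw [hf]
        split_ifs
        · rw [hA2.bs e he]; exact Bs_le _ _ _ _ _ _ _ _
        · rw [hA2.bo e he]; exact Bs_le _ _ _ _ _ _ _ _
      refine sAdd hs rfl rfl rfl (by omega) fun hs => ?_
      refine sLoad hs rfl (hR2.row' (e := e) (f := f) hfb rfl) rfl (by omega) fun hs => ?_
      refine sAdd hs rfl rfl rfl (by omega) fun hs => ?_
      refine sStore hs rfl rfl fun hs => ?_
      apply Runs.skip
      refine ⟨by omega, hs.keep, upd (fill row N (tg φ k i (row q)) n) e f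
        (fill row N (tg φ k i (row q)) n e f + fill row N (tg φ k i (row q)) n q (n + 1)),
        ?_, ?_⟩
      · rw [hs.mem]
        exact hR2.storeRow hL hfb _ rfl
      · refine hA2.add hT.tb hR0 hq ?_ he h4 hf
        rw [← hdq i hi]; omega
    · apply Runs.skip
      refine ⟨by omega, hs.keep, fill row N (tg φ k i (row q)) n, ?_, ?_⟩
      · rw [hs.mem]; exact hR2
      · refine hA2.skip hc fun _ e he h3 => ?_
        have h4 := hT.tab1 e he
        have h5 : cod (row0 e) n = cod (tg φ k i (row q)) n :=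
          cod_congr (fun v hv => by rw [htq v hv, h3 v hv])
        rw [h5] at h4
        omega
  · apply Runs.skip
    refine ⟨by omega, Keep.refl _ _, row, by rw [hs.mem]; exact hR, ?_⟩
    refine hA.skip hc fun h2 => ?_
    rw [← hdq i hi] at h2
    omega
  rintro s3 t3 ⟨ht3, hK3, row', hR3, hA3⟩
  have hs := hs.sub hK3 rfl
  refine sAdd hs rfl rfl rfl (by omega) fun hs => ?_
  apply Runs.skip
  refine hQ _ _ row' (by omega) hs.keep ?_ (by rw [hs.mem]; exact hR3) hA3
  rw [hs.reg rfl]; ring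

/-! ### Halving -/

def hCode : Cmd := .seq (.op (.const 15 0)) (.seq (.op (.add 16 3 0))
  (.seq (FOR 17 30 (.seq (.op (.sub 18 16 17)) (.seq (.op (.load 18 18))
    (.seq (.op (.add 19 18 18)) (.ite 14 19 .skip (.seq (.op (.sub 14 14 19))
      (.seq (.op (.add 15 15 18)) .skip)))))))
    (.seq (.op (.add 14 15 25)) .skip)))

theorem runs_hCode (hL : Lay n m T R S) {z : ℕ}
    (hl : Rg s ((14, 2 * z) :: cs n m T R S)) (hw : 3 < w) (h2w : 4 * 2 ^ n < 2 ^ w)
    (hz : z ≤ 2 ^ n) (hR : Rep φ T R S tab row s.mem) (hb : R < 2 ^ w)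
    (hQ : ∀ s' t, t ≤ n * 10 + 16 → Keep [14, 15, 16, 17, 18, 19] s s' → s'.mem = s.mem →
      s'.reg 14 = z → Q s' t) :
    Runs w hCode s Q := by
  obtain ⟨hT', hR', hS⟩ := id hL
  have hw4 : 2 ^ 4 ≤ 2 ^ w := Nat.pow_le_pow_right (by norm_num) hw
  have h4n : 0 < 4 ^ n := by positivity
  have h2n : 0 < 2 ^ n := by positivity
  have hs := Sy.start (K := [14, 15, 16, 17, 18, 19]) hl
  unfold hCode
  refine sConst hs rfl (by omega) fun hs => ?_
  refine sAdd hs rfl rfl rfl (by omega) fun hs => ?_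
  obtain ⟨s1, hs1⟩ : ∃ s1, s1 = ((s.set 15 0).set 16 (m * n + n)) := ⟨_, rfl⟩
  rw [← hs1] at hs ⊢
  refine sCall (P := fun s' t => t ≤ n * 10 + 13 ∧ Keep [17, 14, 15, 18, 19] s1 s' ∧
    s'.mem = s.mem ∧ s'.reg 15 = z) ?_ ?_
  · refine rFor (N := n + 1) (T := 7) [14, 15, 18, 19] (hs.rg.of (l := (14, 2 * z) :: (15, 0) ::
      (16, m * n + n) :: cs n m T R S) (by repeat (first | exact trivial | refine ⟨rfl, ?_⟩))) rfl rfl rfl rfl rfl (by omega)
      (fun q s' => s'.mem = s.mem ∧ 2 * s'.reg 15 + s'.reg 14 = 2 * z ∧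
        s'.reg 14 < 2 ^ (n + 2 - q)) (fun q s x h => by simpa [reg_set] using h)
      ⟨hs.mem, ?_, ?_⟩ ?_ ?_
    · rw [hs.reg (d := 15) rfl, hs.reg (d := 14) rfl]; omega
    · rw [hs.reg (d := 14) rfl, Nat.sub_zero, pow_add]; omega
    · rintro q s' hq hl' ⟨hm, h1, h2⟩
      obtain ⟨x, hx⟩ : ∃ x, s'.reg 14 = x := ⟨_, rfl⟩
      obtain ⟨y, hy⟩ : ∃ y, s'.reg 15 = y := ⟨_, rfl⟩
      rw [hx] at h1 h2
      rw [hy] at h1
      have hs := Sy.start (K := [14, 15, 18, 19]) ((hl'.cons hx).cons hy)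
      rw [hm] at hs
      have e1 : 2 ^ (n + 2 - q) = 4 * 2 ^ (n - q) := by
        rw [show n + 2 - q = n - q + 2 by omega, pow_add]; omega
      have e2 : 2 ^ (n + 2 - (q + 1)) = 2 * 2 ^ (n - q) := by
        rw [show n + 2 - (q + 1) = n - q + 1 by omega, pow_add]; omega
      have e3 : 2 ^ (n - q) ≤ 2 ^ n := Nat.pow_le_pow_right (by norm_num) (by omega)
      rw [e1] at h2
      refine sSub hs rfl rfl rfl (by omega) fun hs => ?_
      refine sLoad (y := 2 ^ (n - q)) hs rfl ?_ rfl (by omega) fun hs => ?_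
      · rw [show m * n + n - q = m * n + (n - q) by omega]
        exact hR.pw _ (by omega)
      refine sAdd hs rfl rfl rfl (by omega) fun hs => ?_
      refine sIte hs rfl rfl (fun h3 => ?_) (fun h3 => ?_)
      · apply Runs.skip
        refine ⟨by omega, hs.keep, hs.mem, ?_, ?_⟩
        · rw [hs.reg (d := 15) rfl, hs.reg (d := 14) rfl]; exact h1
        · rw [hs.reg (d := 14) rfl, e2]; omega
      · refine sSub hs rfl rfl rfl (by omega) fun hs => ?_
        refine sAdd hs rfl rfl rfl (by omega) fun hs => ?_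
        apply Runs.skip
        refine ⟨by omega, hs.keep, hs.mem, ?_, ?_⟩
        · rw [hs.reg (d := 15) rfl, hs.reg (d := 14) rfl]; omega
        · rw [hs.reg (d := 14) rfl, e2]; omega
    · rintro s' t ht hK ⟨hm, h1, h2⟩
      refine ⟨by omega, hK, hm, ?_⟩
      rw [show n + 2 - (n + 1) = 1 by omega] at h2
      omega
  rintro s2 t2 ⟨ht2, hK2, hm2, h15⟩
  have hs := (hs.sub hK2 rfl).cons h15
  refine sAdd hs rfl rfl rfl (by omega) fun hs => ?_
  apply Runs.skip
  exact hQ _ _ (by omega) hs.keep (by rw [hs.mem]; exact hm2) (hs.reg rfl)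

/-! ### Second loop over the rows -/

/-- State during the second loop over the rows. -/
structure BI (φ : CNF n m) (k i c N : ℕ) (row0 : ℕ → ℕ → ℕ) (q : ℕ) (row : ℕ → ℕ → ℕ) :
    Prop where
  dg : ∀ e < N, ∀ f < n + 1, row e f = row0 e f
  done : ∀ e < q, e < N → row e (n + 1) = cl φ k (row0 e) (Vp φ k (i + 1)) ∧
    row e (n + 2) = 0 ∧ row e (n + 3) = 0
  todo : ∀ e, q ≤ e → e < N → row e (n + 1) = cl φ k (row0 e) (Vp φ k i) ∧
    row e (n + 2) = Bs φ k (Vp φ k i) row0 i (fun d => d = c) N (row0 e) ∧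
    row e (n + 3) = Bs φ k (Vp φ k i) row0 i (fun d => d ≠ 0 ∧ d ≠ c) N (row0 e)

theorem AI.toBI {k i c N : ℕ} (h : AI φ k i c N row0 N row)
    (hR0 : ∀ e < N, row0 e (n + 1) = cl φ k (row0 e) (Vp φ k i)) : BI φ k i c N row0 0 row :=
  ⟨fun e he f hf => h.dg e he f (by omega), fun e he => absurd he (by omega),
    fun e _ he => ⟨by rw [h.dg e he _ (by omega), hR0 e he], h.bs e he, h.bo e he⟩⟩

def zc14 : Cmd := .seq (.op (.const 14 0)) .skip

def vCode : Cmd := .ite 28 22 (.ite 25 12 (.ite 12 28 zc14 (.ite 28 12 zc14 .skip))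
  (.seq (.op (.add 11 7 31)) (.seq (.op (.load 15 11)) (.seq (.op (.add 11 7 32))
    (.seq (.op (.load 16 11)) (.seq (.op (.add 14 14 16)) (.seq (.op (.sub 14 14 15))
      hCode)))))))
  zc14

def bCode : Cmd := .seq (.op (.add 11 7 10)) (.seq (.op (.load 12 11))
  (.seq (.op (.add 13 7 30)) (.seq (.op (.load 14 13)) (.seq vCode (.seq (.op (.store 13 14))
    (.seq (.op (.add 11 7 31)) (.seq (.op (.store 11 25)) (.seq (.op (.add 11 7 32))
      (.seq (.op (.store 11 25)) (.seq (.op (.add 7 7 4)) .skip))))))))))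

theorem runs_bCode (hL : Lay n m T R S) {q N i k c : ℕ} (hi : i < n) (hq : q < N)
    (hc : c ≠ 0) (hc3 : c < 4) (hce : φ.ent k i = c)
    (hl : Rg s ((7, R + q * S) :: (10, i) :: (28, c) :: cs n m T R S))
    (hw : 3 < w) (h2w : 4 * 2 ^ n < 2 ^ w)
    (hR : Rep φ T R S tab row s.mem) (hb : R + N * S + S < 2 ^ w)
    (hT : Tb φ k N row0) (hB : BI φ k i c N row0 q row)
    (hQ : ∀ s' t row', t ≤ n * 10 + 40 → Keep [7, 11, 12, 13, 14, 15, 16, 17, 18, 19] s s' →
      s'.reg 7 = R + (q + 1) * S → Rep φ T R S tab row' s'.mem →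
      BI φ k i c N row0 (q + 1) row' → Q s' t) :
    Runs w bCode s Q := by
  obtain ⟨hT', hR', hS⟩ := id hL
  have hw4 : 2 ^ 4 ≤ 2 ^ w := Nat.pow_le_pow_right (by norm_num) hw
  have h4n : 0 < 4 ^ n := by positivity
  have h2n : 0 < 2 ^ n := by positivity
  have hqS := row_le (S := S) hq
  have hg := hT.good q hq
  have hri : row q i = row0 q i := hB.dg q hq i (by omega)
  have hlt : row q i < 3 := by rw [hri]; exact hg.lt i hi
  obtain ⟨hv1, hv2, hv3⟩ := hB.todo q le_rfl hq
  have hb1 : row q (n + 1) ≤ 2 ^ n := by rw [hv1]; exact cl_le _ _ _ _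
  have hb2 : row q (n + 2) ≤ 2 ^ n := by rw [hv2]; exact Bs_le _ _ _ _ _ _ _ _
  have hb3 : row q (n + 3) ≤ 2 ^ n := by rw [hv3]; exact Bs_le _ _ _ _ _ _ _ _
  obtain ⟨hc1, hc2, hc3', hc4⟩ := cl_step hT hi hg hce
  have hs := Sy.start (K := [7, 11, 12, 13, 14, 15, 16, 17, 18, 19]) hl
  unfold bCode
  refine sAdd hs rfl rfl rfl (by omega) fun hs => ?_
  refine sLoad hs rfl (hR.row' (e := q) (f := i) (by omega) rfl) rfl (by omega) fun hs => ?_
  refine sAdd hs rfl rfl rfl (by omega) fun hs => ?_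
  refine sLoad hs rfl (hR.row' (e := q) (f := n + 1) (by omega) (by omega)) rfl (by omega)
    fun hs => ?_
  obtain ⟨s1, hs1⟩ : ∃ s1, s1 = ((((s.set 11 (R + q * S + i)).set 12 (row q i)).set 13
    (R + q * S + (n + 1))).set 14 (row q (n + 1))) := ⟨_, rfl⟩
  rw [← hs1] at hs ⊢
  refine sCall (P := fun s' t => t ≤ n * 10 + 26 ∧ Keep [11, 14, 15, 16, 17, 18, 19] s1 s' ∧
    s'.mem = s1.mem ∧ s'.reg 14 = cl φ k (row0 q) (Vp φ k (i + 1))) ?_ ?_
  · have hs := Sy.start (K := [11, 14, 15, 16, 17, 18, 19]) hs.rg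
    have hzero : ∀ (T' : ℕ), T' ≤ 10 → cl φ k (row0 q) (Vp φ k (i + 1)) = 0 →
        Runs w zc14 s1 (fun s' t => T' + t ≤ n * 10 + 26 ∧
          Keep [11, 14, 15, 16, 17, 18, 19] s1 s' ∧ s'.mem = s1.mem ∧
          s'.reg 14 = cl φ k (row0 q) (Vp φ k (i + 1))) := by
      intro T' hT1 h0
      unfold zc14
      refine sConst hs rfl (by omega) fun hs => ?_
      apply Runs.skip
      refine ⟨by omega, hs.keep, hs.mem, ?_⟩
      rw [hs.reg rfl, h0]
    unfold vCode
    refine sIte hs rfl rfl (fun h1 => ?_) (fun h1 => ?_)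
    · refine sIte hs rfl rfl (fun h2 => ?_) (fun h2 => ?_)
      · refine sIte hs rfl rfl (fun h3 => ?_) (fun h3 => ?_)
        · refine (hzero 3 (by omega) (hc3' (by omega) (by omega) (by omega))).mono ?_
          rintro s' t ⟨h4, h5⟩
          exact ⟨by omega, h5⟩
        · refine sIte hs rfl rfl (fun h4 => ?_) (fun h4 => ?_)
          · refine (hzero 5 (by omega) (hc3' (by omega) (by omega) (by omega))).mono ?_
            rintro s' t ⟨h4, h5⟩
            exact ⟨by omega, h5⟩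
          · apply Runs.skip
            refine ⟨by omega, hs.keep, hs.mem, ?_⟩
            rw [hs.reg rfl, hv1]
            exact (hc2 (by omega) (by omega) (by omega)).symm
      · have hid := hc4 (by omega) (by omega)
        rw [← hv1, ← hv2, ← hv3] at hid
        have hm : s1.mem = s.mem := by rw [hs1]; rfl
        rw [hm] at hs
        have hz := cl_le φ k (row0 q) (Vp φ k (i + 1))
        refine sAdd hs rfl rfl rfl (by omega) fun hs => ?_
        refine sLoad hs rfl (hR.row' (e := q) (f := n + 2) (by omega) (by omega)) rfl (by omega)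
          fun hs => ?_
        refine sAdd hs rfl rfl rfl (by omega) fun hs => ?_
        refine sLoad hs rfl (hR.row' (e := q) (f := n + 3) (by omega) (by omega)) rfl (by omega)
          fun hs => ?_
        refine sAdd hs rfl rfl rfl (by omega) fun hs => ?_
        refine sSub hs rfl rfl rfl (by omega) fun hs => ?_
        rw [show row q (n + 1) + row q (n + 3) - row q (n + 2) =
          2 * cl φ k (row0 q) (Vp φ k (i + 1)) by omega] at hs ⊢
        refine runs_hCode (φ := φ) hL (hs.rg.of (by repeat (first | exact trivial | refine ⟨rfl, ?_⟩))) hw h2w hz (by rw [hs.mem]; exact hR)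
          (by omega) ?_
        intro s' t ht hK hm' h14
        have hs := hs.sub hK rfl
        refine ⟨by omega, hs.keep, ?_, h14⟩
        rw [hm']
        rfl
    · refine (hzero 2 (by omega) (hc1 (by omega))).mono ?_
      rintro s' t ⟨h4, h5⟩
      exact ⟨by omega, h5⟩
  rintro s2 t2 ⟨ht2, hK2, hm2, h14⟩
  have hs := (hs.sub hK2 rfl).cons h14
  have hm2' : s2.mem = s.mem := by rw [hm2, hs1]; rfl
  rw [hm2'] at hs
  refine sStore hs rfl rfl fun hs => ?_
  refine sAdd hs rfl rfl rfl (by omega) fun hs => ?_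
  refine sStore hs rfl rfl fun hs => ?_
  refine sAdd hs rfl rfl rfl (by omega) fun hs => ?_
  refine sStore hs rfl rfl fun hs => ?_
  refine sAdd hs rfl rfl rfl (by omega) fun hs => ?_
  apply Runs.skip
  have hR2 := ((hR.storeRow hL (i := q) (f := n + 1) (by omega)
    (cl φ k (row0 q) (Vp φ k (i + 1))) rfl).storeRow hL (i := q) (f := n + 2) (by omega) 0
      rfl).storeRow hL (i := q) (f := n + 3) (by omega) 0 rfl
  refine hQ _ _ _ (by omega) hs.keep ?_ (by rw [hs.mem]; exact hR2) ⟨?_, ?_, ?_⟩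
  · rw [hs.reg rfl]; ring
  · intro e he f hf
    rw [upd_cell _ _ (by omega), upd_cell _ _ (by omega), upd_cell _ _ (by omega)]
    exact hB.dg e he f hf
  · intro e he heN
    by_cases h1 : e = q
    · subst h1
      refine ⟨?_, ?_, ?_⟩
      · rw [upd_cell _ _ (by omega), upd_cell _ _ (by omega), upd_self]
      · rw [upd_cell _ _ (by omega), upd_self]
      · rw [upd_self]
    · rw [upd_row _ _ _ h1, upd_row _ _ _ h1, upd_row _ _ _ h1]
      exact hB.done e (by omega) heN
  · intro e he heN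
    rw [upd_row _ _ _ (by omega), upd_row _ _ _ (by omega), upd_row _ _ _ (by omega)]
    exact hB.todo e (by omega) heN

end

end Pool.Agent.H624R2.Lin
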