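import Pool.Agent.H624R2.Lin3

/-!
The loop over the variables, and the insertion of the new rows.
-/

namespace Pool.Agent.H624R2.Lin

open Finset Pool.Agent.H588R2

variable {n m : ℕ}

theorem Tabs.congr {φ : CNF n m} {R S k N : ℕ} {tab : ℕ → ℕ} {row row' : ℕ → ℕ → ℕ}
    (h : Tabs φ R S k N tab row) (he : ∀ e < N, ∀ v < n, row' e v = row e v) :
    Tabs φ R S k N tab row' := by
  refine ⟨h.tb.congr he, fun e h1 => ?_, fun c h1 h2 => ?_⟩
  · rw [cod_congr (he e h1)]; exact h.tab1 e h1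
  · obtain ⟨e, h3, h4⟩ := h.tab2 c h1 h2
    exact ⟨e, h3, by rw [cod_congr (he e h3)]; exact h4⟩

/-- State of the loop over the variables. -/
structure II (φ : CNF n m) (k i N : ℕ) (row0 row : ℕ → ℕ → ℕ) : Prop where
  dg : ∀ e < N, ∀ f < n + 1, row e f = row0 e f
  val : ∀ e < N, row e (n + 1) = cl φ k (row0 e) (Vp φ k i) ∧ row e (n + 2) = 0 ∧
    row e (n + 3) = 0

/-- Body of the loop over the variables. -/
def iCode : Cmd := .seq (.op (.add 11 9 10)) (.seq (.op (.load 28 11))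
  (.ite 25 28 (.seq (.op (.add 7 5 25)) (.seq (.loop 7 6 aCode)
    (.seq (.op (.add 7 5 25)) (.seq (.loop 7 6 bCode) .skip)))) .skip))

section
variable {φ : CNF n m} {T R S : ℕ} {tab : ℕ → ℕ} {row row0 : ℕ → ℕ → ℕ} {w : ℕ} {s : St}
  {Q : St → ℕ → Prop}

theorem runs_iCode (hL : Lay n m T R S) {N i k : ℕ} (hk : k < m) (hi : i < n)
    (hl : Rg s ((10, i) :: (6, R + N * S) :: (8, k) :: (9, k * n) :: cs n m T R S))
    (hw : 3 < w) (hmw : m < 2 ^ w) (h2w : 4 * 2 ^ n < 2 ^ w)
    (hR : Rep φ T R S tab row s.mem) (hb : R + N * S + S < 2 ^ w)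
    (hT : Tabs φ R S k N tab row0) (hI : II φ k i N row0 row)
    (hQ : ∀ s' t row', t ≤ N * (k * (n * 22 + 20) + n * 22 + 84) + 10 →
      Keep [7, 11, 12, 13, 14, 15, 16, 17, 18, 19, 28] s s' →
      Rep φ T R S tab row' s'.mem → II φ k (i + 1) N row0 row' → Q s' t) :
    Runs w iCode s Q := by
  obtain ⟨hT', hR', hS⟩ := id hL
  have hw4 : 2 ^ 4 ≤ 2 ^ w := Nat.pow_le_pow_right (by norm_num) hw
  have h4n : 0 < 4 ^ n := by positivity
  have hkn := inp_lt hk hi
  have hel := ent_lt φ k i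
  have hT2 : Tabs φ R S k N tab row := hT.congr (fun e he v hv => hI.dg e he v (by omega))
  have hrr : ∀ e < N, ∀ v < n, row e v = row0 e v := fun e he v hv => hI.dg e he v (by omega)
  have hv2 : ∀ e < N, row e (n + 1) = cl φ k (row e) (Vp φ k i) := by
    intro e he
    rw [(hI.val e he).1]
    exact (cl_congr (hrr e he) _).symm
  have hs := Sy.start (K := [7, 11, 12, 13, 14, 15, 16, 17, 18, 19, 28]) hl
  unfold iCode
  refine sAdd hs rfl rfl rfl (by omega) fun hs => ?_
  refine sLoad hs rfl (hR.inp' hk hi rfl) rfl (by omega) fun hs => ?_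
  refine sIte hs rfl rfl (fun h1 => ?_) (fun h1 => ?_)
  · refine sAdd hs rfl rfl rfl (by omega) fun hs => ?_
    obtain ⟨s1, hs1⟩ : ∃ s1, s1 = (((s.set 11 (k * n + i)).set 28 (φ.ent k i)).set 7 (R + 0)) :=
      ⟨_, rfl⟩
    rw [← hs1] at hs ⊢
    have hA0 : AI φ k i (φ.ent k i) N row 0 row := by
      refine ⟨fun _ _ _ _ => rfl, fun e he => ?_, fun e he => ?_⟩
      · rw [Bs_zero, (hI.val e he).2.1]
      · rw [Bs_zero, (hI.val e he).2.2]
    refine sCall (P := fun s' t => t ≤ N * (k * (n * 22 + 20) + n * 12 + 42) + 2 ∧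
      Keep [7, 11, 12, 13, 14, 15, 16, 17, 18, 19] s1 s' ∧
      ∃ row', Rep φ T R S tab row' s'.mem ∧ AI φ k i (φ.ent k i) N row N row') ?_ ?_
    · refine rPtr (N := N) (R := R) (S := S) (Tm := k * (n * 22 + 20) + n * 12 + 40)
        [7, 11, 12, 13, 14, 15, 16, 17, 18, 19]
        (hs.rg.of (l := (6, R + N * S) :: (8, k) :: (10, i) :: (28, φ.ent k i) ::
          cs n m T R S) (by repeat (first | exact trivial | refine ⟨rfl, ?_⟩))) rfl rfl (by rw [hs.reg rfl]; rfl) (by omega)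
        (fun q s' => ∃ row', Rep φ T R S tab row' s'.mem ∧ AI φ k i (φ.ent k i) N row q row')
        ⟨row, by rw [hs.mem]; exact hR, hA0⟩ ?_ ?_
      · rintro q s' hq hl' ⟨row1, hR1, hA1⟩
        refine runs_aCode (φ := φ) hL hk hi hq (by omega) (hl'.of (by repeat (first | exact trivial | refine ⟨rfl, ?_⟩))) hw hmw h2w hR1 hb hT2
          hv2 hA1 ?_
        intro s'' t row2 ht hK h7 hR2 hA2
        exact ⟨ht, hK, h7, row2, hR2, hA2⟩
      · rintro s' t ht hK ⟨row1, hR1, hA1⟩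
        exact ⟨by omega, hK, row1, hR1, hA1⟩
    rintro s2 t2 ⟨ht2, hK2, row1, hR1, hA1⟩
    have hs := hs.sub hK2 rfl
    refine sAdd hs rfl rfl rfl (by omega) fun hs => ?_
    obtain ⟨s3, hs3⟩ : ∃ s3, s3 = (s2.set 7 (R + 0)) := ⟨_, rfl⟩
    rw [← hs3] at hs ⊢
    refine sCall (P := fun s' t => t ≤ N * (n * 10 + 42) + 2 ∧
      Keep [7, 11, 12, 13, 14, 15, 16, 17, 18, 19] s3 s' ∧
      ∃ row', Rep φ T R S tab row' s'.mem ∧ BI φ k i (φ.ent k i) N row N row') ?_ ?_
    · refine rPtr (N := N) (R := R) (S := S) (Tm := n * 10 + 40)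
        [7, 11, 12, 13, 14, 15, 16, 17, 18, 19]
        (hs.rg.of (l := (6, R + N * S) :: (10, i) :: (28, φ.ent k i) ::
          cs n m T R S) (by repeat (first | exact trivial | refine ⟨rfl, ?_⟩))) rfl rfl (by rw [hs.reg rfl]; rfl) (by omega)
        (fun q s' => ∃ row', Rep φ T R S tab row' s'.mem ∧ BI φ k i (φ.ent k i) N row q row')
        ⟨row1, by rw [hs.mem]; exact hR1, hA1.toBI hv2⟩ ?_ ?_
      · rintro q s' hq hl' ⟨row2, hR2, hB2⟩
        refine runs_bCode (φ := φ) hL hi hq (by omega) hel rfl (hl'.of (by repeat (first | exact trivial | refine ⟨rfl, ?_⟩))) hw h2w hR2 hb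
          hT2.tb hB2 ?_
        intro s'' t row3 ht hK h7 hR3 hB3
        exact ⟨ht, hK, h7, row3, hR3, hB3⟩
      · rintro s' t ht hK ⟨row2, hR2, hB2⟩
        exact ⟨by omega, hK, row2, hR2, hB2⟩
    rintro s4 t4 ⟨ht4, hK4, row2, hR2, hB2⟩
    have hs := hs.sub hK4 rfl
    apply Runs.skip
    refine hQ _ _ row2 ?_ hs.keep hR2 ⟨fun e he f hf => ?_, fun e he => ?_⟩
    · have e1 : N * (k * (n * 22 + 20) + n * 22 + 84) =
          N * (k * (n * 22 + 20) + n * 12 + 42) + N * (n * 10 + 42) := by ring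
      omega
    · rw [hB2.dg e he f hf, hI.dg e he f hf]
    · have := hB2.done e he he
      rw [cl_congr (hrr e he)] at this
      exact this
  · apply Runs.skip
    refine hQ _ _ row (by omega) hs.keep (by rw [hs.mem]; exact hR) ⟨hI.dg, fun e he => ?_⟩
    rw [cl_congr' (Vp_skip hi (by omega))]
    exact hI.val e he

/-! ### Insertion of the new rows -/

/-- State of the loop that inserts the new rows. -/
structure CI (φ : CNF n m) (R S k N : ℕ) (row0 : ℕ → ℕ → ℕ) (q N' : ℕ) (tab : ℕ → ℕ)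
    (row : ℕ → ℕ → ℕ) : Prop where
  le : N ≤ N'
  dg : ∀ e < N, ∀ v < n, row e v = row0 e v
  done : ∀ e < q, e < N → row e n = cl φ (k + 1) (row0 e) Al ∧
    row e (n + 1) = cl φ (k + 1) (row0 e) Al
  todo : ∀ e, q ≤ e → e < N → row e n = cl φ k (row0 e) Al ∧
    row e (n + 1) = cl φ k (row0 e) (Vp φ k n)
  zero : ∀ e < N', row e (n + 2) = 0 ∧ row e (n + 3) = 0
  new : ∀ e, N ≤ e → e < N' → (∃ e0 < q, e0 < N ∧ Hit φ k (row0 e0) ∧
    ∀ v < n, row e v = mt (row0 e0) (φ.ent k) v) ∧ row e n = cl φ (k + 1) (row e) Al ∧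
    row e (n + 1) = cl φ (k + 1) (row e) Al
  hit : ∀ e < q, e < N → Hit φ k (row0 e) → ∃ e' < N', ∀ v < n,
    row e' v = mt (row0 e) (φ.ent k) v
  tab1 : ∀ e < N', tab (cod (row e) n) = R + e * S
  tab2 : ∀ c < 4 ^ n, tab c ≠ 0 → ∃ e < N', cod (row e) n = c

theorem CI.good {k N q N' : ℕ} (h : CI φ R S k N row0 q N' tab row) (hT : Tb φ k N row0) :
    ∀ e < N', Gd φ (k + 1) (row e) := by
  intro e he
  by_cases h1 : e < N
  · exact ((hT.good e h1).congr (h.dg e h1)).mono (by omega)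
  · obtain ⟨⟨e0, h2, h3, h4, h5⟩, -⟩ := h.new e (by omega) he
    exact (mt_good (hT.good e0 h3) h4).congr h5

theorem CI.inj {k N q N' : ℕ} (h : CI φ R S k N row0 q N' tab row) (hS : 0 < S) :
    ∀ e < N', ∀ e' < N', (∀ v < n, row e v = row e' v) → e = e' := by
  intro e he e' he' h1
  have h2 := h.tab1 e he
  rw [cod_congr h1, h.tab1 e' he'] at h2
  have h3 : e' * S = e * S := by omega
  exact (Nat.eq_of_mul_eq_mul_right hS h3).symm

/-- At most `P` new rows. -/
theorem CI.le_proj {k N q N' : ℕ} (h : CI φ R S k N row0 q N' tab row) (hT : Tb φ k N row0)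
    (hS : 0 < S) (hk : k < m) : N' ≤ N + φ.numProj := by
  have h1 := live_le (φ := φ) (k := k + 1) (by omega) (row := row) (Finset.Ico N N')
    (fun e he => h.good hT e (Finset.mem_Ico.mp he).2)
    (fun e he e' he' => h.inj hS e (Finset.mem_Ico.mp he).2 e' (Finset.mem_Ico.mp he').2)
    (fun e he => by
      obtain ⟨h2, h3⟩ := Finset.mem_Ico.mp he
      obtain ⟨⟨e0, h4, h5, h6, h7⟩, -⟩ := h.new e h2 h3
      obtain ⟨a, h8, h9⟩ := id h6
      exact ⟨a, (isT_congr h7 a).mpr ((isT_mt (hT.good e0 h5) h6 a).mpr ⟨h8, h9⟩)⟩)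
  rw [Nat.card_Ico] at h1
  omega

/-- A row that is not split. -/
theorem CI.keep {k N q N' : ℕ} (h : CI φ R S k N row0 q N' tab row) (hq : q < N)
    {row' : ℕ → ℕ → ℕ}
    (hcl : cl φ (k + 1) (row0 q) Al = cl φ k (row0 q) Al)
    (hhit : Hit φ k (row0 q) → ∃ e' < N', ∀ v < n, row e' v = mt (row0 q) (φ.ent k) v)
    (h1 : ∀ e < N', e ≠ q → ∀ f < n + 4, row' e f = row e f)
    (h2 : ∀ f < n + 4, f ≠ n + 1 → row' q f = row q f)
    (h3 : row' q (n + 1) = row q n) : CI φ R S k N row0 (q + 1) N' tab row' := by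
  have hle := h.le
  have hdg : ∀ e < N', ∀ v < n, row' e v = row e v := by
    intro e he v hv
    by_cases h4 : e = q
    · rw [h4]; exact h2 v (by omega) (by omega)
    · exact h1 e he h4 v (by omega)
  refine ⟨hle, ?_, ?_, ?_, ?_, ?_, ?_, ?_, ?_⟩
  · intro e he v hv
    rw [hdg e (by omega) v hv, h.dg e he v hv]
  · intro e he heN
    by_cases h4 : e = q
    · subst h4
      have h5 := (h.todo e le_rfl heN).1
      rw [h2 n (by omega) (by omega), h3, h5, hcl]
      exact ⟨rfl, rfl⟩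
    · rw [h1 e (by omega) h4 n (by omega), h1 e (by omega) h4 (n + 1) (by omega)]
      exact h.done e (by omega) heN
  · intro e he heN
    rw [h1 e (by omega) (by omega) n (by omega), h1 e (by omega) (by omega) (n + 1) (by omega)]
    exact h.todo e (by omega) heN
  · intro e he
    by_cases h4 : e = q
    · subst h4
      rw [h2 _ (by omega) (by omega), h2 _ (by omega) (by omega)]
      exact h.zero e he
    · rw [h1 e he h4 _ (by omega), h1 e he h4 _ (by omega)]
      exact h.zero e he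
  · intro e he heN
    obtain ⟨⟨e0, h4, h5, h6, h7⟩, h8, h9⟩ := h.new e he heN
    have hne : e ≠ q := by omega
    have h10 : ∀ v < n, row' e v = row e v := hdg e heN
    refine ⟨⟨e0, by omega, h5, h6, fun v hv => by rw [h10 v hv, h7 v hv]⟩, ?_, ?_⟩
    · rw [h1 e heN hne n (by omega), cl_congr h10, h8]
    · rw [h1 e heN hne (n + 1) (by omega), cl_congr h10, h9]
  · intro e he heN hh
    by_cases h4 : e = q
    · subst h4
      obtain ⟨e', h5, h6⟩ := hhit hh
      exact ⟨e', h5, fun v hv => by rw [hdg e' h5 v hv, h6 v hv]⟩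
    · obtain ⟨e', h5, h6⟩ := h.hit e (by omega) heN hh
      exact ⟨e', h5, fun v hv => by rw [hdg e' h5 v hv, h6 v hv]⟩
  · intro e he
    rw [cod_congr (hdg e he)]
    exact h.tab1 e he
  · intro c h4 h5
    obtain ⟨e, h6, h7⟩ := h.tab2 c h4 h5
    exact ⟨e, h6, by rw [cod_congr (hdg e h6)]; exact h7⟩

/-- If the meet is in the table, it is the row itself. -/
theorem CI.same {k N q N' : ℕ} (h : CI φ R S k N row0 q N' tab row) (hT : Tb φ k N row0)
    (hq : q < N) (hh : Hit φ k (row0 q))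
    (ht : tab (cod (mt (row0 q) (φ.ent k)) n) ≠ 0) :
    sup φ (row0 q) k ∧ ∃ e' < N', ∀ v < n, row e' v = mt (row0 q) (φ.ent k) v := by
  have hg := mt_good (hT.good q hq) hh
  obtain ⟨e, he, h1⟩ := h.tab2 _ (cod_lt hg.lt) ht
  have h2 := cod_inj (h.good hT e he).lt hg.lt h1
  refine ⟨?_, e, he, h2⟩
  by_cases h3 : e < N
  · have h4 := (hT.good e h3).congr (h.dg e h3)
    exact (mt_self (hT.good q hq) hh h4 h2).2
  · exfalso
    obtain ⟨⟨e0, h4, h5, h6, h7⟩, -⟩ := h.new e (by omega) he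
    have h8 : ∀ v < n, row0 e0 v = row0 q v := by
      apply mt_inj (hT.good q hq) hh (hT.good e0 h5) h6
      intro v hv
      rw [← h7 v hv, h2 v hv]
    have := hT.inj e0 h5 q hq h8
    omega

/-- A row that is split. -/
theorem CI.split {k N q N' : ℕ} (h : CI φ R S k N row0 q N' tab row) (hT : Tb φ k N row0)
    (hq : q < N) (hh : Hit φ k (row0 q)) (hR0 : 0 < R)
    (ht : tab (cod (mt (row0 q) (φ.ent k)) n) = 0)
    {row' : ℕ → ℕ → ℕ}
    (h1 : ∀ e < N', e ≠ q → ∀ f < n + 4, row' e f = row e f)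
    (h2 : ∀ f < n + 4, f ≠ n → f ≠ n + 1 → row' q f = row q f)
    (h3 : row' q n = row q n - row q (n + 1)) (h3' : row' q (n + 1) = row q n - row q (n + 1))
    (h4 : ∀ v < n, row' N' v = mt (row0 q) (φ.ent k) v)
    (h5 : row' N' n = row q (n + 1)) (h6 : row' N' (n + 1) = row q (n + 1))
    (h7 : row' N' (n + 2) = 0) (h8 : row' N' (n + 3) = 0) :
    CI φ R S k N row0 (q + 1) (N' + 1)
      (Function.update tab (cod (mt (row0 q) (φ.ent k)) n) (R + N' * S)) row' := by
  have hle := h.le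
  have hdg : ∀ e < N', ∀ v < n, row' e v = row e v := by
    intro e he v hv
    by_cases h4 : e = q
    · rw [h4]; exact h2 v (by omega) (by omega) (by omega)
    · exact h1 e he h4 v (by omega)
  obtain ⟨ht1, ht2⟩ := h.todo q le_rfl hq
  have hns : ¬ sup φ (row0 q) k := by
    intro hsup
    have h9 := h.tab1 q (by omega)
    have h10 : cod (mt (row0 q) (φ.ent k)) n = cod (row q) n :=
      cod_congr (fun v hv => by rw [mt_of_sup hsup hv, h.dg q hq v hv])
    rw [← h10, ht] at h9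
    omega
  have hcl1 := cl_old hns
  have hcl2 := cl_mt (hT.good q hq) hh
  have hcn : cl φ (k + 1) (row' N') Al = row q (n + 1) := by
    rw [cl_congr h4, hcl2, ht2]
  refine ⟨by omega, ?_, ?_, ?_, ?_, ?_, ?_, ?_, ?_⟩
  · intro e he v hv
    rw [hdg e (by omega) v hv, h.dg e he v hv]
  · intro e he heN
    by_cases h9 : e = q
    · subst h9
      rw [h3, h3', hcl1, ht1, ht2]
      exact ⟨rfl, rfl⟩
    · rw [h1 e (by omega) h9 n (by omega), h1 e (by omega) h9 (n + 1) (by omega)]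
      exact h.done e (by omega) heN
  · intro e he heN
    rw [h1 e (by omega) (by omega) n (by omega), h1 e (by omega) (by omega) (n + 1) (by omega)]
    exact h.todo e (by omega) heN
  · intro e he
    by_cases h10 : e = N'
    · rw [h10]; exact ⟨h7, h8⟩
    by_cases h9 : e = q
    · subst h9
      rw [h2 _ (by omega) (by omega) (by omega), h2 _ (by omega) (by omega) (by omega)]
      exact h.zero e (by omega)
    · rw [h1 e (by omega) h9 _ (by omega), h1 e (by omega) h9 _ (by omega)]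
      exact h.zero e (by omega)
  · intro e he heN
    by_cases h10 : e = N'
    · rw [h10, hcn]
      exact ⟨⟨q, by omega, hq, hh, h4⟩, h5, h6⟩
    obtain ⟨⟨e0, h11, h12, h13, h14⟩, h15, h16⟩ := h.new e he (by omega)
    have hne : e ≠ q := by omega
    have h17 : ∀ v < n, row' e v = row e v := hdg e (by omega)
    refine ⟨⟨e0, by omega, h12, h13, fun v hv => by rw [h17 v hv, h14 v hv]⟩, ?_, ?_⟩
    · rw [h1 e (by omega) hne n (by omega), cl_congr h17, h15]
    · rw [h1 e (by omega) hne (n + 1) (by omega), cl_congr h17, h16]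
  · intro e he heN hh'
    by_cases h9 : e = q
    · subst h9
      exact ⟨N', by omega, h4⟩
    · obtain ⟨e', h11, h12⟩ := h.hit e (by omega) heN hh'
      exact ⟨e', by omega, fun v hv => by rw [hdg e' h11 v hv, h12 v hv]⟩
  · intro e he
    by_cases h10 : e = N'
    · rw [h10, cod_congr h4, Function.update_self]
    · have h11 : e < N' := by omega
      have h12 := h.tab1 e h11
      rw [cod_congr (hdg e h11), Function.update_of_ne]
      · exact h12
      · intro h13
        rw [h13, ht] at h12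
        omega
  · intro c h9 h10
    by_cases h11 : c = cod (mt (row0 q) (φ.ent k)) n
    · exact ⟨N', by omega, by rw [h11]; exact cod_congr h4⟩
    · rw [Function.update_of_ne h11] at h10
      obtain ⟨e, h12, h13⟩ := h.tab2 c h9 h10
      exact ⟨e, by omega, by rw [cod_congr (hdg e h12)]; exact h13⟩

theorem mt_max {k : ℕ} {r : ℕ → ℕ} (hg : Gd φ k r) (hh : Hit φ k r) {v : ℕ} (hv : v < n) :
    mt r (φ.ent k) v = if r v < φ.ent k v then φ.ent k v else r v := by
  obtain ⟨a, h1, h2⟩ := hh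
  have h3 := in_cube hg h2
  by_cases h0 : φ.ent k v = 0
  · rw [if_neg (by omega)]
    unfold mt
    split_ifs <;> omega
  · have h4 := mt_eq_right h3 h1 hv h0
    rw [h4]
    split_ifs with h5
    · rfl
    · unfold mt at h4
      split_ifs at h4 with h6
      · omega
      · exact h4.symm

/-- Meet of the row at `r_7` and the clause at `r_9`, stored at `r_6`; its code. -/
def mCode : Cmd := FOR 17 0 (.seq (.op (.add 18 7 17)) (.seq (.op (.load 18 18))
  (.seq (.op (.add 19 9 17)) (.seq (.op (.load 19 19))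
    (.seq (.ite 18 19 .skip (.seq (.op (.add 19 18 25)) .skip))
      (.seq (.op (.mul 13 13 21)) (.seq (.op (.add 13 13 19)) (.seq (.op (.add 20 6 17))
        (.seq (.op (.store 20 19)) .skip)))))))))

theorem runs_mCode (hL : Lay n m T R S) {q N' k : ℕ} (hk : k < m) (hq : q < N')
    (hl : Rg s ((6, R + N' * S) :: (7, R + q * S) :: (9, k * n) :: cs n m T R S))
    (h13 : s.reg 13 = 0) (hw : 3 < w) {r : ℕ → ℕ} (hr : ∀ v < n, row q v = r v)
    (hg : Gd φ k r) (hh : Hit φ k r)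
    (hR : Rep φ T R S tab row s.mem) (hb : R + N' * S + S < 2 ^ w)
    (hQ : ∀ s' t, t ≤ n * 15 + 3 → Keep [17, 13, 18, 19, 20] s s' →
      s'.reg 13 = cod (mt r (φ.ent k)) n →
      Rep φ T R S tab (fill row N' (mt r (φ.ent k)) n) s'.mem → Q s' t) :
    Runs w mCode s Q := by
  obtain ⟨hT', hR', hS⟩ := id hL
  have hw4 : 2 ^ 4 ≤ 2 ^ w := Nat.pow_le_pow_right (by norm_num) hw
  have h4n : 0 < 4 ^ n := by positivity
  have hqS := row_le (S := S) hq
  have hlm := (mt_good hg hh).lt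
  refine rFor (N := n) (T := 12) [13, 18, 19, 20] hl rfl rfl rfl rfl rfl (by omega)
    (fun v s' => s'.reg 13 = cod (mt r (φ.ent k)) v ∧
      Rep φ T R S tab (fill row N' (mt r (φ.ent k)) v) s'.mem)
    (fun q s x h => by simpa [reg_set] using h) ⟨h13, by rw [fill_zero]; exact hR⟩ ?_ ?_
  · rintro v s' hv hl' ⟨h1, hR1⟩
    have hs := Sy.start (K := [13, 18, 19, 20]) (hl'.cons h1)
    have hkv := inp_lt hk hv
    have hel := ent_lt φ k v
    have hrl := hg.lt v hv
    have hml := hlm v hv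
    have hc : cod (mt r (φ.ent k)) v < 4 ^ v := cod_lt (fun u hu => hlm u (by omega))
    have h4 : 4 ^ (v + 1) ≤ 4 ^ n := Nat.pow_le_pow_right (by norm_num) hv
    rw [pow_succ] at h4
    refine sAdd hs rfl rfl rfl (by omega) fun hs => ?_
    refine sLoad (y := r v) hs rfl ?_ rfl (by omega) fun hs => ?_
    · rw [hR1.row' (e := q) (f := v) (by omega) rfl, fill_ne _ _ _ (by omega), hr v hv]
    refine sAdd hs rfl rfl rfl (by omega) fun hs => ?_
    refine sLoad hs rfl (hR1.inp' hk hv rfl) rfl (by omega) fun hs => ?_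
    obtain ⟨s1, hs1⟩ : ∃ s1, s1 = ((((s'.set 18 (R + q * S + v)).set 18 (r v)).set 19
      (k * n + v)).set 19 (φ.ent k v)) := ⟨_, rfl⟩
    rw [← hs1] at hs ⊢
    refine sCall (P := fun s2 t => t ≤ 3 ∧ Keep [19] s1 s2 ∧ s2.mem = s1.mem ∧
      s2.reg 19 = mt r (φ.ent k) v) (sIte hs rfl rfl (fun h2 => ?_) (fun h2 => ?_)) ?_
    · apply Runs.skip
      refine ⟨by omega, Keep.refl _ _, rfl, ?_⟩
      rw [hs.reg rfl, mt_max hg hh hv, if_pos h2]
    · have hs := Sy.start (K := [19]) hs.rg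
      refine sAdd hs rfl rfl rfl (by omega) fun hs => ?_
      apply Runs.skip
      refine ⟨by omega, hs.keep, hs.mem, ?_⟩
      rw [hs.reg rfl, mt_max hg hh hv, if_neg h2]
      rfl
    rintro s2 t2 ⟨ht2, hK2, hm2, h19⟩
    have hm2' : s2.mem = s'.mem := by rw [hm2, hs1]; rfl
    have hs := (hs.sub hK2 rfl).cons h19
    rw [hm2'] at hs
    refine sMul hs rfl rfl rfl (by omega) fun hs => ?_
    refine sAdd hs rfl rfl rfl (by omega) fun hs => ?_
    refine sAdd hs rfl rfl rfl (by omega) fun hs => ?_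
    refine sStore hs rfl rfl fun hs => ?_
    apply Runs.skip
    refine ⟨by omega, hs.keep, ?_, ?_⟩
    · rw [hs.reg rfl]; rfl
    · rw [hs.mem, ← fill_succ]
      exact hR1.storeRow hL (by omega) _ rfl
  · rintro s' t ht hK ⟨h1, hR1⟩
    exact hQ s' t (by omega) hK h1 hR1

end

end Pool.Agent.H624R2.Lin
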