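import Pool.Agent.H624R2.Lin4

/-!
The loop over the clauses, initialisation, and the complete program.
-/

namespace Pool.Agent.H624R2.Lin

open Finset Pool.Agent.H588R2

variable {n m : ℕ}

def c2Code : Cmd := .seq (.op (.store 11 6)) (.seq (.op (.add 16 6 0))
  (.seq (.op (.store 16 12)) (.seq (.op (.add 16 6 30)) (.seq (.op (.store 16 12))
    (.seq (.op (.add 16 6 31)) (.seq (.op (.store 16 25)) (.seq (.op (.add 16 6 32))
      (.seq (.op (.store 16 25)) (.seq (.op (.add 16 7 0)) (.seq (.op (.load 15 16))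
        (.seq (.op (.sub 15 15 12)) (.seq (.op (.store 16 15)) (.seq (.op (.add 6 6 4))
          .skip)))))))))))))

def c1Code : Cmd := .seq (.op (.const 13 0)) (.seq mCode (.seq (.op (.add 11 27 13))
  (.seq (.op (.load 15 11)) (.ite 25 15 .skip c2Code))))

/-- Body of the loop that inserts new rows. -/
def cCode : Cmd := .seq (.op (.add 11 7 30)) (.seq (.op (.load 12 11))
  (.seq (.ite 25 12 c1Code .skip) (.seq (.op (.add 16 7 0)) (.seq (.op (.load 15 16))
    (.seq (.op (.add 16 7 30)) (.seq (.op (.store 16 15)) (.seq (.op (.add 7 7 4)) .skip)))))))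

section
variable {φ : CNF n m} {T R S : ℕ} {tab : ℕ → ℕ} {row row0 : ℕ → ℕ → ℕ} {w : ℕ} {s : St}
  {Q : St → ℕ → Prop}

theorem CI.congr {k N q N' : ℕ} (h : CI φ R S k N row0 q N' tab row)
    {row' : ℕ → ℕ → ℕ} (he : ∀ e < N', ∀ f < n + 4, row' e f = row e f) :
    CI φ R S k N row0 q N' tab row' := by
  have hle := h.le
  have hdg : ∀ e < N', ∀ v < n, row' e v = row e v := fun e h1 v h2 => he e h1 v (by omega)
  refine ⟨hle, ?_, ?_, ?_, ?_, ?_, ?_, ?_, ?_⟩
  · intro e he' v hv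
    rw [hdg e (by omega) v hv, h.dg e he' v hv]
  · intro e h1 h2
    rw [he e (by omega) n (by omega), he e (by omega) (n + 1) (by omega)]
    exact h.done e h1 h2
  · intro e h1 h2
    rw [he e (by omega) n (by omega), he e (by omega) (n + 1) (by omega)]
    exact h.todo e h1 h2
  · intro e h1
    rw [he e h1 _ (by omega), he e h1 _ (by omega)]
    exact h.zero e h1
  · intro e h1 h2
    obtain ⟨⟨e0, h3, h4, h5, h6⟩, h7, h8⟩ := h.new e h1 h2
    refine ⟨⟨e0, h3, h4, h5, fun v hv => by rw [hdg e h2 v hv, h6 v hv]⟩, ?_, ?_⟩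
    · rw [he e h2 n (by omega), cl_congr (hdg e h2), h7]
    · rw [he e h2 (n + 1) (by omega), cl_congr (hdg e h2), h8]
  · intro e h1 h2 h3
    obtain ⟨e', h4, h5⟩ := h.hit e h1 h2 h3
    exact ⟨e', h4, fun v hv => by rw [hdg e' h4 v hv, h5 v hv]⟩
  · intro e h1
    rw [cod_congr (hdg e h1)]
    exact h.tab1 e h1
  · intro c h4 h5
    obtain ⟨e, h6, h7⟩ := h.tab2 c h4 h5
    exact ⟨e, h6, by rw [cod_congr (hdg e h6)]; exact h7⟩

theorem runs_cCode (hL : Lay n m T R S) {q N N' k : ℕ} (hk : k < m) (hq : q < N)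
    (hl : Rg s ((7, R + q * S) :: (6, R + N' * S) :: (9, k * n) :: cs n m T R S))
    (hw : 3 < w) (h2w : 4 * 2 ^ n < 2 ^ w)
    (hR : Rep φ T R S tab row s.mem) (hb : R + (N + φ.numProj) * S + S < 2 ^ w)
    (hT : Tb φ k N row0) (hC : CI φ R S k N row0 q N' tab row)
    (hQ : ∀ s' t N2 tab2 row2, t ≤ n * 15 + 40 →
      Keep [7, 6, 11, 12, 13, 15, 16, 17, 18, 19, 20] s s' →
      s'.reg 7 = R + (q + 1) * S → s'.reg 6 = R + N2 * S → Rep φ T R S tab2 row2 s'.mem →
      CI φ R S k N row0 (q + 1) N2 tab2 row2 → Q s' t) :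
    Runs w cCode s Q := by
  obtain ⟨hT', hR', hS⟩ := id hL
  have hw4 : 2 ^ 4 ≤ 2 ^ w := Nat.pow_le_pow_right (by norm_num) hw
  have h4n : 0 < 4 ^ n := by positivity
  have h2n : 0 < 2 ^ n := by positivity
  have hle := hC.le
  have hNP := hC.le_proj hT (by omega) hk
  have hqS := row_le (S := S) (show q < N' by omega)
  have hNS : N' * S ≤ (N + φ.numProj) * S := Nat.mul_le_mul_right _ hNP
  have hg := hT.good q hq
  have hdq : ∀ v < n, row q v = row0 q v := hC.dg q hq
  obtain ⟨ht1, ht2⟩ := hC.todo q le_rfl hq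
  have hb0 : row q n ≤ 2 ^ n := by rw [ht1]; exact cl_le _ _ _ _
  have hb1 : row q (n + 1) ≤ 2 ^ n := by rw [ht2]; exact cl_le _ _ _ _
  have hs := Sy.start (K := [7, 6, 11, 12, 13, 15, 16, 17, 18, 19, 20]) hl
  unfold cCode
  refine sAdd hs rfl rfl rfl (by omega) fun hs => ?_
  refine sLoad hs rfl (hR.row' (e := q) (f := n + 1) (by omega) (by omega)) rfl (by omega)
    fun hs => ?_
  obtain ⟨s1, hs1⟩ : ∃ s1, s1 = ((s.set 11 (R + q * S + (n + 1))).set 12 (row q (n + 1))) :=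
    ⟨_, rfl⟩
  rw [← hs1] at hs ⊢
  refine sCall (P := fun s' t => t ≤ n * 15 + 25 ∧
      Keep [6, 11, 13, 15, 16, 17, 18, 19, 20] s1 s' ∧ ∃ N2 tab2 row2, s'.reg 6 = R + N2 * S ∧
        Rep φ T R S tab2 row2 s'.mem ∧ row2 q n ≤ 2 ^ n ∧
        CI φ R S k N row0 (q + 1) N2 tab2 (upd row2 q (n + 1) (row2 q n)))
    (sIte hs rfl rfl (fun h1 => ?_) (fun h1 => ?_)) ?_
  · have hs := Sy.start (K := [6, 11, 13, 15, 16, 17, 18, 19, 20]) hs.rg
    have hm1 : s1.mem = s.mem := by rw [hs1]; rfl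
    rw [hm1] at hs
    have hh : Hit φ k (row0 q) := by rw [hit_iff, ← ht2]; exact h1
    unfold c1Code
    refine sConst hs rfl (by omega) fun hs => ?_
    refine sCall (runs_mCode (φ := φ) (row := row) (tab := tab) (q := q) (N' := N') (k := k)
      (r := row0 q) (Q := fun s' t => t ≤ n * 15 + 3 ∧
      Keep [17, 13, 18, 19, 20] (s1.set 13 0) s' ∧
      s'.reg 13 = cod (mt (row0 q) (φ.ent k)) n ∧
      Rep φ T R S tab (fill row N' (mt (row0 q) (φ.ent k)) n) s'.mem) hL hk (by omega)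
        (hs.rg.of (by repeat (first | exact trivial | refine ⟨rfl, ?_⟩))) (hs.reg rfl) hw hdq hg hh (by rw [hs.mem]; exact hR) (by omega)
        (fun s' t h1 h2 h3 h4 => ⟨h1, h2, h3, h4⟩)) ?_
    rintro s2 t2 ⟨ht2', hK2, h13, hR2⟩
    have hs := (hs.sub hK2 rfl).cons h13
    have hcod : cod (mt (row0 q) (φ.ent k)) n < 4 ^ n := cod_lt (mt_good hg hh).lt
    refine sAdd hs rfl rfl rfl (by omega) fun hs => ?_
    have hsmall : tab (cod (mt (row0 q) (φ.ent k)) n) < 2 ^ w := by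
      by_cases h0 : tab (cod (mt (row0 q) (φ.ent k)) n) = 0
      · omega
      · obtain ⟨e, he, h2⟩ := hC.tab2 _ hcod h0
        rw [← h2, hC.tab1 e he]
        have := row_le (S := S) he
        omega
    refine sLoad hs rfl (hR2.tb _ hcod) rfl hsmall fun hs => ?_
    refine sIte hs rfl rfl (fun h2 => ?_) (fun h2 => ?_)
    · apply Runs.skip
      obtain ⟨h3, h4⟩ := hC.same hT hq hh (by omega)
      refine ⟨by omega, hs.keep, N', tab, fill row N' (mt (row0 q) (φ.ent k)) n, hs.reg rfl,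
        by rw [hs.mem]; exact hR2, ?_, ?_⟩
      · rw [fill_ne _ _ _ (by omega)]; exact hb0
      · refine hC.keep hq (cl_sup hg h3) (fun _ => h4) ?_ ?_ ?_
        · intro e he hne f _
          rw [upd_row _ _ _ hne, fill_ne _ _ _ (by omega)]
        · intro f _ hne
          rw [upd_cell _ _ hne, fill_ne _ _ _ (by omega)]
        · rw [upd_self, fill_ne _ _ _ (by omega)]
    · unfold c2Code
      have h0 : tab (cod (mt (row0 q) (φ.ent k)) n) = 0 := by omega
      refine sStore hs rfl rfl fun hs => ?_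
      refine sAdd hs rfl rfl rfl (by omega) fun hs => ?_
      refine sStore hs rfl rfl fun hs => ?_
      refine sAdd hs rfl rfl rfl (by omega) fun hs => ?_
      refine sStore hs rfl rfl fun hs => ?_
      refine sAdd hs rfl rfl rfl (by omega) fun hs => ?_
      refine sStore hs rfl rfl fun hs => ?_
      refine sAdd hs rfl rfl rfl (by omega) fun hs => ?_
      refine sStore hs rfl rfl fun hs => ?_
      have hR3 := ((((hR2.storeTab hL hcod (R + N' * S) rfl).storeRow hL (i := N') (f := n)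
        (by omega) (row q (n + 1)) rfl).storeRow hL (i := N') (f := n + 1) (by omega)
          (row q (n + 1)) rfl).storeRow hL (i := N') (f := n + 2) (by omega) 0 rfl).storeRow hL
            (i := N') (f := n + 3) (by omega) 0 rfl
      have hrq : upd (upd (upd (upd (fill row N' (mt (row0 q) (φ.ent k)) n) N' n
          (row q (n + 1))) N' (n + 1) (row q (n + 1))) N' (n + 2) 0) N' (n + 3) 0 q = row q := by
        rw [upd_row _ _ _ (by omega), upd_row _ _ _ (by omega), upd_row _ _ _ (by omega),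
          upd_row _ _ _ (by omega), fill_ne _ _ _ (by omega)]
      refine sAdd hs rfl rfl rfl (by omega) fun hs => ?_
      refine sLoad (y := row q n) hs rfl ?_ rfl (by omega) fun hs => ?_
      · rw [hR3.row' (e := q) (f := n) (by omega) rfl, hrq]
      refine sSub hs rfl rfl rfl (by omega) fun hs => ?_
      refine sStore hs rfl rfl fun hs => ?_
      refine sAdd hs rfl rfl rfl (by omega) fun hs => ?_
      apply Runs.skip
      have hR4 := hR3.storeRow hL (i := q) (f := n) (by omega) (row q n - row q (n + 1)) rfl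
      refine ⟨by omega, hs.keep, N' + 1, _, _, ?_, by rw [hs.mem]; exact hR4, ?_, ?_⟩
      · rw [hs.reg rfl]; ring
      · rw [upd_self]; omega
      · refine hC.split hT hq hh (by omega) h0 ?_ ?_ ?_ ?_ ?_ ?_ ?_ ?_ ?_
        · intro e he hne f _
          rw [upd_row _ _ _ hne, upd_row _ _ _ hne, upd_row _ _ _ (by omega),
            upd_row _ _ _ (by omega), upd_row _ _ _ (by omega), upd_row _ _ _ (by omega),
            fill_ne _ _ _ (by omega)]
        · intro f _ h3 h4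
          rw [upd_cell _ _ h4, upd_cell _ _ h3, hrq]
        · rw [upd_cell _ _ (by omega), upd_self]
        · rw [upd_self, upd_self]
        · intro v hv
          rw [upd_row _ _ _ (by omega), upd_row _ _ _ (by omega), upd_cell _ _ (by omega),
            upd_cell _ _ (by omega), upd_cell _ _ (by omega), upd_cell _ _ (by omega),
            fill_lt _ _ hv]
        · rw [upd_row _ _ _ (by omega), upd_row _ _ _ (by omega), upd_cell _ _ (by omega),
            upd_cell _ _ (by omega), upd_cell _ _ (by omega), upd_self]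
        · rw [upd_row _ _ _ (by omega), upd_row _ _ _ (by omega), upd_cell _ _ (by omega),
            upd_cell _ _ (by omega), upd_self]
        · rw [upd_row _ _ _ (by omega), upd_row _ _ _ (by omega), upd_cell _ _ (by omega),
            upd_self]
        · rw [upd_row _ _ _ (by omega), upd_row _ _ _ (by omega), upd_self]
  · apply Runs.skip
    have hnh : ¬ Hit φ k (row0 q) := by rw [hit_iff, ← ht2]; omega
    have hm1 : s1.mem = s.mem := by rw [hs1]; rfl
    refine ⟨by omega, Keep.refl _ _, N', tab, row, hs.reg rfl, by rw [hm1]; exact hR, hb0, ?_⟩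
    refine hC.keep hq (cl_miss hg hnh) (fun h => absurd h hnh) ?_ ?_ ?_
    · intro e he hne f _
      rw [upd_row _ _ _ hne]
    · intro f _ hne
      rw [upd_cell _ _ hne]
    · rw [upd_self]
  rintro s3 t3 ⟨ht3, hK3, N2, tab2, row2, h6, hR3, hb3, hC3⟩
  have hs := (hs.sub hK3 rfl).cons h6
  refine sAdd hs rfl rfl rfl (by omega) fun hs => ?_
  refine sLoad (y := row2 q n) hs rfl (hR3.row' (by omega) rfl) rfl (by omega) fun hs => ?_
  refine sAdd hs rfl rfl rfl (by omega) fun hs => ?_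
  refine sStore hs rfl rfl fun hs => ?_
  refine sAdd hs rfl rfl rfl (by omega) fun hs => ?_
  apply Runs.skip
  refine hQ _ _ N2 tab2 _ (by omega) hs.keep ?_ ?_ ?_ hC3
  · rw [hs.reg rfl]; ring
  · rw [hs.reg rfl]
  · rw [hs.mem]
    exact hR3.storeRow hL (by omega) _ (by omega)

/-! ### The loop over the clauses -/

/-- Contents of the tables after `k` clauses. -/
structure Lv (φ : CNF n m) (R S k N : ℕ) (tab : ℕ → ℕ) (row : ℕ → ℕ → ℕ) : Prop where
  tabs : Tabs φ R S k N tab row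
  val : ∀ e < N, row e n = cl φ k (row e) Al ∧ row e (n + 1) = cl φ k (row e) Al ∧
    row e (n + 2) = 0 ∧ row e (n + 3) = 0
  pos : 0 < N
  zero : ∀ v < n, row 0 v = 0
  le : N ≤ 1 + k * φ.numProj

theorem CI.toLv {k N N' : ℕ} (h : CI φ R S k N row0 N N' tab row) (hT : Tb φ k N row0)
    (hS : 0 < S) (hk : k < m) (hpos : 0 < N) (hz : ∀ v < n, row0 0 v = 0)
    (hle : N ≤ 1 + k * φ.numProj) : Lv φ R S (k + 1) N' tab row := by
  have hle' := h.le
  have hNP := h.le_proj hT hS hk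
  refine ⟨⟨⟨h.good hT, h.inj hS, ?_⟩, h.tab1, h.tab2⟩, ?_, by omega, ?_, ?_⟩
  · intro a
    obtain ⟨e, he, h1⟩ := hT.cover a
    by_cases h2 : inC (φ.ent k) a
    · have hh : Hit φ k (row0 e) := ⟨a, h2, h1⟩
      obtain ⟨e', h3, h4⟩ := h.hit e he he hh
      exact ⟨e', h3, (isT_congr h4 a).mpr ((isT_mt (hT.good e he) hh a).mpr ⟨h2, h1⟩)⟩
    · have h3 : ¬ sup φ (row0 e) k := fun h3 => h2 (sup_in h3 (in_cube (hT.good e he) h1))
      exact ⟨e, by omega, (isT_congr (h.dg e he) a).mpr ((isT_old h3 a).mpr ⟨h2, h1⟩)⟩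
  · intro e he
    by_cases h1 : e < N
    · obtain ⟨h2, h3⟩ := h.done e h1 h1
      rw [cl_congr (h.dg e h1)]
      exact ⟨h2, h3, h.zero e he⟩
    · obtain ⟨-, h2, h3⟩ := h.new e (by omega) he
      exact ⟨h2, h3, h.zero e he⟩
  · intro v hv
    rw [h.dg 0 hpos v hv, hz v hv]
  · rw [Nat.add_mul, one_mul]; omega

/-- Body of the loop over the clauses. -/
def kCode : Cmd := .seq (FOR 10 0 iCode) (.seq (.op (.add 11 5 30)) (.seq (.op (.load 12 11))
  (.seq (.op (.sub 33 33 12)) (.seq (.op (.add 29 6 25)) (.seq (.op (.add 7 5 25))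
    (.seq (.loop 7 29 cCode) (.seq (.op (.add 9 9 0)) .skip)))))))

theorem runs_kCode (hL : Lay n m T R S) {N k : ℕ} (hk : k < m)
    (hl : Rg s ((6, R + N * S) :: (8, k) :: (9, k * n) :: (33, nsat φ k) :: cs n m T R S))
    (hw : 3 < w) (hmw : m < 2 ^ w) (h2w : 4 * 2 ^ n < 2 ^ w)
    (hR : Rep φ T R S tab row s.mem) (hb : R + (N + φ.numProj) * S + S < 2 ^ w)
    (hV : Lv φ R S k N tab row)
    (hQ : ∀ s' t N2 tab2 row2,
      t ≤ n * (N * (k * (n * 22 + 20) + n * 22 + 84) + 13) + N * (n * 15 + 42) + 15 →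
      Keep [10, 6, 7, 9, 11, 12, 13, 14, 15, 16, 17, 18, 19, 20, 28, 29, 33] s s' →
      s'.reg 6 = R + N2 * S → s'.reg 9 = (k + 1) * n → s'.reg 33 = nsat φ (k + 1) →
      Rep φ T R S tab2 row2 s'.mem → Lv φ R S (k + 1) N2 tab2 row2 → Q s' t) :
    Runs w kCode s Q := by
  obtain ⟨hT', hR', hS⟩ := id hL
  have hw4 : 2 ^ 4 ≤ 2 ^ w := Nat.pow_le_pow_right (by norm_num) hw
  have h4n : 0 < 4 ^ n := by positivity
  have h2n : 0 < 2 ^ n := by positivity
  have hkn : k * n + n ≤ m * n := by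
    have : (k + 1) * n ≤ m * n := Nat.mul_le_mul_right _ hk
    rwa [Nat.add_mul, one_mul] at this
  have hNS : N * S ≤ (N + φ.numProj) * S := Nat.mul_le_mul_right _ (by omega)
  have hpos := hV.pos
  have h1S := row_le (S := S) hpos
  have hTb := hV.tabs.tb
  have hs := Sy.start
    (K := [10, 6, 7, 9, 11, 12, 13, 14, 15, 16, 17, 18, 19, 20, 28, 29, 33]) hl
  unfold kCode
  refine sCall (P := fun s' t => t ≤ n * (N * (k * (n * 22 + 20) + n * 22 + 84) + 13) + 3 ∧
    Keep [10, 7, 11, 12, 13, 14, 15, 16, 17, 18, 19, 28] s s' ∧ ∃ row1,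
      Rep φ T R S tab row1 s'.mem ∧ II φ k n N row row1) ?_ ?_
  · refine rFor (N := n) (T := N * (k * (n * 22 + 20) + n * 22 + 84) + 10)
      [7, 11, 12, 13, 14, 15, 16, 17, 18, 19, 28] hl rfl rfl rfl rfl rfl (by omega)
      (fun i s' => ∃ row1, Rep φ T R S tab row1 s'.mem ∧ II φ k i N row row1)
      (fun q s x h => h) ⟨row, hR, fun _ _ _ _ => rfl, fun e he => ?_⟩ ?_ ?_
    · obtain ⟨-, h1, h2, h3⟩ := hV.val e he
      refine ⟨?_, h2, h3⟩
      rw [h1]
      apply cl_congr'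
      intro a
      exact ⟨fun _ => Vp_zero φ k a, fun _ => trivial⟩
    · rintro i s' hi hl' ⟨row1, hR1, hI1⟩
      refine runs_iCode (φ := φ) hL hk hi (hl'.of (by repeat (first | exact trivial | refine ⟨rfl, ?_⟩))) hw hmw h2w hR1 (by omega) hV.tabs
        hI1 ?_
      intro s'' t row2 ht hK hR2 hI2
      exact ⟨ht, hK, row2, hR2, hI2⟩
    · rintro s' t ht hK ⟨row1, hR1, hI1⟩
      exact ⟨by omega, hK, row1, hR1, hI1⟩
  rintro s1 t1 ⟨ht1, hK1, row1, hR1, hI1⟩
  have hs := hs.sub hK1 rfl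
  have hv0 : row1 0 (n + 1) = cl φ k (row 0) (Vp φ k n) := (hI1.val 0 hpos).1
  have hv0' : row1 0 (n + 1) ≤ 2 ^ n := by rw [hv0]; exact cl_le _ _ _ _
  have hns : nsat φ k ≤ 2 ^ n := ct_le _
  refine sAdd hs rfl rfl rfl (by omega) fun hs => ?_
  refine sLoad hs rfl (hR1.row' (e := 0) (f := n + 1) (by omega) (by omega)) rfl (by omega)
    fun hs => ?_
  refine sSub hs rfl rfl rfl (by omega) fun hs => ?_
  refine sAdd hs rfl rfl rfl (by omega) fun hs => ?_
  refine sAdd hs rfl rfl rfl (by omega) fun hs => ?_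
  rw [hv0, ← nsat_succ hV.zero] at hs ⊢
  obtain ⟨s2, hs2⟩ : ∃ s2, s2 = (((((s1.set 11 (R + (n + 1))).set 12
    (cl φ k (row 0) (Vp φ k n))).set 33 (nsat φ (k + 1))).set 29 (R + N * S + 0)).set 7
      (R + 0)) := ⟨_, rfl⟩
  rw [← hs2] at hs ⊢
  have hC0 : CI φ R S k N row 0 N tab row1 := by
    have hdg : ∀ e < N, ∀ v < n, row1 e v = row e v := fun e he v hv =>
      hI1.dg e he v (by omega)
    refine ⟨le_rfl, hdg, fun e he => absurd he (by omega), fun e _ he => ?_, fun e he => ?_,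
      fun e h1 h2 => absurd h2 (by omega), fun e he => absurd he (by omega), fun e he => ?_,
      fun c h1 h2 => ?_⟩
    · rw [hI1.dg e he n (by omega)]
      exact ⟨(hV.val e he).1, (hI1.val e he).1⟩
    · exact (hI1.val e he).2
    · rw [cod_congr (hdg e he)]
      exact hV.tabs.tab1 e he
    · obtain ⟨e, h3, h4⟩ := hV.tabs.tab2 c h1 h2
      exact ⟨e, h3, by rw [cod_congr (hdg e h3)]; exact h4⟩
  refine sCall (P := fun s' t => t ≤ N * (n * 15 + 42) + 2 ∧
    Keep [7, 6, 11, 12, 13, 15, 16, 17, 18, 19, 20] s2 s' ∧ ∃ N2 tab2 row2,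
      s'.reg 6 = R + N2 * S ∧ Rep φ T R S tab2 row2 s'.mem ∧
      CI φ R S k N row N N2 tab2 row2) ?_ ?_
  · refine rPtr (N := N) (R := R) (S := S) (Tm := n * 15 + 40)
      [7, 6, 11, 12, 13, 15, 16, 17, 18, 19, 20]
      (hs.rg.of (l := (29, R + N * S) :: (9, k * n) :: cs n m T R S) (by repeat (first | exact trivial | refine ⟨rfl, ?_⟩))) rfl rfl
      (by rw [hs.reg rfl]; rfl) (by omega)
      (fun q s' => ∃ N2 tab2 row2, s'.reg 6 = R + N2 * S ∧ Rep φ T R S tab2 row2 s'.mem ∧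
        CI φ R S k N row q N2 tab2 row2)
      ⟨N, tab, row1, hs.reg rfl, by rw [hs.mem]; exact hR1, hC0⟩ ?_ ?_
    · rintro q s' hq hl' ⟨N2, tab2, row2, h6, hR2, hC2⟩
      refine runs_cCode (φ := φ) hL hk hq ((hl'.cons h6).of (by repeat (first | exact trivial | refine ⟨rfl, ?_⟩))) hw h2w hR2 hb hTb hC2 ?_
      intro s'' t N3 tab3 row3 ht hK h7 h6' hR3 hC3
      exact ⟨ht, hK, h7, N3, tab3, row3, h6', hR3, hC3⟩
    · rintro s' t ht hK ⟨N2, tab2, row2, h6, hR2, hC2⟩
      exact ⟨by omega, hK, N2, tab2, row2, h6, hR2, hC2⟩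
  rintro s3 t3 ⟨ht3, hK3, N2, tab2, row2, h6, hR2, hC2⟩
  have hs := (hs.sub hK3 rfl).cons h6
  refine sAdd hs rfl rfl rfl (by omega) fun hs => ?_
  apply Runs.skip
  refine hQ _ _ N2 tab2 row2 (by omega) hs.keep (hs.reg rfl) ?_ (hs.reg rfl)
    (by rw [hs.mem]; exact hR2) (hC2.toLv hTb (by omega) hk hpos hV.zero hV.le)
  rw [hs.reg rfl]; ring

end

end Pool.Agent.H624R2.Lin
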