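import Pool.Agent.H624R2.Lin5

/-!
Initialisation, and the complete program.
-/

namespace Pool.Agent.H624R2.Lin

open Finset Pool.Agent.H588R2

variable {n m : ℕ}

theorem inputMem_ent (φ : CNF n m) {j v : ℕ} (hj : j < m) (hv : v < n) :
    inputMem φ (j * n + v) = φ.ent j v := by
  unfold inputMem
  rw [if_pos (inp_lt hj hv)]
  have hn : 0 < n := by omega
  rw [Nat.add_comm, Nat.add_mul_div_right _ _ hn, Nat.add_mul_mod_self_right,
    Nat.div_eq_of_lt hv, Nat.mod_eq_of_lt hv, Nat.zero_add]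

def initCode : Cmd := .seq (.op (.const 2 1)) (.seq (.op (.const 25 0))
  (.seq (.op (.const 21 4)) (.seq (.op (.const 22 3)) (.seq (.op (.mul 3 1 0))
    (.seq (.op (.add 11 3 25)) (.seq (.op (.const 12 1)) (.seq (.op (.const 13 1))
      (.seq (FOR 17 0 (.seq (.op (.store 11 12)) (.seq (.op (.add 11 11 2))
        (.seq (.op (.add 12 12 12)) (.seq (.op (.mul 13 13 21)) .skip)))))
      (.seq (.op (.store 11 12)) (.seq (.op (.add 27 11 2)) (.seq (.op (.add 5 27 13))
        (.seq (.op (.add 30 0 2)) (.seq (.op (.add 31 30 2)) (.seq (.op (.add 32 31 2))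
          (.seq (.op (.add 4 32 2)) (.seq (.op (.store 27 5)) (.seq (.op (.add 14 5 0))
            (.seq (.op (.store 14 12)) (.seq (.op (.add 14 5 30)) (.seq (.op (.store 14 12))
              (.seq (.op (.add 6 5 4)) (.seq (.op (.add 33 12 25))
                (.seq (.op (.const 9 0)) .skip)))))))))))))))))))))))

/-- The complete program. -/
def mainCode : Cmd := .seq initCode (.seq (FOR 8 1 kCode) (.seq (.op (.add 0 33 25)) .skip))

theorem cod_zero {r : ℕ → ℕ} (h : ∀ v < n, r v = 0) : cod r n = 0 := by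
  induction n with
  | zero => rfl
  | succ n ih =>
    simp only [cod]
    rw [ih (fun v hv => h v (by omega)), h n (by omega)]

theorem init_Lv (φ : CNF n m) {R S : ℕ} {tab : ℕ → ℕ}
    {row : ℕ → ℕ → ℕ} (h1 : tab 0 = R) (h2 : ∀ c, c ≠ 0 → tab c = 0)
    (h3 : ∀ v < n, row 0 v = 0) (h4 : row 0 n = 2 ^ n) (h5 : row 0 (n + 1) = 2 ^ n)
    (h6 : row 0 (n + 2) = 0) (h7 : row 0 (n + 3) = 0) : Lv φ R S 0 1 tab row := by
  have hcl : cl φ 0 (row 0) Al = 2 ^ n := by
    unfold cl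
    rw [← ct_true]
    apply ct_congr
    intro a
    exact ⟨fun _ => trivial, fun _ => ⟨trivial, fun j hj => absurd hj (by omega)⟩⟩
  refine ⟨⟨⟨?_, ?_, ?_⟩, ?_, ?_⟩, ?_, by omega, h3, by omega⟩
  · intro e he
    obtain rfl : e = 0 := by omega
    refine ⟨fun v hv => by rw [h3 v hv]; omega, fun v hv h0 => absurd (h3 v hv) h0⟩
  · intro e he e' he' _
    omega
  · intro a
    exact ⟨0, by omega, fun j hj => absurd hj (by omega)⟩
  · intro e he
    obtain rfl : e = 0 := by omega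
    rw [cod_zero h3, h1]; omega
  · intro c _ hc
    refine ⟨0, by omega, ?_⟩
    rw [cod_zero h3]
    by_contra h8
    exact hc (h2 c (Ne.symm h8))
  · intro e he
    obtain rfl : e = 0 := by omega
    rw [hcl]
    exact ⟨h4, h5, h6, h7⟩

theorem runs_initCode {w : ℕ} (φ : CNF n m) {T R S : ℕ} (hL : Lay n m T R S) {s : St}
    {Q : St → ℕ → Prop} (hl : Rg s [(0, n), (1, m)]) (hm : s.mem = inputMem φ)
    (hw : 3 < w) (h2w : 4 * 2 ^ n < 2 ^ w) (hb : R + S + S < 2 ^ w)
    (hQ : ∀ s' t tab row, t ≤ n * 7 + 30 →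
      Rg s' ((6, R + 1 * S) :: (9, 0 * n) :: (33, nsat φ 0) :: cs n m T R S) →
      Rep φ T R S tab row s'.mem → Lv φ R S 0 1 tab row → Q s' t) :
    Runs w initCode s Q := by
  obtain ⟨hT', hR', hS⟩ := id hL
  have hw4 : 2 ^ 4 ≤ 2 ^ w := Nat.pow_le_pow_right (by norm_num) hw
  have h4n : 0 < 4 ^ n := by positivity
  have h2n : 0 < 2 ^ n := by positivity
  have hs := Sy.start (K := [0, 1, 2, 3, 4, 5, 6, 7, 8, 9, 10, 11, 12, 13, 14, 17, 21, 22, 25,
    27, 30, 31, 32, 33]) hl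
  rw [hm] at hs
  unfold initCode
  refine sConst hs rfl (by omega) fun hs => ?_
  refine sConst hs rfl (by omega) fun hs => ?_
  refine sConst hs rfl (by omega) fun hs => ?_
  refine sConst hs rfl (by omega) fun hs => ?_
  refine sMul hs rfl rfl rfl (by omega) fun hs => ?_
  refine sAdd hs rfl rfl rfl (by omega) fun hs => ?_
  refine sConst hs rfl (by omega) fun hs => ?_
  refine sConst hs rfl (by omega) fun hs => ?_
  obtain ⟨s1, hs1⟩ : ∃ s1, s1 = ((((((((s.set 2 1).set 25 0).set 21 4).set 22 3).set 3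
    (m * n)).set 11 (m * n + 0)).set 12 1).set 13 1) := ⟨_, rfl⟩
  rw [← hs1] at hs ⊢
  refine sCall (P := fun s' t => t ≤ n * 7 + 3 ∧ Keep [17, 11, 12, 13] s1 s' ∧
    s'.reg 11 = m * n + n ∧ s'.reg 12 = 2 ^ n ∧ s'.reg 13 = 4 ^ n ∧
    ∀ a, s'.mem a = if m * n ≤ a ∧ a < m * n + n then 2 ^ (a - m * n) else inputMem φ a) ?_ ?_
  · refine rFor (N := n) (T := 4) [11, 12, 13]
      (hs.rg.of (l := [(0, n), (1, m), (2, 1), (21, 4)]) (by repeat (first | exact trivial | refine ⟨rfl, ?_⟩))) rfl rfl rfl rfl rfl (by omega)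
      (fun q s' => s'.reg 11 = m * n + q ∧ s'.reg 12 = 2 ^ q ∧ s'.reg 13 = 4 ^ q ∧
        ∀ a, s'.mem a = if m * n ≤ a ∧ a < m * n + q then 2 ^ (a - m * n) else inputMem φ a)
      (fun q s x h => by simpa [reg_set] using h) ⟨hs.reg rfl, hs.reg rfl, hs.reg rfl, ?_⟩ ?_ ?_
    · intro a
      rw [hs.mem, if_neg (by omega)]
    · rintro q s' hq hl' ⟨h11, h12, h13, hM⟩
      have hs := Sy.start (K := [11, 12, 13]) (((hl'.cons h11).cons h12).cons h13)
      have h4 : 4 ^ (q + 1) ≤ 4 ^ n := Nat.pow_le_pow_right (by norm_num) hq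
      have h2 : 2 ^ (q + 1) ≤ 2 ^ n := Nat.pow_le_pow_right (by norm_num) hq
      rw [pow_succ] at h4 h2
      refine sStore hs rfl rfl fun hs => ?_
      refine sAdd hs rfl rfl rfl (by omega) fun hs => ?_
      refine sAdd hs rfl rfl rfl (by omega) fun hs => ?_
      refine sMul hs rfl rfl rfl (by omega) fun hs => ?_
      apply Runs.skip
      refine ⟨by omega, hs.keep, hs.reg rfl, ?_, ?_, ?_⟩
      · rw [hs.reg rfl, pow_succ]; omega
      · rw [hs.reg rfl, pow_succ]
      · intro a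
        rw [hs.mem]
        by_cases h5 : a = m * n + q
        · rw [h5, Function.update_self, if_pos (by omega)]
          congr 1; omega
        · rw [Function.update_of_ne h5, hM a]
          by_cases h6 : m * n ≤ a ∧ a < m * n + q
          · rw [if_pos h6, if_pos (by omega)]
          · rw [if_neg h6, if_neg (by omega)]
    · rintro s' t ht hK ⟨h11, h12, h13, hM⟩
      exact ⟨by omega, hK, h11, h12, h13, hM⟩
  rintro s2 t2 ⟨ht2, hK2, h11, h12, h13, hM⟩
  have hs := (((hs.sub hK2 rfl).cons h11).cons h12).cons h13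
  refine sStore hs rfl rfl fun hs => ?_
  have hRep : Rep φ T R S (fun _ => 0) (fun _ _ => 0)
      (Function.update s2.mem (m * n + n) (2 ^ n)) := by
    refine ⟨fun j hj v hv => ?_, fun q hq => ?_, fun c hc => ?_, fun e f hf => ?_⟩
    · have h5 := inp_lt hj hv
      rw [Function.update_of_ne (by omega), hM, if_neg (by omega), inputMem_ent φ hj hv]
    · by_cases h5 : q = n
      · rw [h5, Function.update_self]
      · rw [Function.update_of_ne (by omega), hM, if_pos (by omega)]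
        congr 1; omega
    · rw [Function.update_of_ne (by omega), hM, if_neg (by omega), inputMem, if_neg (by omega)]
    · rw [Function.update_of_ne (by omega), hM, if_neg (by omega), inputMem, if_neg (by omega)]
  refine sAdd hs rfl rfl rfl (by omega) fun hs => ?_
  refine sAdd hs rfl rfl rfl (by omega) fun hs => ?_
  refine sAdd hs rfl rfl rfl (by omega) fun hs => ?_
  refine sAdd hs rfl rfl rfl (by omega) fun hs => ?_
  refine sAdd hs rfl rfl rfl (by omega) fun hs => ?_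
  refine sAdd hs rfl rfl rfl (by omega) fun hs => ?_
  refine sStore hs rfl rfl fun hs => ?_
  refine sAdd hs rfl rfl rfl (by omega) fun hs => ?_
  refine sStore hs rfl rfl fun hs => ?_
  refine sAdd hs rfl rfl rfl (by omega) fun hs => ?_
  refine sStore hs rfl rfl fun hs => ?_
  refine sAdd hs rfl rfl rfl (by omega) fun hs => ?_
  refine sAdd hs rfl rfl rfl (by omega) fun hs => ?_
  refine sConst hs rfl (by omega) fun hs => ?_
  apply Runs.skip
  have hR2 := ((hRep.storeTab hL (c := 0) (by omega) (m * n + n + 1 + 4 ^ n)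
    (a := m * n + n + 1) (by omega)).storeRow hL (i := 0) (f := n) (by omega) (2 ^ n)
    (a := m * n + n + 1 + 4 ^ n + n) (by omega)).storeRow hL (i := 0) (f := n + 1) (by omega)
      (2 ^ n) (a := m * n + n + 1 + 4 ^ n + (n + 1)) (by omega)
  refine hQ _ _ (Function.update (fun _ => 0) 0 (m * n + n + 1 + 4 ^ n))
    (upd (upd (fun _ _ => 0) 0 n (2 ^ n)) 0 (n + 1) (2 ^ n)) (by omega) ?_ ?_ ?_
  · have e6 : R + 1 * S = m * n + n + 1 + 4 ^ n + (n + 1 + 1 + 1 + 1) := by omega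
    have e9 : 0 * n = 0 := by omega
    rw [e6, e9, nsat_zero]
    have eR : R = m * n + n + 1 + 4 ^ n := by omega
    subst hT'
    subst eR
    subst hS
    exact hs.rg.of (by repeat (first | exact trivial | refine ⟨rfl, ?_⟩))
  · rw [hs.mem]
    exact hR2
  · refine init_Lv φ (by rw [Function.update_self]; omega)
      (fun c hc => by rw [Function.update_of_ne hc]) ?_ ?_ ?_ ?_ ?_
    · intro v hv
      rw [upd_cell _ _ (by omega), upd_cell _ _ (by omega)]
    · rw [upd_cell _ _ (by omega), upd_self]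
    · rw [upd_self]
    · rw [upd_cell _ _ (by omega), upd_cell _ _ (by omega)]
    · rw [upd_cell _ _ (by omega), upd_cell _ _ (by omega)]

theorem numProj_pos (φ : CNF n m) : 0 < φ.numProj := by
  unfold CNF.numProj
  rw [card_pos]
  exact ⟨φ.proj (fun _ => false), mem_image_of_mem _ (mem_univ _)⟩

theorem numProj_le (φ : CNF n m) : φ.numProj ≤ 2 ^ n := by
  unfold CNF.numProj
  refine card_image_le.trans ?_
  simp

theorem runs_main {w : ℕ} (φ : CNF n m) {T R S : ℕ} (hL : Lay n m T R S) (hw : 3 < w)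
    (hmw : m < 2 ^ w) (h2w : 4 * 2 ^ n < 2 ^ w)
    (hb : R + (1 + m * φ.numProj) * S + S < 2 ^ w) :
    Runs w mainCode (inputConfig φ).st (fun s' t =>
      t ≤ m * (n * (m * φ.numProj * (m * (n * 22 + 20) + n * 22 + 84) + 13) +
        m * φ.numProj * (n * 15 + 42) + 18) + n * 7 + 40 ∧ s'.reg 0 = φ.numSat) := by
  obtain ⟨hT', hR', hS⟩ := id hL
  have hpos := numProj_pos φ
  have h1 : (1 + m * φ.numProj) * S = S + m * φ.numProj * S := by ring
  have hl0 : Rg (inputConfig φ).st [(0, n), (1, m)] := by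
    have h0 : Rg (inputConfig φ).st [] := by
      intro x v hx
      simp [look] at hx
    exact (h0.cons (d := 1) (v := m) rfl).cons rfl
  unfold mainCode
  refine sCall (P := fun s' t => t ≤ n * 7 + 30 ∧ ∃ tab row,
      Rg s' ((6, R + 1 * S) :: (9, 0 * n) :: (33, nsat φ 0) :: cs n m T R S) ∧
      Rep φ T R S tab row s'.mem ∧ Lv φ R S 0 1 tab row)
    (runs_initCode φ hL hl0 rfl hw h2w (by omega) ?_) ?_
  · intro s' t tab row ht h2 h3 h4
    exact ⟨ht, tab, row, h2, h3, h4⟩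
  rintro s1 t1 ⟨ht1, tab1, row1, hl1, hR1, hV1⟩
  set Tk := n * (m * φ.numProj * (m * (n * 22 + 20) + n * 22 + 84) + 13) +
        m * φ.numProj * (n * 15 + 42) + 15 with hTk
  refine sCall (P := fun s' t => t ≤ m * (Tk + 3) + 3 ∧ s'.reg 33 = φ.numSat ∧
    s'.reg 25 = 0) ?_ ?_
  · refine rFor (N := m) (T := Tk)
      [10, 6, 7, 9, 11, 12, 13, 14, 15, 16, 17, 18, 19, 20, 28, 29, 33] hl1 rfl rfl rfl rfl rfl
      hmw (fun k s' => ∃ N tab row, s'.reg 6 = R + N * S ∧ s'.reg 9 = k * n ∧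
        s'.reg 33 = nsat φ k ∧ Rep φ T R S tab row s'.mem ∧ Lv φ R S k N tab row)
      (fun q s x h => by simpa [reg_set] using h)
      ⟨1, tab1, row1, hl1 6 _ rfl, hl1 9 _ rfl, hl1 33 _ rfl, hR1, hV1⟩ ?_ ?_
    · rintro k s' hk hl' ⟨N, tab, row, h6, h9, h33, hR2, hV2⟩
      have hNle := hV2.le
      have hkP : k * φ.numProj + φ.numProj ≤ m * φ.numProj := by
        have : (k + 1) * φ.numProj ≤ m * φ.numProj := Nat.mul_le_mul_right _ hk
        rwa [Nat.add_mul, one_mul] at this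
      have hNS : (N + φ.numProj) * S ≤ (1 + m * φ.numProj) * S :=
        Nat.mul_le_mul_right _ (by omega)
      refine runs_kCode (φ := φ) hL hk ((((hl'.cons h6).cons h9).cons h33).of (by repeat (first | exact trivial | refine ⟨rfl, ?_⟩))) hw hmw
        h2w hR2 (by omega) hV2 ?_
      intro s'' t N2 tab2 row2 ht hK h6' h9' h33' hR3 hV3
      refine ⟨ht.trans ?_, hK, N2, tab2, row2, h6', h9', h33', hR3, hV3⟩
      have hNm : N ≤ m * φ.numProj := by omega
      have hkm : k ≤ m := by omega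
      rw [hTk]
      gcongr
    · rintro s' t ht hK ⟨N, tab, row, h6, h9, h33, hR2, hV2⟩
      refine ⟨ht, by rw [h33, nsat_last], ?_⟩
      rw [hK 25 rfl]
      exact hl1 25 _ rfl
  rintro s2 t2 ⟨ht2, h33, h25⟩
  have hnl : Rg s2 [] := by
    intro x v hx
    simp [look] at hx
  have hs := Sy.start (K := [0]) ((hnl.cons h33).cons h25)
  have hns : φ.numSat ≤ 2 ^ n := by rw [← nsat_last]; exact ct_le _
  refine sAdd hs rfl rfl rfl (by omega) fun hs => ?_
  apply Runs.skip
  refine ⟨?_, ?_⟩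
  · have e : m * (Tk + 3) = m * (n * (m * φ.numProj * (m * (n * 22 + 20) + n * 22 + 84) + 13) +
        m * φ.numProj * (n * 15 + 42) + 18) := by rw [hTk]
    omega
  · rw [hs.reg rfl]; omega

theorem word_ok {w : ℕ} (φ : CNF n m) (hw : 2 * n + Nat.log 2 (m + 1) + 5 ≤ w) :
    3 < w ∧ m < 2 ^ w ∧ 4 * 2 ^ n < 2 ^ w ∧
      m * n + n + 1 + 4 ^ n + (1 + m * φ.numProj) * (n + 4) + (n + 4) < 2 ^ w := by
  set l := Nat.log 2 (m + 1) with hl
  have hml : m + 1 < 2 ^ (l + 1) := Nat.lt_pow_succ_log_self (by norm_num) _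
  have hnn : n < 2 ^ n := Nat.lt_two_pow_self
  have h4 : (4 : ℕ) ^ n = 2 ^ n * 2 ^ n := by
    rw [← Nat.mul_pow]
  have hpw : 2 ^ (2 * n + l + 5) ≤ 2 ^ w := Nat.pow_le_pow_right (by norm_num) hw
  have he : 2 ^ (2 * n + l + 5) = 32 * (2 ^ n * 2 ^ n) * 2 ^ l := by
    rw [show 2 * n + l + 5 = n + n + l + 5 by ring]
    simp only [pow_add]; ring
  have hP := numProj_le φ
  set X := 2 ^ n with hX
  set Y := 2 ^ l with hY
  have hX1 : 1 ≤ X := Nat.one_le_two_pow
  have hY1 : 1 ≤ Y := Nat.one_le_two_pow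
  have hm : m + 2 ≤ 2 * Y := by rw [pow_succ] at hml; omega
  have hXXY : X ≤ X * X * Y := by
    calc X = X * 1 * 1 := by ring
      _ ≤ X * X * Y := by gcongr
  have hYY : Y ≤ X * X * Y := by
    calc Y = 1 * 1 * Y := by ring
      _ ≤ X * X * Y := by gcongr
  refine ⟨by omega, ?_, ?_, ?_⟩
  · calc m < 2 * Y := by omega
      _ ≤ 32 * (X * X) * Y := by nlinarith
      _ ≤ 2 ^ w := by rw [← he]; exact hpw
  · calc 4 * X < 32 * (X * X) * Y := by nlinarith
      _ ≤ 2 ^ w := by rw [← he]; exact hpw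
  · rw [h4]
    have h1 : n + 4 ≤ 4 * X := by omega
    have h2 : m * n ≤ 2 * Y * X := Nat.mul_le_mul (by omega) (by omega)
    have h3 : (2 + m * φ.numProj) * (n + 4) ≤ (2 + (2 * Y - 2) * X) * (4 * X) :=
      Nat.mul_le_mul (Nat.add_le_add_left (Nat.mul_le_mul (by omega) hP) _) h1
    obtain ⟨y, hy⟩ : ∃ y, Y = y + 1 := ⟨Y - 1, by omega⟩
    have h5 : 2 * Y - 2 = 2 * y := by omega
    rw [h5] at h3
    calc m * n + n + 1 + X * X + (1 + m * φ.numProj) * (n + 4) + (n + 4)
        = m * n + n + 1 + X * X + (2 + m * φ.numProj) * (n + 4) := by ring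
      _ ≤ 2 * Y * X + X + X * X + (2 + 2 * y * X) * (4 * X) := by omega
      _ < 32 * (X * X) * Y := by rw [hy]; nlinarith [Nat.zero_le (X * X * y), Nat.zero_le (X * y)]
      _ ≤ 2 ^ w := by rw [← he]; exact hpw

theorem main {w : ℕ} (φ : CNF n m) (hw : 2 * n + Nat.log 2 (m + 1) + 5 ≤ w) :
    HaltsWithin w (mainCode.compile 0) (inputConfig φ)
      (40 * (n + 1) ^ 2 * (m + 1) ^ 3 * φ.numProj) φ.numSat := by
  obtain ⟨h1, h2, h3, h4⟩ := word_ok φ hw
  obtain ⟨s', t, hex, ht, hr⟩ := runs_main φ (T := m * n + n + 1)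
    (R := m * n + n + 1 + 4 ^ n) (S := n + 4) ⟨rfl, rfl, rfl⟩ h1 h2 h3 h4
  have hstep := compile_correct w (mainCode.compile 0) hex 0 (by
    intro i _; simp)
  have hc : (⟨0, (inputConfig φ).st⟩ : Config) = inputConfig φ := rfl
  rw [hc] at hstep
  refine ⟨t, ?_, ?_, ?_⟩
  · have hP := numProj_pos φ
    set P := φ.numProj with hPdef
    have h5 : m * (n * (m * P * (m * (n * 22 + 20) + n * 22 + 84) + 13) +
        m * P * (n * 15 + 42) + 18) + n * 7 + 40 ≤ 40 * (n + 1) ^ 2 * (m + 1) ^ 3 * P := by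
      obtain ⟨p, hp⟩ : ∃ p, P = p + 1 := ⟨P - 1, by omega⟩
      rw [hp]
      ring_nf
      omega
    have h6 : (t : ℝ) ≤ ((40 * (n + 1) ^ 2 * (m + 1) ^ 3 * P : ℕ) : ℝ) := by
      exact_mod_cast ht.trans h5
    push_cast at h6
    exact h6
  · rw [hstep]
    right
    simp [← Cmd.length_compile mainCode 0]
  · rw [hstep]; exact hr

end Pool.Agent.H624R2.Lin
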