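import Pool.Agent.H624R2.Cnf

/-!
Digit strings and their codes.
-/

namespace Pool.Agent.H624R2.Lin

open Finset

theorem mem_proj {n m : ℕ} {φ : CNF n m} {a : Fin n → Bool} {j : Fin m} :
    j ∈ φ.proj a ↔ φ.satClause j a := by
  unfold CNF.proj; rw [mem_filter]; simp

/-- The Boolean value `x` is allowed by the digit `d`. -/
def inD (d : ℕ) (x : Bool) : Prop := d = 0 ∨ (d = 1 ∧ x = false) ∨ (d = 2 ∧ x = true)

instance (d : ℕ) (x : Bool) : Decidable (inD d x) := by unfold inD; infer_instance

theorem ent_lt {n m : ℕ} (φ : CNF n m) (j v : ℕ) : φ.ent j v < 4 := by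
  unfold CNF.ent
  split_ifs <;> omega

/-- Point `x` lies in the cube with digits `r`. -/
def inC {n : ℕ} (r : ℕ → ℕ) (x : Fin n → Bool) : Prop := ∀ v : Fin n, inD (r v) (x v)

instance {n : ℕ} (r : ℕ → ℕ) (x : Fin n → Bool) : Decidable (inC r x) := by
  unfold inC; infer_instance

theorem inC_ent {n m : ℕ} (φ : CNF n m) (j : Fin m) (x : Fin n → Bool) :
    inC (φ.ent j) x ↔ ¬ φ.satClause j x := by
  unfold inC CNF.satClause
  rw [not_exists]
  apply forall_congr'
  intro v
  have h : φ.ent j v = (if φ.pos j v = true then 1 else 0) + (if φ.neg j v = true then 2 else 0) := by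
    unfold CNF.ent
    rw [dif_pos ⟨j.2, v.2⟩]
  rw [h]
  unfold inD
  cases φ.pos j v <;> cases φ.neg j v <;> cases x v <;> simp

/-- Code of a digit string. -/
def cod (r : ℕ → ℕ) : ℕ → ℕ
  | 0 => 0
  | v + 1 => cod r v * 4 + r v

theorem cod_congr {r r' : ℕ → ℕ} : ∀ {n : ℕ}, (∀ v < n, r v = r' v) → cod r n = cod r' n := by
  intro n
  induction n with
  | zero => intro _; rfl
  | succ n ih =>
    intro h
    simp only [cod]
    rw [ih (fun v hv => h v (by omega)), h n (by omega)]

theorem cod_lt {r : ℕ → ℕ} : ∀ {n : ℕ}, (∀ v < n, r v < 3) → cod r n < 4 ^ n := by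
  intro n
  induction n with
  | zero => intro _; simp [cod]
  | succ n ih =>
    intro h
    simp only [cod]
    have := ih (fun v hv => h v (by omega))
    have := h n (by omega)
    rw [pow_succ]; omega

theorem cod_inj {r r' : ℕ → ℕ} : ∀ {n : ℕ}, (∀ v < n, r v < 3) → (∀ v < n, r' v < 3) →
    cod r n = cod r' n → ∀ v < n, r v = r' v := by
  intro n
  induction n with
  | zero => intro _ _ _ v hv; omega
  | succ n ih =>
    intro h h' he v hv
    simp only [cod] at he
    have h1 := h n (by omega)
    have h2 := h' n (by omega)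
    rcases Nat.lt_succ_iff_lt_or_eq.mp hv with hv | hv
    · exact ih (fun v hv => h v (by omega)) (fun v hv => h' v (by omega)) (by omega) v hv
    · subst hv; omega

end Pool.Agent.H624R2.Lin
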