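import Pool.Agent.H588R2.Ram
import Pool.Agent.H624R2.Digits

/-!
The word-RAM program that counts satisfying assignments, with its running time.
-/

namespace Pool.Agent.H624R2.Sat

open Pool.Agent.H588R2

/-! ### Rules -/

/-- Memory write. -/
def setm (s : St) (a v : ℕ) : St := ⟨s.reg, Function.update s.mem a v⟩

@[simp] theorem setm_reg (s : St) (a v : ℕ) : (setm s a v).reg = s.reg := rfl
@[simp] theorem setm_mem (s : St) (a v : ℕ) : (setm s a v).mem = Function.update s.mem a v := rfl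

theorem reg_set (s : St) (d v x : ℕ) : (s.set d v).reg x = if x = d then v else s.reg x := by
  simp [St.set, Function.update_apply]

section rules
variable {w d a b x y : ℕ} {s : St} {Q : St → ℕ → Prop}

theorem rAdd (ha : s.reg a = x) (hb : s.reg b = y) (hlt : x + y < 2 ^ w)
    (h : Q (s.set d (x + y)) 1) : Runs w (.op (.add d a b)) s Q := by
  subst ha hb; exact Runs.add hlt h

theorem rSub (ha : s.reg a = x) (hb : s.reg b = y) (hlt : x < 2 ^ w)
    (h : Q (s.set d (x - y)) 1) : Runs w (.op (.sub d a b)) s Q := by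
  subst ha hb; exact Runs.sub (lt_of_le_of_lt (Nat.sub_le _ _) hlt) h

theorem rMul (ha : s.reg a = x) (hb : s.reg b = y) (hlt : x * y < 2 ^ w)
    (h : Q (s.set d (x * y)) 1) : Runs w (.op (.mul d a b)) s Q := by
  subst ha hb; exact Runs.mul hlt h

theorem rLoad (ha : s.reg a = x) (hm : s.mem x = y) (hlt : y < 2 ^ w)
    (h : Q (s.set d y) 1) : Runs w (.op (.load d a)) s Q := by
  subst ha hm; exact Runs.load hlt h

theorem rStore (ha : s.reg a = x) (hb : s.reg b = y)
    (h : Q (setm s x y) 1) : Runs w (.op (.store a b)) s Q := by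
  subst ha hb; exact Runs.op h

end rules

/-- While loop with an upper bound on the number of iterations. -/
theorem rWhile {w a b c} (Bd : ℕ) (I : ℕ → St → ℕ → Prop)
    (hstep : ∀ q s τ, I q s τ → s.reg a < s.reg b → q < Bd ∧
      Runs w c s (fun s' t => I (q + 1) s' (τ + (t + 2))))
    {s : St} (h0 : I 0 s 0) {Q : St → ℕ → Prop}
    (hQ : ∀ q s' τ, I q s' τ → ¬ s'.reg a < s'.reg b → Q s' (τ + 2)) :
    Runs w (.loop a b c) s Q := by
  have key : ∀ k q s τ, Bd - q ≤ k → I q s τ →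
      ∃ s' t, Exec w (.loop a b c) s s' t ∧ ∃ q' τ', I q' s' τ' ∧ ¬ s'.reg a < s'.reg b ∧
        τ + t = τ' + 2 := by
    intro k
    induction k with
    | zero =>
      intro q s τ hq hI
      by_cases hlt : s.reg a < s.reg b
      · obtain ⟨h1, -⟩ := hstep q s τ hI hlt
        omega
      · exact ⟨s, 2, .loopFalse hlt, q, τ, hI, hlt, rfl⟩
    | succ k ih =>
      intro q s τ hq hI
      by_cases hlt : s.reg a < s.reg b
      · obtain ⟨h1, s', t, he, hI'⟩ := hstep q s τ hI hlt
        obtain ⟨s'', t', he', q', τ', hτ, hn, heq⟩ := ih (q + 1) s' _ (by omega) hI'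
        exact ⟨s'', _, .loopTrue hlt he he', q', τ', hτ, hn, by omega⟩
      · exact ⟨s, 2, .loopFalse hlt, q, τ, hI, hlt, rfl⟩
  obtain ⟨s', t, he, q', τ', hI, hn, heq⟩ := key Bd 0 s 0 (by omega) h0
  refine ⟨s', t, he, ?_⟩
  have := hQ q' s' τ' hI hn
  have e : t = τ' + 2 := by omega
  rw [e]; exact this

/-- Registers outside the list `L` are unchanged. -/
def Keep (L : List ℕ) (s s' : St) : Prop := ∀ x, x ∉ L → s'.reg x = s.reg x

theorem Keep.refl (L : List ℕ) (s : St) : Keep L s s := fun _ _ => rfl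

theorem Keep.trans {L : List ℕ} {s s' s'' : St} (h : Keep L s s') (h' : Keep L s' s'') :
    Keep L s s'' := fun x hx => (h' x hx).trans (h x hx)

theorem Keep.mono {L L' : List ℕ} {s s' : St} (h : Keep L s s') (hL : L ⊆ L') : Keep L' s s' :=
  fun x hx => h x (fun hx' => hx (hL hx'))

theorem Keep.set {L : List ℕ} {s s' : St} {d : ℕ} (h : Keep L s s') (hd : d ∈ L) (v : ℕ) :
    Keep L s (s'.set d v) := fun x hx => by
  rw [reg_set, if_neg (fun e => hx (by rw [e]; exact hd))]; exact h x hx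

theorem Keep.setm {L : List ℕ} {s s' : St} (h : Keep L s s') (a v : ℕ) :
    Keep L s (setm s' a v) := fun x hx => h x hx

/-! ### The representation of the tables in memory -/

/-- Contents of the memory: input, table indexed by codes, rows of `n + 2 m + 1` cells. -/
structure Rep {n m : ℕ} (φ : CNF n m) (tab : ℕ → ℕ) (row : ℕ → ℕ → ℕ) (M : ℕ → ℕ) : Prop where
  inp : ∀ j < m, ∀ v < n, M (j * n + v) = φ.ent j v
  tb : ∀ c < 4 ^ n, M (m * n + c) = tab c
  rw : ∀ i, ∀ f < n + 2 * m + 1, M (m * n + 4 ^ n + i * (n + 2 * m + 1) + f) = row i f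

theorem adr_inj {S i f i' f' : ℕ} (hf : f < S) (hf' : f' < S) (h : i' * S + f' = i * S + f) :
    i' = i ∧ f' = f := by
  have key : ∀ {i f i' f' : ℕ}, f < S → f' < S → i' * S + f' = i * S + f → ¬ i' < i := by
    intro i f i' f' hf hf' h hlt
    have : (i' + 1) * S ≤ i * S := Nat.mul_le_mul_right _ hlt
    rw [Nat.add_mul, one_mul] at this
    omega
  have h1 := key hf hf' h
  have h2 := key hf' hf h.symm
  have h3 : i' = i := by omega
  subst h3
  exact ⟨rfl, by omega⟩

theorem inp_lt {n m j v : ℕ} (hj : j < m) (hv : v < n) : j * n + v < m * n := by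
  have : (j + 1) * n ≤ m * n := Nat.mul_le_mul_right _ hj
  rw [Nat.add_mul, one_mul] at this
  omega

/-- Change one cell of one row. -/
def upd (row : ℕ → ℕ → ℕ) (i f x : ℕ) : ℕ → ℕ → ℕ :=
  fun i' f' => if i' = i ∧ f' = f then x else row i' f'

theorem upd_self (row : ℕ → ℕ → ℕ) (i f x : ℕ) : upd row i f x i f = x := by simp [upd]

theorem upd_row (row : ℕ → ℕ → ℕ) {i i' : ℕ} (f x : ℕ) (h : i' ≠ i) :
    upd row i f x i' = row i' := by
  funext f'; simp [upd, h]

theorem upd_cell (row : ℕ → ℕ → ℕ) {i i' f f' : ℕ} (x : ℕ) (h : f' ≠ f) :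
    upd row i f x i' f' = row i' f' := by
  simp [upd, h]

theorem Rep.storeRow {n m : ℕ} {φ : CNF n m} {tab : ℕ → ℕ} {row : ℕ → ℕ → ℕ} {M : ℕ → ℕ}
    (h : Rep φ tab row M) {i f : ℕ} (hf : f < n + 2 * m + 1) (x : ℕ) :
    Rep φ tab (upd row i f x)
      (Function.update M (m * n + 4 ^ n + i * (n + 2 * m + 1) + f) x) := by
  have h4 : 0 < 4 ^ n := by positivity
  constructor
  · intro j hj v hv
    have := inp_lt hj hv
    rw [Function.update_of_ne (by omega)]
    exact h.inp j hj v hv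
  · intro c hc
    rw [Function.update_of_ne (by omega)]
    exact h.tb c hc
  · intro i' f' hf'
    unfold upd
    by_cases he : i' = i ∧ f' = f
    · rw [if_pos he, he.1, he.2, Function.update_self]
    · rw [if_neg he, Function.update_of_ne]
      · exact h.rw i' f' hf'
      · intro h'
        exact he (adr_inj hf hf' (by omega))

theorem Rep.storeTab {n m : ℕ} {φ : CNF n m} {tab : ℕ → ℕ} {row : ℕ → ℕ → ℕ} {M : ℕ → ℕ}
    (h : Rep φ tab row M) {c : ℕ} (hc : c < 4 ^ n) (x : ℕ) :
    Rep φ (Function.update tab c x) row (Function.update M (m * n + c) x) := by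
  constructor
  · intro j hj v hv
    have := inp_lt hj hv
    rw [Function.update_of_ne (by omega)]
    exact h.inp j hj v hv
  · intro c' hc'
    by_cases he : c' = c
    · rw [he, Function.update_self, Function.update_self]
    · rw [Function.update_of_ne (by omega), Function.update_of_ne he]
      exact h.tb c' hc'
  · intro i' f' hf'
    rw [Function.update_of_ne (by omega)]
    exact h.rw i' f' hf'

/-- Values of the constant registers. -/
structure Env (n m : ℕ) (s : St) : Prop where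
  r0 : s.reg 0 = n
  r1 : s.reg 1 = m
  r2 : s.reg 2 = 1
  r3 : s.reg 3 = m * n
  r4 : s.reg 4 = n + 2 * m + 1
  r5 : s.reg 5 = m * n + 4 ^ n
  r21 : s.reg 21 = 4
  r22 : s.reg 22 = 3
  r25 : s.reg 25 = 0
  r26 : s.reg 26 = n + 2 * m

/-- The registers that may change. -/
def Wk : List ℕ := [6, 7, 8, 9, 10, 11, 12, 13, 14, 15, 16, 17, 18, 19, 20, 23, 24]

theorem Env.keep {n m : ℕ} {s s' : St} (h : Env n m s) (hk : Keep Wk s s') : Env n m s' := by
  constructor
  · rw [hk 0 (by simp [Wk]), h.r0]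
  · rw [hk 1 (by simp [Wk]), h.r1]
  · rw [hk 2 (by simp [Wk]), h.r2]
  · rw [hk 3 (by simp [Wk]), h.r3]
  · rw [hk 4 (by simp [Wk]), h.r4]
  · rw [hk 5 (by simp [Wk]), h.r5]
  · rw [hk 21 (by simp [Wk]), h.r21]
  · rw [hk 22 (by simp [Wk]), h.r22]
  · rw [hk 25 (by simp [Wk]), h.r25]
  · rw [hk 26 (by simp [Wk]), h.r26]

/-! ### The innermost loop: intersection of a cube with a clause cube -/

/-- `r₂₀ := md r₁₈ r₁₉`, and `r₁₄ := 0` if the digits are incompatible. -/
def mdCode : Cmd :=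
  .seq (.op (.add 20 18 19)) (.seq (.ite 18 19 .skip (.ite 19 18 .skip (.op (.add 20 18 25))))
    (.ite 20 22 .skip (.seq (.op (.const 14 0)) (.op (.const 20 0)))))

theorem runs_mdCode {w a b : ℕ} {s : St} (h18 : s.reg 18 = a) (h19 : s.reg 19 = b)
    (h22 : s.reg 22 = 3) (h25 : s.reg 25 = 0) (hab : a + b < 2 ^ w) {Q : St → ℕ → Prop}
    (hQ : ∀ s' t, t ≤ 10 → Keep [14, 20] s s' → s'.mem = s.mem → s'.reg 20 = md a b →
      s'.reg 14 = (if ms a b < 3 then s.reg 14 else 0) → Q s' t) :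
    Runs w mdCode s Q := by
  have hfin : ∀ (s1 : St) (T : ℕ), T ≤ 5 → Keep [14, 20] s s1 → s1.mem = s.mem →
      s1.reg 20 = ms a b → s1.reg 14 = s.reg 14 →
      Runs w (.ite 20 22 .skip (.seq (.op (.const 14 0)) (.op (.const 20 0)))) s1
        (fun s' t => Q s' (1 + (T + t))) := by
    intro s1 T hT hk hm h20 h14
    have h22' : s1.reg 22 = 3 := by rw [hk 22 (by simp), h22]
    apply Runs.ite
    · intro hlt
      rw [h20, h22'] at hlt
      apply Runs.skip
      exact hQ s1 _ (by omega) hk hm (by rw [h20, md, if_pos hlt]) (by rw [h14, if_pos hlt])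
    · intro hlt
      rw [h20, h22'] at hlt
      apply Runs.seq
      apply Runs.const (by positivity)
      apply Runs.const (by positivity)
      refine hQ _ _ (by omega) ((hk.set (by simp) _).set (by simp) _) (by simp [hm]) ?_ ?_
      · simp [md, hlt]
      · simp [reg_set, hlt]
  unfold mdCode
  apply Runs.seq
  apply rAdd h18 h19 hab
  apply Runs.seq
  have e18 : (s.set 20 (a + b)).reg 18 = a := by simp [reg_set, h18]
  have e19 : (s.set 20 (a + b)).reg 19 = b := by simp [reg_set, h19]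
  have e25 : (s.set 20 (a + b)).reg 25 = 0 := by simp [reg_set, h25]
  have hk1 : Keep [14, 20] s (s.set 20 (a + b)) := (Keep.refl _ _).set (by simp) _
  apply Runs.ite
  · intro hlt
    rw [e18, e19] at hlt
    apply Runs.skip
    exact hfin _ _ (by omega) hk1 rfl (by simp [ms, show a ≠ b by omega]) (by simp [reg_set])
  · intro hlt
    rw [e18, e19] at hlt
    apply Runs.ite
    · intro hlt2
      rw [e18, e19] at hlt2
      apply Runs.skip
      exact hfin _ _ (by omega) hk1 rfl (by simp [ms, show a ≠ b by omega]) (by simp [reg_set])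
    · intro hlt2
      rw [e18, e19] at hlt2
      have hab' : a = b := by omega
      apply rAdd e18 e25 (by omega)
      exact hfin _ _ (by omega) (hk1.set (by simp) _) rfl (by simp [ms, hab'])
        (by simp [reg_set])

/-- Body of the innermost loop. -/
def vBody : Cmd :=
  .seq (.op (.load 18 15)) (.seq (.op (.load 19 16)) (.seq mdCode (.seq (.op (.store 17 20))
    (.seq (.op (.mul 12 12 21)) (.seq (.op (.add 12 12 20))
      (.seq (.ite 25 20 .skip (.op (.add 13 13 13))) (.seq (.op (.add 15 15 2))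
        (.seq (.op (.add 16 16 2)) (.seq (.op (.add 17 17 2)) (.op (.add 11 11 2)))))))))))

/-- Registers changed by the innermost loop. -/
def Lv : List ℕ := [11, 12, 13, 14, 15, 16, 17, 18, 19, 20]

theorem runs_vBody {w a b p q p' c z v : ℕ} {s : St} (h2 : s.reg 2 = 1)
    (h15 : s.reg 15 = p) (h16 : s.reg 16 = q) (h17 : s.reg 17 = p') (hma : s.mem p = a)
    (hmb : s.mem q = b) (h12 : s.reg 12 = c) (h13 : s.reg 13 = z) (h11 : s.reg 11 = v)
    (h22 : s.reg 22 = 3) (h25 : s.reg 25 = 0) (h21 : s.reg 21 = 4)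
    (ha : a < 3) (hb : b < 4) (hw : 3 < w) (hp : p + 1 < 2 ^ w) (hq : q + 1 < 2 ^ w)
    (hp' : p' + 1 < 2 ^ w) (hc : c * 4 + 3 < 2 ^ w) (hz : z + z < 2 ^ w) (hv : v + 1 < 2 ^ w)
    {Q : St → ℕ → Prop}
    (hQ : ∀ s' t, t ≤ 23 → Keep Lv s s' → s'.mem = Function.update s.mem p' (md a b) →
      s'.reg 12 = c * 4 + md a b → s'.reg 13 = (if md a b = 0 then z + z else z) →
      s'.reg 14 = (if ms a b < 3 then s.reg 14 else 0) → s'.reg 15 = p + 1 → s'.reg 16 = q + 1 →
      s'.reg 17 = p' + 1 → s'.reg 11 = v + 1 → Q s' t) :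
    Runs w vBody s Q := by
  have hw4 : 2 ^ 4 ≤ 2 ^ w := Nat.pow_le_pow_right (by norm_num) hw
  unfold vBody
  apply Runs.seq
  apply rLoad h15 hma (by omega)
  apply Runs.seq
  apply rLoad (x := q) (y := b) (by simp [reg_set, h16]) (by simp [hmb]) (by omega)
  apply Runs.seq
  apply runs_mdCode (a := a) (b := b) (by simp [reg_set]) (by simp [reg_set])
    (by simp [reg_set, h22]) (by simp [reg_set, h25]) (by omega)
  intro s1 t1 ht1 hk1 hm1 h20 h14
  have hk : ∀ x, x ≠ 14 → x ≠ 20 → x ≠ 18 → x ≠ 19 → s1.reg x = s.reg x := by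
    intro x h1 h2 h3 h4
    rw [hk1 x (by simp [h1, h2]), reg_set, if_neg h4, reg_set, if_neg h3]
  have hmd := md_lt a b
  apply Runs.seq
  apply rStore (x := p') (y := md a b) (by rw [hk 17 (by norm_num) (by norm_num) (by norm_num) (by norm_num), h17]) h20
  apply Runs.seq
  apply rMul (x := c) (y := 4)
    (by rw [setm_reg, hk 12 (by norm_num) (by norm_num) (by norm_num) (by norm_num), h12])
    (by rw [setm_reg, hk 21 (by norm_num) (by norm_num) (by norm_num) (by norm_num), h21]) (by omega)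
  apply Runs.seq
  apply rAdd (x := c * 4) (y := md a b) (by simp [reg_set]) (by simp [reg_set, h20]) (by omega)
  apply Runs.seq
  -- the conditional doubling
  have hkeep : Keep Lv s (((setm s1 p' (md a b)).set 12 (c * 4)).set 12 (c * 4 + md a b)) := by
    have h0 : Keep Lv s ((s.set 18 a).set 19 b) :=
      ((Keep.refl _ _).set (by simp [Lv]) _).set (by simp [Lv]) _
    exact (((h0.trans (hk1.mono (by simp [Lv]))).setm _ _).set (by simp [Lv]) _).set (by simp [Lv]) _
  have hfin : ∀ (s2 : St) (T : ℕ), T ≤ 3 → Keep Lv s s2 →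
      s2.mem = Function.update s.mem p' (md a b) → s2.reg 12 = c * 4 + md a b →
      s2.reg 13 = (if md a b = 0 then z + z else z) →
      s2.reg 14 = (if ms a b < 3 then s.reg 14 else 0) → s2.reg 15 = p → s2.reg 16 = q →
      s2.reg 17 = p' → s2.reg 11 = v →
      Runs w (.seq (.op (.add 15 15 2)) (.seq (.op (.add 16 16 2)) (.seq (.op (.add 17 17 2))
        (.op (.add 11 11 2))))) s2
        (fun s' t => Q s' (1 + (1 + (t1 + (1 + (1 + (1 + (T + t)))))))) := by
    intro s2 T hT hk2 hm2 g12 g13 g14 g15 g16 g17 g11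
    have g2 : s2.reg 2 = 1 := by rw [hk2 2 (by simp [Lv]), h2]
    apply Runs.seq
    apply rAdd g15 g2 hp
    apply Runs.seq
    apply rAdd (x := q) (y := 1) (by simp [reg_set, g16]) (by simp [reg_set, g2]) hq
    apply Runs.seq
    apply rAdd (x := p') (y := 1) (by simp [reg_set, g17]) (by simp [reg_set, g2]) hp'
    apply rAdd (x := v) (y := 1) (by simp [reg_set, g11]) (by simp [reg_set, g2]) hv
    refine hQ _ _ (by omega) ((((hk2.set (by simp [Lv]) _).set (by simp [Lv]) _).set
      (by simp [Lv]) _).set (by simp [Lv]) _) (by simp [hm2]) ?_ ?_ ?_ ?_ ?_ ?_ ?_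
    · simp [reg_set, g12]
    · simp [reg_set, g13]
    · simp [reg_set, g14]
    · simp [reg_set]
    · simp [reg_set]
    · simp [reg_set]
    · simp [reg_set]
  have e25 : (((setm s1 p' (md a b)).set 12 (c * 4)).set 12 (c * 4 + md a b)).reg 25 = 0 := by
    rw [hkeep 25 (by simp [Lv]), h25]
  have e20 : (((setm s1 p' (md a b)).set 12 (c * 4)).set 12 (c * 4 + md a b)).reg 20 = md a b := by
    simp [reg_set, h20]
  have e13 : (((setm s1 p' (md a b)).set 12 (c * 4)).set 12 (c * 4 + md a b)).reg 13 = z := by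
    simp [reg_set, hk 13, h13]
  have e15 : (((setm s1 p' (md a b)).set 12 (c * 4)).set 12 (c * 4 + md a b)).reg 15 = p := by
    simp [reg_set, hk 15, h15]
  have e16 : (((setm s1 p' (md a b)).set 12 (c * 4)).set 12 (c * 4 + md a b)).reg 16 = q := by
    simp [reg_set, hk 16, h16]
  have e17 : (((setm s1 p' (md a b)).set 12 (c * 4)).set 12 (c * 4 + md a b)).reg 17 = p' := by
    simp [reg_set, hk 17, h17]
  have e11 : (((setm s1 p' (md a b)).set 12 (c * 4)).set 12 (c * 4 + md a b)).reg 11 = v := by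
    simp [reg_set, hk 11, h11]
  have e14 : (((setm s1 p' (md a b)).set 12 (c * 4)).set 12 (c * 4 + md a b)).reg 14
      = (if ms a b < 3 then s.reg 14 else 0) := by
    simp [reg_set, h14]
  have em : (((setm s1 p' (md a b)).set 12 (c * 4)).set 12 (c * 4 + md a b)).mem
      = Function.update s.mem p' (md a b) := by
    simp [hm1]
  apply Runs.ite
  · intro hlt
    rw [e25, e20] at hlt
    apply Runs.skip
    exact hfin _ _ (by omega) hkeep em (by simp) (by rw [e13, if_neg (by omega)]) e14 e15 e16 e17 e11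
  · intro hlt
    rw [e25, e20] at hlt
    apply rAdd e13 e13 hz
    refine hfin _ _ (by omega) (hkeep.set (by simp [Lv]) _) (by simp [hm1]) (by simp [reg_set])
      ?_ ?_ ?_ ?_ ?_ ?_
    · rw [St.set_reg_self, if_pos (by omega)]
    · rw [reg_set, if_neg (by norm_num), e14]
    · rw [reg_set, if_neg (by norm_num), e15]
    · rw [reg_set, if_neg (by norm_num), e16]
    · rw [reg_set, if_neg (by norm_num), e17]
    · rw [reg_set, if_neg (by norm_num), e11]

/-- The innermost loop. -/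
def vCode : Cmd :=
  .seq (.op (.const 11 0)) (.seq (.op (.const 12 0)) (.seq (.op (.const 13 1))
    (.seq (.op (.const 14 1)) (.seq (.op (.add 15 7 25)) (.seq (.op (.add 16 9 25))
      (.seq (.op (.add 17 6 25)) (.loop 11 0 vBody)))))))

instance (n : ℕ) (r e : ℕ → ℕ) : Decidable (compat n r e) := by unfold compat; infer_instance

theorem runs_vCode {w n m : ℕ} {φ : CNF n m} {s : St} (hE : Env n m s) {tab : ℕ → ℕ}
    {row : ℕ → ℕ → ℕ} (hR : Rep φ tab row s.mem) {i N k : ℕ} (hi : i < N) (hk : k < m)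
    (hr : ∀ v < n, row i v < 3) (h6 : s.reg 6 = m * n + 4 ^ n + N * (n + 2 * m + 1))
    (h7 : s.reg 7 = m * n + 4 ^ n + i * (n + 2 * m + 1)) (h9 : s.reg 9 = k * n)
    (hw : 3 < w) (hN : m * n + 4 ^ n + N * (n + 2 * m + 1) + (n + 2 * m + 1) < 2 ^ w)
    (hw4 : 4 * 4 ^ n < 2 ^ w)
    {Q : St → ℕ → Prop}
    (hQ : ∀ s' t row', t ≤ 25 * n + 9 → Keep Lv s s' → Rep φ tab row' s'.mem →
      (∀ i', i' ≠ N → row' i' = row i') → (∀ v < n, row' N v = md (row i v) (φ.ent k v)) →
      s'.reg 12 = cod (fun v => md (row i v) (φ.ent k v)) n →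
      s'.reg 13 = sz (fun v => md (row i v) (φ.ent k v)) n →
      s'.reg 14 = (if compat n (row i) (φ.ent k) then 1 else 0) → s'.reg 16 = k * n + n →
      Q s' t) :
    Runs w vCode s Q := by
  set S := n + 2 * m + 1 with hS
  set R := m * n + 4 ^ n with hRR
  have hiN : i * S + S ≤ N * S := by
    have : (i + 1) * S ≤ N * S := Nat.mul_le_mul_right _ hi
    rwa [Nat.add_mul, one_mul] at this
  have hkm : k * n + n ≤ m * n := by
    have : (k + 1) * n ≤ m * n := Nat.mul_le_mul_right _ hk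
    rwa [Nat.add_mul, one_mul] at this
  have hw1 : 1 < 2 ^ w := by
    have : 2 ^ 4 ≤ 2 ^ w := Nat.pow_le_pow_right (by norm_num) hw
    omega
  unfold vCode
  apply Runs.seq
  apply Runs.const (by omega)
  apply Runs.seq
  apply Runs.const (by omega)
  apply Runs.seq
  apply Runs.const hw1
  apply Runs.seq
  apply Runs.const hw1
  apply Runs.seq
  apply rAdd (x := R + i * S) (y := 0) (by simp [reg_set, h7]) (by simp [reg_set, hE.r25]) (by omega)
  apply Runs.seq
  apply rAdd (x := k * n) (y := 0) (by simp [reg_set, h9]) (by simp [reg_set, hE.r25]) (by omega)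
  apply Runs.seq
  apply rAdd (x := R + N * S) (y := 0) (by simp [reg_set, h6]) (by simp [reg_set, hE.r25]) (by omega)
  set mt : ℕ → ℕ := fun v => md (row i v) (φ.ent k v) with hmt
  refine Runs.loop n (fun q s' τ => τ ≤ 25 * q ∧ Keep Lv s s' ∧ ∃ row', Rep φ tab row' s'.mem ∧
      (∀ i', i' ≠ N → row' i' = row i') ∧ (∀ v < q, row' N v = mt v) ∧
      s'.reg 11 = q ∧ s'.reg 12 = cod mt q ∧ s'.reg 13 = sz mt q ∧
      s'.reg 14 = (if ∀ v < q, ms (row i v) (φ.ent k v) < 3 then 1 else 0) ∧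
      s'.reg 15 = R + i * S + q ∧ s'.reg 16 = k * n + q ∧ s'.reg 17 = R + N * S + q) ?_ ?_ ?_ ?_
  · rintro q s' τ hq ⟨hτ, hK, row', hR', hr1, hr2, g11, g12, g13, g14, g15, g16, g17⟩
    have hE' : Env n m s' := hE.keep (hK.mono (by simp [Lv, Wk]))
    refine ⟨by rw [g11, hE'.r0]; exact hq, ?_⟩
    have hri : row' i q = row i q := by rw [hr1 i (by omega)]
    have hcod := cod_lt (r := mt) (n := q) (fun v _ => md_lt _ _)
    have hszle := sz_le mt q
    have h4q : 4 ^ q ≤ 4 ^ n := Nat.pow_le_pow_right (by norm_num) hq.le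
    have h2q : 2 ^ q ≤ 4 ^ q := Nat.pow_le_pow_left (by norm_num) _
    have hS1 : n < S := by omega
    apply runs_vBody (a := row i q) (b := φ.ent k q) hE'.r2 g15 g16 g17
      (by rw [hR'.rw i q (by omega), hri]) (hR'.inp k hk q hq) g12 g13 g11 hE'.r22 hE'.r25 hE'.r21
      (hr q hq) (ent_lt φ k q) hw (by omega) (by omega) (by omega) (by omega) (by omega) (by omega)
    intro s2 t ht hK2 hm2 f12 f13 f14 f15 f16 f17 f11
    refine ⟨by omega, hK.trans hK2, upd row' N q (mt q), ?_, ?_, ?_, by rw [f11], ?_, ?_, ?_, ?_, ?_, ?_⟩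
    · rw [hm2]; exact hR'.storeRow (by omega) _
    · intro i' hi'
      rw [upd_row _ _ _ hi', hr1 i' hi']
    · intro v hv
      rcases Nat.lt_succ_iff_lt_or_eq.mp hv with hv | hv
      · rw [upd_cell _ _ (by omega), hr2 v hv]
      · rw [hv, upd_self]
    · rw [f12]; rfl
    · rw [f13]; rfl
    · rw [f14, g14]
      by_cases h1 : ms (row i q) (φ.ent k q) < 3
      · by_cases h2 : ∀ v < q, ms (row i v) (φ.ent k v) < 3
        · rw [if_pos h1, if_pos h2, if_pos]
          intro v hv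
          rcases Nat.lt_succ_iff_lt_or_eq.mp hv with hv | hv
          · exact h2 v hv
          · rw [hv]; exact h1
        · rw [if_pos h1, if_neg h2, if_neg (fun h => h2 (fun v hv => h v (by omega)))]
      · rw [if_neg h1, if_neg (fun h => h1 (h q (by omega)))]
    · rw [f15]; ring
    · rw [f16]; ring
    · rw [f17]; ring
  · rintro s' τ ⟨hτ, hK, row', hR', hr1, hr2, g11, -⟩
    rw [g11, (hE.keep (hK.mono (by simp [Lv, Wk]))).r0]; omega
  · refine ⟨by omega, ?_, row, ?_, fun _ _ => rfl, fun v hv => absurd hv (by omega), ?_, ?_, ?_, ?_,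
      ?_, ?_, ?_⟩
    · exact (((((((Keep.refl _ _).set (by simp [Lv]) _).set (by simp [Lv]) _).set
        (by simp [Lv]) _).set (by simp [Lv]) _).set (by simp [Lv]) _).set (by simp [Lv]) _).set
        (by simp [Lv]) _
    · simpa using hR
    all_goals simp [reg_set, cod, sz]
  · rintro s' τ ⟨hτ, hK, row', hR', hr1, hr2, g11, g12, g13, g14, g15, g16, g17⟩
    refine hQ s' _ row' (by omega) hK hR' hr1 hr2 g12 g13 ?_ g16
    rw [g14]
    rfl

/-! ### The tables -/

/-- The tables describe `N` distinct cubes, all of them intersections of clause cubes. -/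
structure Tabs {n m : ℕ} (φ : CNF n m) (N : ℕ) (tab : ℕ → ℕ) (row : ℕ → ℕ → ℕ) : Prop where
  pos : 0 < N
  zero : ∀ v < n, row 0 v = 0
  good : ∀ i < N, Good φ (row i)
  dist : ∀ i < N, ∀ i' < N, (∀ v < n, row i v = row i' v) → i = i'
  size : ∀ i < N, row i (n + 2 * m) = sz (row i) n
  tab1 : ∀ i < N, tab (cod (row i) n) = m * n + 4 ^ n + i * (n + 2 * m + 1)
  tab2 : ∀ c < 4 ^ n, tab c ≠ 0 → ∃ i < N, cod (row i) n = c

theorem Tabs.le {n m : ℕ} {φ : CNF n m} {N : ℕ} {tab : ℕ → ℕ} {row : ℕ → ℕ → ℕ}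
    (h : Tabs φ N tab row) : N ≤ φ.numFlats := rows_le h.good h.dist

theorem Tabs.congr {n m : ℕ} {φ : CNF n m} {N : ℕ} {tab : ℕ → ℕ} {row row' : ℕ → ℕ → ℕ}
    (h : Tabs φ N tab row) (hr : ∀ i < N, ∀ f, (f < n ∨ f = n + 2 * m) → row' i f = row i f) :
    Tabs φ N tab row' := by
  have hd : ∀ i < N, ∀ v < n, row' i v = row i v := fun i hi v hv => hr i hi v (Or.inl hv)
  constructor
  · exact h.pos
  · intro v hv; rw [hd 0 h.pos v hv]; exact h.zero v hv
  · intro i hi; exact (h.good i hi).congr (hd i hi)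
  · intro i hi i' hi' he
    exact h.dist i hi i' hi' (fun v hv => by rw [← hd i hi v hv, ← hd i' hi' v hv]; exact he v hv)
  · intro i hi
    rw [hr i hi _ (Or.inr rfl), h.size i hi]
    exact sz_congr (fun v hv => (hd i hi v hv).symm)
  · intro i hi
    rw [cod_congr (hd i hi)]; exact h.tab1 i hi
  · intro c hc h0
    obtain ⟨i, hi, he⟩ := h.tab2 c hc h0
    exact ⟨i, hi, by rw [cod_congr (hd i hi)]; exact he⟩

/-- Cell `n + k` of row `i` points to the intersection of cube `i` with the cube of clause `k`,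
or is `0` if that intersection is empty. -/
def ESpec {n m : ℕ} (φ : CNF n m) (N : ℕ) (row : ℕ → ℕ → ℕ) (i k : ℕ) : Prop :=
  (compat n (row i) (φ.ent k) → ∃ e < N, (∀ v < n, row e v = md (row i v) (φ.ent k v)) ∧
    row i (n + k) = m * n + 4 ^ n + e * (n + 2 * m + 1)) ∧
  (¬ compat n (row i) (φ.ent k) → row i (n + k) = 0)

theorem compat_congr {n : ℕ} {r r' e : ℕ → ℕ} (h : ∀ v < n, r v = r' v) :
    compat n r e ↔ compat n r' e := by
  unfold compat
  exact forall₂_congr fun v hv => by rw [h v hv]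

theorem ESpec.congr {n m : ℕ} {φ : CNF n m} {N N' : ℕ} {row row' : ℕ → ℕ → ℕ} {i k : ℕ}
    (h : ESpec φ N row i k) (hN : N ≤ N') (hi : i < N)
    (hr : ∀ i < N, ∀ v < n, row' i v = row i v) (hc : row' i (n + k) = row i (n + k)) :
    ESpec φ N' row' i k := by
  obtain ⟨h1, h2⟩ := h
  refine ⟨fun h => ?_, fun h => ?_⟩
  · rw [compat_congr (hr i hi)] at h
    obtain ⟨e, he, h3, h4⟩ := h1 h
    exact ⟨e, by omega, fun v hv => by rw [hr e he v hv, hr i hi v hv]; exact h3 v hv,
      by rw [hc, h4]⟩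
  · rw [compat_congr (hr i hi)] at h
    rw [hc]; exact h2 h

theorem Tabs.insert {n m : ℕ} {φ : CNF n m} {N : ℕ} {tab : ℕ → ℕ} {row : ℕ → ℕ → ℕ}
    (h : Tabs φ N tab row) (hg : Good φ (row N)) (hs : row N (n + 2 * m) = sz (row N) n)
    (h0 : tab (cod (row N) n) = 0) :
    Tabs φ (N + 1) (Function.update tab (cod (row N) n) (m * n + 4 ^ n + N * (n + 2 * m + 1)))
      row := by
  have h4 : 0 < 4 ^ n := by positivity
  have hne : ∀ i < N, cod (row i) n ≠ cod (row N) n := by
    intro i hi he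
    have := h.tab1 i hi
    rw [he, h0] at this
    omega
  constructor
  · omega
  · exact h.zero
  · intro i hi
    rcases Nat.lt_succ_iff_lt_or_eq.mp hi with hi | hi
    · exact h.good i hi
    · rw [hi]; exact hg
  · intro i hi i' hi' he
    rcases Nat.lt_succ_iff_lt_or_eq.mp hi with hi | hi
    · rcases Nat.lt_succ_iff_lt_or_eq.mp hi' with hi' | hi'
      · exact h.dist i hi i' hi' he
      · rw [hi'] at he
        exact absurd (cod_congr he) (hne i hi)
    · rcases Nat.lt_succ_iff_lt_or_eq.mp hi' with hi' | hi'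
      · rw [hi] at he
        exact absurd (cod_congr he).symm (hne i' hi')
      · omega
  · intro i hi
    rcases Nat.lt_succ_iff_lt_or_eq.mp hi with hi | hi
    · exact h.size i hi
    · rw [hi]; exact hs
  · intro i hi
    rcases Nat.lt_succ_iff_lt_or_eq.mp hi with hi | hi
    · rw [Function.update_of_ne (hne i hi)]; exact h.tab1 i hi
    · rw [hi, Function.update_self]
  · intro c hc h0
    by_cases he : c = cod (row N) n
    · exact ⟨N, by omega, he.symm⟩
    · rw [Function.update_of_ne he] at h0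
      obtain ⟨i, hi, he⟩ := h.tab2 c hc h0
      exact ⟨i, by omega, he⟩

/-! ### Looking up a cube in the table -/

def newCode : Cmd :=
  .seq (.op (.store 24 6)) (.seq (.op (.add 23 6 25)) (.seq (.op (.add 24 6 26))
    (.seq (.op (.store 24 13)) (.op (.add 6 6 4)))))

def lookCode : Cmd :=
  .seq (.op (.add 24 3 12)) (.seq (.op (.load 23 24)) (.ite 25 23 .skip newCode))

theorem runs_lookCode {w n m : ℕ} {φ : CNF n m} {s : St} (hE : Env n m s) {tab : ℕ → ℕ}
    {row : ℕ → ℕ → ℕ} {N : ℕ} (hR : Rep φ tab row s.mem) (hT : Tabs φ N tab row)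
    (h6 : s.reg 6 = m * n + 4 ^ n + N * (n + 2 * m + 1))
    (hB : m * n + 4 ^ n + (φ.numFlats + 1) * (n + 2 * m + 1) < 2 ^ w)
    (hg : Good φ (row N)) (h12 : s.reg 12 = cod (row N) n) (h13 : s.reg 13 = sz (row N) n)
    {Q : St → ℕ → Prop}
    (hQ : ∀ s' t N' tab' row' e, t ≤ 12 → Keep [6, 23, 24] s s' → N ≤ N' →
      Rep φ tab' row' s'.mem → Tabs φ N' tab' row' → (∀ i < N, row' i = row i) →
      e < N' → (∀ v < n, row' e v = row N v) →
      s'.reg 23 = m * n + 4 ^ n + e * (n + 2 * m + 1) →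
      s'.reg 6 = m * n + 4 ^ n + N' * (n + 2 * m + 1) → Q s' t) :
    Runs w lookCode s Q := by
  set S := n + 2 * m + 1 with hS
  set R := m * n + 4 ^ n with hRR
  have hcod := cod_lt (n := n) hg.lt
  have hNle := hT.le
  have hNS : N * S ≤ φ.numFlats * S := Nat.mul_le_mul_right _ hNle
  have hB' : R + φ.numFlats * S + S < 2 ^ w := by rw [Nat.add_mul, one_mul] at hB; omega
  unfold lookCode
  apply Runs.seq
  apply rAdd hE.r3 h12 (by omega)
  apply Runs.seq
  apply rLoad (x := m * n + cod (row N) n) (y := tab (cod (row N) n)) (by simp)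
    (by rw [St.set_mem]; exact hR.tb _ hcod)
  · by_cases h0 : tab (cod (row N) n) = 0
    · rw [h0]; omega
    · obtain ⟨i, hi, he⟩ := hT.tab2 _ hcod h0
      have h5 : tab (cod (row i) n) = R + i * S := hT.tab1 i hi
      rw [← he, h5]
      have : i * S ≤ φ.numFlats * S := Nat.mul_le_mul_right _ (by omega)
      omega
  set s1 := (s.set 24 (m * n + cod (row N) n)).set 23 (tab (cod (row N) n)) with hs1
  have hk1 : Keep [6, 23, 24] s s1 :=
    ((Keep.refl _ _).set (by simp) _).set (by simp) _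
  have e25 : s1.reg 25 = 0 := by rw [hk1 25 (by simp), hE.r25]
  have e23 : s1.reg 23 = tab (cod (row N) n) := by simp [hs1]
  have e6 : s1.reg 6 = R + N * S := by simp [hs1, reg_set, h6]
  apply Runs.ite
  · intro hlt
    rw [e25, e23] at hlt
    apply Runs.skip
    obtain ⟨e, he, hec⟩ := hT.tab2 _ hcod (by omega)
    have hev := cod_inj (hT.good e he).lt hg.lt hec
    refine hQ s1 _ N tab row e (by omega) hk1 le_rfl (by simpa [hs1] using hR) hT
      (fun _ _ => rfl) he hev ?_ e6
    rw [e23, ← hec]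
    exact hT.tab1 e he
  · intro hlt
    rw [e25, e23] at hlt
    have h0 : tab (cod (row N) n) = 0 := by omega
    have e24 : s1.reg 24 = m * n + cod (row N) n := by simp [hs1, reg_set]
    have e13 : s1.reg 13 = sz (row N) n := by simp [hs1, reg_set, h13]
    have e26 : s1.reg 26 = n + 2 * m := by rw [hk1 26 (by simp), hE.r26]
    have e4 : s1.reg 4 = S := by rw [hk1 4 (by simp), hE.r4]
    unfold newCode
    apply Runs.seq
    apply rStore e24 e6
    apply Runs.seq
    apply rAdd (x := R + N * S) (y := 0) (by simp [e6]) (by simp [e25]) (by omega)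
    apply Runs.seq
    apply rAdd (x := R + N * S) (y := n + 2 * m) (by simp [reg_set, e6])
      (by simp [reg_set, e26]) (by omega)
    apply Runs.seq
    apply rStore (x := R + N * S + (n + 2 * m)) (y := sz (row N) n) (by simp)
      (by simp [reg_set, e13])
    apply rAdd (x := R + N * S) (y := S) (by simp [reg_set, e6]) (by simp [reg_set, e4]) (by omega)
    have hR1 : Rep φ tab row s1.mem := by simpa [hs1] using hR
    have hR2 := (hR1.storeTab hcod (R + N * S)).storeRow (i := N) (f := n + 2 * m) (by omega)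
      (sz (row N) n)
    set row2 := upd row N (n + 2 * m) (sz (row N) n) with hrow2
    have hrN : ∀ v < n, row2 N v = row N v := fun v hv => upd_cell _ _ (by omega)
    have hT2 : Tabs φ N tab row2 := hT.congr (fun i hi f _ => by rw [hrow2, upd_row _ _ _ (by omega)])
    have hc2 : cod (row2 N) n = cod (row N) n := cod_congr hrN
    have hT3 := hT2.insert (hg.congr hrN) (by rw [hrow2, upd_self]; exact (sz_congr hrN).symm)
      (by rw [hc2]; exact h0)
    rw [hc2] at hT3
    refine hQ _ _ (N + 1) _ row2 N (by omega) ?_ (by omega) ?_ hT3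
      (fun i hi => upd_row _ _ _ (by omega)) (by omega) hrN ?_ ?_
    · exact ((((hk1.setm _ _).set (by simp) _).set (by simp) _).setm _ _).set (by simp) _
    · simpa using hR2
    · simp [reg_set, hS, hRR]
    · simp only [St.set_reg_self]; ring

/-! ### One row, one clause -/

def kBody : Cmd :=
  .seq vCode (.seq (.op (.const 23 0)) (.seq (.ite 25 14 lookCode .skip)
    (.seq (.op (.store 10 23)) (.seq (.op (.add 9 16 25)) (.seq (.op (.add 10 10 2))
      (.op (.add 8 8 2)))))))

/-- Registers changed by the body of the loop over the clauses. -/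
def Lk : List ℕ := [6, 8, 9, 10, 11, 12, 13, 14, 15, 16, 17, 18, 19, 20, 23, 24]

theorem runs_kBody {w n m : ℕ} {φ : CNF n m} {s : St} (hE : Env n m s) {tab : ℕ → ℕ}
    {row : ℕ → ℕ → ℕ} {i N k : ℕ} (hi : i < N) (hk : k < m) (hR : Rep φ tab row s.mem)
    (hT : Tabs φ N tab row)
    (h6 : s.reg 6 = m * n + 4 ^ n + N * (n + 2 * m + 1))
    (h7 : s.reg 7 = m * n + 4 ^ n + i * (n + 2 * m + 1)) (h8 : s.reg 8 = k)
    (h9 : s.reg 9 = k * n)
    (h10 : s.reg 10 = m * n + 4 ^ n + i * (n + 2 * m + 1) + n + k) (hw : 3 < w)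
    (hw4 : 4 * 4 ^ n < 2 ^ w) (hB : m * n + 4 ^ n + (φ.numFlats + 1) * (n + 2 * m + 1) < 2 ^ w)
    {Q : St → ℕ → Prop}
    (hQ : ∀ s' t N' tab' row', t ≤ 25 * n + 30 → Keep Lk s s' → N ≤ N' →
      Rep φ tab' row' s'.mem → Tabs φ N' tab' row' →
      (∀ i' < N, ∀ f < n + m, ¬ (i' = i ∧ f = n + k) → row' i' f = row i' f) →
      ESpec φ N' row' i k →
      s'.reg 6 = m * n + 4 ^ n + N' * (n + 2 * m + 1) → s'.reg 8 = k + 1 →
      s'.reg 9 = (k + 1) * n →
      s'.reg 10 = m * n + 4 ^ n + i * (n + 2 * m + 1) + n + (k + 1) → Q s' t) :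
    Runs w kBody s Q := by
  set S := n + 2 * m + 1 with hS
  set R := m * n + 4 ^ n with hRR
  have hNle := hT.le
  have hNS : N * S ≤ φ.numFlats * S := Nat.mul_le_mul_right _ hNle
  have hiS : i * S + S ≤ N * S := by
    have : (i + 1) * S ≤ N * S := Nat.mul_le_mul_right _ hi
    rwa [Nat.add_mul, one_mul] at this
  have hB' : R + φ.numFlats * S + S < 2 ^ w := by rw [Nat.add_mul, one_mul] at hB; omega
  have hkm : k * n + n ≤ m * n := by
    have : (k + 1) * n ≤ m * n := Nat.mul_le_mul_right _ hk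
    rwa [Nat.add_mul, one_mul] at this
  have hw1 : 1 < 2 ^ w := by
    have : 2 ^ 4 ≤ 2 ^ w := Nat.pow_le_pow_right (by norm_num) hw
    omega
  have hNb : R + N * S + S < 2 ^ w := by omega
  unfold kBody
  apply Runs.seq
  apply runs_vCode hE hR hi hk (hT.good i hi).lt h6 h7 h9 hw hNb hw4
  intro s1 t1 row1 ht1 hK1 hR1 hr1 hr2 g12 g13 g14 g16
  have hrow1 : ∀ i' < N, row1 i' = row i' := fun i' hi' => hr1 i' (by omega)
  have hE1 : Env n m s1 := hE.keep (hK1.mono (by simp [Lv, Wk]))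
  have hT1 : Tabs φ N tab row1 := hT.congr (fun i' hi' f _ => by rw [hrow1 i' hi'])
  apply Runs.seq
  apply Runs.const (by omega)
  -- the end of the code
  have hfin : ∀ (s2 : St) (T N2 : ℕ) (tab2 : ℕ → ℕ) (row2 : ℕ → ℕ → ℕ) (x : ℕ), T ≤ 15 →
      Keep Lk s s2 → N ≤ N2 → Rep φ tab2 row2 s2.mem → Tabs φ N2 tab2 row2 →
      (∀ i' < N, row2 i' = row i') → s2.reg 23 = x →
      (compat n (row i) (φ.ent k) → ∃ e < N2, (∀ v < n, row2 e v = md (row i v) (φ.ent k v)) ∧
        x = R + e * S) → (¬ compat n (row i) (φ.ent k) → x = 0) →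
      s2.reg 6 = R + N2 * S → s2.reg 8 = k → s2.reg 10 = R + i * S + n + k →
      s2.reg 16 = k * n + n →
      Runs w (.seq (.op (.store 10 23)) (.seq (.op (.add 9 16 25)) (.seq (.op (.add 10 10 2))
        (.op (.add 8 8 2))))) s2 (fun s' t => Q s' (t1 + (1 + (T + t)))) := by
    intro s2 T N2 tab2 row2 x hT' hK2 hNN hR2 hT2 hrow2 f23 hx1 hx2 f6 f8 f10 f16
    have hE2 : Env n m s2 := hE.keep (hK2.mono (by simp [Lk, Wk]))
    have hN2le := hT2.le
    apply Runs.seq
    apply rStore f10 f23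
    apply Runs.seq
    apply rAdd (x := k * n + n) (y := 0) (by simp [f16]) (by simp [hE2.r25]) (by omega)
    apply Runs.seq
    apply rAdd (x := R + i * S + n + k) (y := 1) (by simp [reg_set, f10])
      (by simp [reg_set, hE2.r2]) (by omega)
    apply rAdd (x := k) (y := 1) (by simp [reg_set, f8]) (by simp [reg_set, hE2.r2]) (by omega)
    set row3 := upd row2 i (n + k) x with hrow3
    have hR3 : Rep φ tab2 row3 (Function.update s2.mem (R + i * S + (n + k)) x) :=
      hR2.storeRow (i := i) (f := n + k) (by omega) x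
    have hcell : ∀ i' v, v < n → row3 i' v = row2 i' v := fun i' v hv =>
      upd_cell _ _ (by omega)
    have hT3 : Tabs φ N2 tab2 row3 := hT2.congr (fun i' hi' f hf => upd_cell _ _ (by omega))
    have hi2 : ∀ v < n, row3 i v = row i v := fun v hv => by rw [hcell i v hv, hrow2 i hi]
    refine hQ _ _ N2 tab2 row3 (by omega) ?_ hNN ?_ hT3 ?_ ?_ ?_ ?_ ?_ ?_
    · exact (((hK2.setm _ _).set (by simp [Lk]) _).set (by simp [Lk]) _).set (by simp [Lk]) _
    · simp only [St.set_mem, setm_mem]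
      rw [show R + i * S + n + k = R + i * S + (n + k) by ring]
      exact hR3
    · intro i' hi' f hf hne
      rw [← hrow2 i' hi']
      simp only [hrow3, upd]
      rw [if_neg hne]
    · constructor
      · intro hc
        rw [compat_congr hi2] at hc
        obtain ⟨e, he, h1, h2⟩ := hx1 hc
        refine ⟨e, he, fun v hv => by rw [hcell e v hv, h1 v hv, hi2 v hv], ?_⟩
        rw [hrow3, upd_self, h2]
      · intro hc
        rw [compat_congr hi2] at hc
        rw [hrow3, upd_self, hx2 hc]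
    · simp [reg_set, f6]
    · simp
    · simp only [reg_set]; norm_num; ring
    · simp only [reg_set]; norm_num; ring
  set s1' := s1.set 23 0 with hs1'
  have hK1' : Keep Lk s s1' := (hK1.mono (by simp [Lv, Lk])).set (by simp [Lk]) _
  have hE1' : Env n m s1' := hE.keep (hK1'.mono (by simp [Lk, Wk]))
  have e14 : s1'.reg 14 = (if compat n (row i) (φ.ent k) then 1 else 0) := by
    simp only [hs1', reg_set]; norm_num; exact g14
  have e6 : s1'.reg 6 = R + N * S := by
    simp only [hs1', reg_set]; norm_num; rw [hK1 6 (by simp [Lv]), h6]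
  have e8 : s1'.reg 8 = k := by
    simp only [hs1', reg_set]; norm_num; rw [hK1 8 (by simp [Lv]), h8]
  have e10 : s1'.reg 10 = R + i * S + n + k := by
    simp only [hs1', reg_set]; norm_num; rw [hK1 10 (by simp [Lv]), h10]
  have e16 : s1'.reg 16 = k * n + n := by
    simp only [hs1', reg_set]; norm_num; exact g16
  have e12 : s1'.reg 12 = cod (row1 N) n := by
    simp only [hs1', reg_set]; norm_num; rw [g12]; exact cod_congr (fun v hv => (hr2 v hv).symm)
  have e13 : s1'.reg 13 = sz (row1 N) n := by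
    simp only [hs1', reg_set]; norm_num; rw [g13]; exact sz_congr (fun v hv => (hr2 v hv).symm)
  have hR1' : Rep φ tab row1 s1'.mem := by simpa [hs1'] using hR1
  apply Runs.seq
  by_cases hc : compat n (row i) (φ.ent k)
  · rw [if_pos hc] at e14
    apply Runs.ite
    · intro _
      have hgood : Good φ (row1 N) := ((hT.good i hi).meet hk hc).congr hr2
      apply runs_lookCode hE1' hR1' hT1 e6 hB hgood e12 e13
      intro s2 t2 N2 tab2 row2 e ht2 hK2 hNN hR2 hT2 hrow2 he hev f23 f6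
      refine hfin s2 (1 + t2) N2 tab2 row2 _ (by omega)
        (hK1'.trans (hK2.mono (by simp [Lk]))) hNN hR2 hT2
        (fun i' hi' => by rw [hrow2 i' hi', hrow1 i' hi']) f23
        (fun _ => ⟨e, he, fun v hv => by rw [hev v hv, hr2 v hv], rfl⟩)
        (fun h => absurd hc h) f6 ?_ ?_ ?_
      · rw [hK2 8 (by simp), e8]
      · rw [hK2 10 (by simp), e10]
      · rw [hK2 16 (by simp), e16]
    · intro h
      rw [hE1'.r25, e14] at h
      omega
  · rw [if_neg hc] at e14
    apply Runs.ite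
    · intro h
      rw [hE1'.r25, e14] at h
      omega
    · intro _
      apply Runs.skip
      exact hfin s1' (1 + (0 + 1)) N tab row1 0 (by omega) hK1' le_rfl hR1' hT1 hrow1
        (by simp [hs1']) (fun h => absurd h hc) (fun _ => rfl) e6 e8 e10 e16

/-! ### Phase 1 -/

def pBody : Cmd :=
  .seq (.op (.const 8 0)) (.seq (.op (.const 9 0)) (.seq (.op (.add 10 7 0))
    (.seq (.loop 8 1 kBody) (.op (.add 7 7 4)))))

theorem runs_pBody {w n m : ℕ} {φ : CNF n m} {s : St} (hE : Env n m s) {tab : ℕ → ℕ}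
    {row : ℕ → ℕ → ℕ} {i N : ℕ} (hi : i < N) (hR : Rep φ tab row s.mem)
    (hT : Tabs φ N tab row) (hES : ∀ i' < i, ∀ k < m, ESpec φ N row i' k)
    (h6 : s.reg 6 = m * n + 4 ^ n + N * (n + 2 * m + 1))
    (h7 : s.reg 7 = m * n + 4 ^ n + i * (n + 2 * m + 1)) (hw : 3 < w)
    (hw4 : 4 * 4 ^ n < 2 ^ w) (hB : m * n + 4 ^ n + (φ.numFlats + 1) * (n + 2 * m + 1) < 2 ^ w)
    {Q : St → ℕ → Prop}
    (hQ : ∀ s' t N' tab' row', t ≤ m * (25 * n + 32) + 6 → Keep Wk s s' → N ≤ N' →
      Rep φ tab' row' s'.mem → Tabs φ N' tab' row' →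
      (∀ i' < i + 1, ∀ k < m, ESpec φ N' row' i' k) →
      s'.reg 6 = m * n + 4 ^ n + N' * (n + 2 * m + 1) →
      s'.reg 7 = m * n + 4 ^ n + (i + 1) * (n + 2 * m + 1) → Q s' t) :
    Runs w pBody s Q := by
  set S := n + 2 * m + 1 with hS
  set R := m * n + 4 ^ n with hRR
  have hNle := hT.le
  have hNS : N * S ≤ φ.numFlats * S := Nat.mul_le_mul_right _ hNle
  have hiS : i * S + S ≤ N * S := by
    have : (i + 1) * S ≤ N * S := Nat.mul_le_mul_right _ hi
    rwa [Nat.add_mul, one_mul] at this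
  have hB' : R + φ.numFlats * S + S < 2 ^ w := by rw [Nat.add_mul, one_mul] at hB; omega
  unfold pBody
  apply Runs.seq
  apply Runs.const (by omega)
  apply Runs.seq
  apply Runs.const (by omega)
  apply Runs.seq
  apply rAdd (x := R + i * S) (y := n) (by simp [reg_set, h7]) (by simp [reg_set, hE.r0]) (by omega)
  apply Runs.seq
  refine Runs.loop m (fun q s' τ => τ ≤ q * (25 * n + 32) ∧ Keep Lk s s' ∧ ∃ N' tab' row',
      N ≤ N' ∧ Rep φ tab' row' s'.mem ∧ Tabs φ N' tab' row' ∧
      (∀ i' < i, ∀ k < m, ESpec φ N' row' i' k) ∧ (∀ k < q, ESpec φ N' row' i k) ∧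
      s'.reg 6 = R + N' * S ∧ s'.reg 8 = q ∧ s'.reg 9 = q * n ∧
      s'.reg 10 = R + i * S + n + q) ?_ ?_ ?_ ?_
  · rintro q s' τ hq ⟨hτ, hK, N', tab', row', hNN, hR', hT', hE1, hE2, g6, g8, g9, g10⟩
    have hE' : Env n m s' := hE.keep (hK.mono (by simp [Lk, Wk]))
    refine ⟨by rw [g8, hE'.r1]; exact hq, ?_⟩
    have g7 : s'.reg 7 = R + i * S := by rw [hK 7 (by simp [Lk]), h7]
    apply runs_kBody hE' (i := i) (N := N') (by omega) hq hR' hT' g6 g7 g8 g9 g10 hw hw4 hB
    intro s2 t2 N2 tab2 row2 ht2 hK2 hN2 hR2 hT2 hfr hES2 f6 f8 f9 f10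
    have hdig : ∀ i' < N', ∀ v < n, row2 i' v = row' i' v := fun i' hi' v hv =>
      hfr i' hi' v (by omega) (by omega)
    refine ⟨?_, hK.trans hK2, N2, tab2, row2, by omega, hR2, hT2, ?_, ?_, f6, f8, f9, f10⟩
    · rw [Nat.add_mul, one_mul]; omega
    · intro i' hi' k hk
      exact (hE1 i' hi' k hk).congr hN2 (by omega) hdig (hfr i' (by omega) _ (by omega) (by omega))
    · intro k hk
      rcases Nat.lt_succ_iff_lt_or_eq.mp hk with hk | hk
      · exact (hE2 k hk).congr hN2 (by omega) hdig (hfr i (by omega) _ (by omega) (by omega))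
      · rw [hk]; exact hES2
  · rintro s' τ ⟨hτ, hK, N', tab', row', hNN, hR', hT', hE1, hE2, g6, g8, -⟩
    rw [g8, (hE.keep (hK.mono (by simp [Lk, Wk]))).r1]; omega
  · refine ⟨by omega, ?_, N, tab, row, le_rfl, by simpa using hR, hT, hES,
      fun k hk => absurd hk (by omega), ?_, ?_, ?_, ?_⟩
    · exact (((Keep.refl _ _).set (by simp [Lk]) _).set (by simp [Lk]) _).set (by simp [Lk]) _
    · simp [reg_set, h6]
    · simp [reg_set]
    · simp [reg_set]
    · simp [reg_set]
  · rintro s' τ ⟨hτ, hK, N', tab', row', hNN, hR', hT', hE1, hE2, g6, g8, g9, g10⟩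
    have hE' : Env n m s' := hE.keep (hK.mono (by simp [Lk, Wk]))
    have g7 : s'.reg 7 = R + i * S := by rw [hK 7 (by simp [Lk]), h7]
    apply rAdd (x := R + i * S) (y := S) g7 hE'.r4 (by omega)
    refine hQ _ _ N' tab' row' (by omega) ((hK.mono (by simp [Lk, Wk])).set (by simp [Wk]) _) hNN
      (by simpa using hR') hT' ?_ (by simp [reg_set, g6]) (by simp; ring)
    intro i' hi' k hk
    rcases Nat.lt_succ_iff_lt_or_eq.mp hi' with hi' | hi'
    · exact hE1 i' hi' k hk
    · rw [hi']; exact hE2 k hk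

theorem runs_phase1 {w n m : ℕ} {φ : CNF n m} {s : St} (hE : Env n m s) {tab : ℕ → ℕ}
    {row : ℕ → ℕ → ℕ} (hR : Rep φ tab row s.mem) (hT : Tabs φ 1 tab row)
    (h6 : s.reg 6 = m * n + 4 ^ n + 1 * (n + 2 * m + 1))
    (h7 : s.reg 7 = m * n + 4 ^ n + 0 * (n + 2 * m + 1)) (hw : 3 < w)
    (hw4 : 4 * 4 ^ n < 2 ^ w) (hB : m * n + 4 ^ n + (φ.numFlats + 1) * (n + 2 * m + 1) < 2 ^ w)
    {Q : St → ℕ → Prop}
    (hQ : ∀ s' t N tab' row', t ≤ φ.numFlats * (m * (25 * n + 32) + 8) + 2 → Keep Wk s s' →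
      Rep φ tab' row' s'.mem → Tabs φ N tab' row' →
      (∀ i < N, ∀ k < m, ESpec φ N row' i k) →
      s'.reg 6 = m * n + 4 ^ n + N * (n + 2 * m + 1) → Q s' t) :
    Runs w (.loop 7 6 pBody) s Q := by
  set S := n + 2 * m + 1 with hS
  set R := m * n + 4 ^ n with hRR
  refine rWhile φ.numFlats (fun q s' τ => τ ≤ q * (m * (25 * n + 32) + 8) ∧ Keep Wk s s' ∧
      ∃ N tab' row', q ≤ N ∧ Rep φ tab' row' s'.mem ∧ Tabs φ N tab' row' ∧
      (∀ i < q, ∀ k < m, ESpec φ N row' i k) ∧ s'.reg 6 = R + N * S ∧ s'.reg 7 = R + q * S)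
      ?_ ?_ ?_
  · rintro q s' τ ⟨hτ, hK, N, tab', row', hqN, hR', hT', hES, g6, g7⟩ hlt
    rw [g6, g7] at hlt
    have hq : q < N := by
      by_contra hcon
      have : N * S ≤ q * S := Nat.mul_le_mul_right _ (by omega)
      omega
    have hNle := hT'.le
    refine ⟨by omega, ?_⟩
    have hE' : Env n m s' := hE.keep hK
    apply runs_pBody hE' hq hR' hT' hES g6 g7 hw hw4 hB
    intro s2 t2 N2 tab2 row2 ht2 hK2 hN2 hR2 hT2 hES2 f6 f7
    refine ⟨?_, hK.trans hK2, N2, tab2, row2, by omega, hR2, hT2, hES2, f6, f7⟩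
    rw [Nat.add_mul, one_mul]; omega
  · exact ⟨by omega, Keep.refl _ _, 1, tab, row, by omega, hR, hT, fun i hi => absurd hi (by omega),
      h6, h7⟩
  · rintro q s' τ ⟨hτ, hK, N, tab', row', hqN, hR', hT', hES, g6, g7⟩ hlt
    rw [g6, g7] at hlt
    have hq : q = N := by
      by_contra hcon
      have : (q + 1) * S ≤ N * S := Nat.mul_le_mul_right _ (by omega)
      rw [Nat.add_mul, one_mul] at this
      omega
    have hNle := hT'.le
    subst hq
    refine hQ s' _ q tab' row' ?_ hK hR' hT' hES g6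
    have : q * (m * (25 * n + 32) + 8) ≤ φ.numFlats * (m * (25 * n + 32) + 8) :=
      Nat.mul_le_mul_right _ hNle
    omega

end Pool.Agent.H624R2.Sat
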