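import Pool.Agent.H624R2.Prog

/-!
Second phase of the program, initialisation, and the complete program.
-/

namespace Pool.Agent.H624R2.Sat

open Pool.Agent.H588R2

def yCode : Cmd :=
  .seq (.op (.add 17 23 0)) (.seq (.op (.add 17 17 1)) (.seq (.op (.add 17 17 8))
    (.seq (.op (.add 17 17 2)) (.seq (.op (.load 19 17)) (.op (.sub 18 18 19))))))

def iBody : Cmd :=
  .seq (.op (.add 24 7 0)) (.seq (.op (.add 24 24 8)) (.seq (.op (.load 23 24))
    (.seq (.op (.add 24 24 1)) (.seq (.op (.add 17 24 2)) (.seq (.op (.load 18 17))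
      (.seq (.ite 25 23 yCode .skip) (.seq (.op (.store 24 18)) (.op (.add 7 7 4)))))))))

def Li : List ℕ := [7, 17, 18, 19, 23, 24]

theorem cnt_lt {w n m : ℕ} (φ : CNF n m) (hw4 : 4 * 4 ^ n < 2 ^ w) (k : ℕ) (r : ℕ → ℕ) :
    cnt φ k r < 2 ^ w := by
  have h1 := cnt_le φ k r
  have h2 : 2 ^ n ≤ 4 ^ n := Nat.pow_le_pow_left (by norm_num) _
  omega

theorem runs_iBody {w n m : ℕ} {φ : CNF n m} {s : St} (hE : Env n m s) {tab : ℕ → ℕ}
    {row : ℕ → ℕ → ℕ} {i N k : ℕ} (hi : i < N) (hk : k < m) (hR : Rep φ tab row s.mem)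
    (hlt : ∀ v < n, row i v < 3) (hES : ESpec φ N row i k)
    (hV : ∀ i < N, row i (n + m + (k + 1)) = cnt φ (k + 1) (row i))
    (h7 : s.reg 7 = m * n + 4 ^ n + i * (n + 2 * m + 1)) (h8 : s.reg 8 = k)
    (hw4 : 4 * 4 ^ n < 2 ^ w) (hB : m * n + 4 ^ n + N * (n + 2 * m + 1) + (n + 2 * m + 1) < 2 ^ w)
    {Q : St → ℕ → Prop}
    (hQ : ∀ s' t, t ≤ 20 → Keep Li s s' →
      Rep φ tab (upd row i (n + m + k) (cnt φ k (row i))) s'.mem →
      s'.reg 7 = m * n + 4 ^ n + (i + 1) * (n + 2 * m + 1) → Q s' t) :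
    Runs w iBody s Q := by
  set S := n + 2 * m + 1 with hS
  set R := m * n + 4 ^ n with hRR
  have hiS : i * S + S ≤ N * S := by
    have : (i + 1) * S ≤ N * S := Nat.mul_le_mul_right _ hi
    rwa [Nat.add_mul, one_mul] at this
  have hfin : ∀ (s2 : St) (T : ℕ), T ≤ 10 → Keep Li s s2 → s2.mem = s.mem →
      s2.reg 24 = R + i * S + n + k + m → s2.reg 18 = cnt φ k (row i) →
      s2.reg 7 = R + i * S →
      Runs w (.seq (.op (.store 24 18)) (.op (.add 7 7 4))) s2
        (fun s' t => Q s' (1 + (1 + (1 + (1 + (1 + (1 + (T + t)))))))) := by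
    intro s2 T hT hK2 hm2 f24 f18 f7
    have hE4 : s2.reg 4 = S := by rw [hK2 4 (by simp [Li]), hE.r4]
    apply Runs.seq
    apply rStore f24 f18
    apply rAdd (x := R + i * S) (y := S) (by simp [f7]) (by simp [hE4]) (by omega)
    refine hQ _ _ (by omega) ((hK2.setm _ _).set (by simp [Li]) _) ?_ (by simp; ring)
    simp only [St.set_mem, setm_mem, hm2]
    rw [show R + i * S + n + k + m = R + i * S + (n + m + k) by ring]
    exact hR.storeRow (by omega) _
  unfold iBody
  apply Runs.seq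
  apply rAdd (x := R + i * S) (y := n) h7 hE.r0 (by omega)
  apply Runs.seq
  apply rAdd (x := R + i * S + n) (y := k) (by simp) (by simp [reg_set, h8]) (by omega)
  apply Runs.seq
  have hcell : s.mem (R + i * S + n + k) = row i (n + k) := by
    rw [show R + i * S + n + k = R + i * S + (n + k) by ring]
    exact hR.rw i (n + k) (by omega)
  have hElt : row i (n + k) < 2 ^ w := by
    by_cases hc : compat n (row i) (φ.ent k)
    · obtain ⟨e, he, -, h2⟩ := hES.1 hc
      have : e * S ≤ N * S := Nat.mul_le_mul_right _ (by omega)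
      have h2' : row i (n + k) = R + e * S := h2
      omega
    · rw [hES.2 hc]; omega
  apply rLoad (x := R + i * S + n + k) (y := row i (n + k)) (by simp) (by simpa using hcell) hElt
  apply Runs.seq
  apply rAdd (x := R + i * S + n + k) (y := m) (by simp [reg_set]) (by simp [reg_set, hE.r1])
    (by omega)
  apply Runs.seq
  apply rAdd (x := R + i * S + n + k + m) (y := 1) (by simp) (by simp [reg_set, hE.r2]) (by omega)
  apply Runs.seq
  have hVc : s.mem (R + i * S + n + k + m + 1) = cnt φ (k + 1) (row i) := by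
    rw [show R + i * S + n + k + m + 1 = R + i * S + (n + m + (k + 1)) by ring, ← hV i hi]
    exact hR.rw i _ (by omega)
  apply rLoad (x := R + i * S + n + k + m + 1) (y := cnt φ (k + 1) (row i)) (by simp)
    (by simpa using hVc) (cnt_lt φ hw4 _ _)
  set s1 := (((((s.set 24 (R + i * S + n)).set 24 (R + i * S + n + k)).set 23
    (row i (n + k))).set 24 (R + i * S + n + k + m)).set 17 (R + i * S + n + k + m + 1)).set 18
    (cnt φ (k + 1) (row i)) with hs1
  have hK1 : Keep Li s s1 := ((((((Keep.refl _ _).set (by simp [Li]) _).set (by simp [Li]) _).set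
    (by simp [Li]) _).set (by simp [Li]) _).set (by simp [Li]) _).set (by simp [Li]) _
  have hE1 : Env n m s1 := hE.keep (hK1.mono (by simp [Li, Wk]))
  have e23 : s1.reg 23 = row i (n + k) := by simp [hs1, reg_set]
  have e24 : s1.reg 24 = R + i * S + n + k + m := by simp [hs1, reg_set]
  have e18 : s1.reg 18 = cnt φ (k + 1) (row i) := by simp [hs1]
  have e7 : s1.reg 7 = R + i * S := by simp [hs1, reg_set, h7]
  have e8 : s1.reg 8 = k := by simp [hs1, reg_set, h8]
  have em : s1.mem = s.mem := by simp [hs1]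
  apply Runs.seq
  by_cases hc : compat n (row i) (φ.ent k)
  · obtain ⟨e, he, h1, h2⟩ := hES.1 hc
    have h2' : row i (n + k) = R + e * S := h2
    have heS : e * S + S ≤ N * S := by
      have : (e + 1) * S ≤ N * S := Nat.mul_le_mul_right _ he
      rwa [Nat.add_mul, one_mul] at this
    rw [h2'] at e23
    have h4 : 0 < 4 ^ n := by positivity
    apply Runs.ite
    · intro _
      unfold yCode
      apply Runs.seq
      apply rAdd e23 hE1.r0 (by omega)
      apply Runs.seq
      apply rAdd (x := R + e * S + n) (y := m) (by simp) (by simp [reg_set, hE1.r1]) (by omega)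
      apply Runs.seq
      apply rAdd (x := R + e * S + n + m) (y := k) (by simp) (by simp [reg_set, e8]) (by omega)
      apply Runs.seq
      apply rAdd (x := R + e * S + n + m + k) (y := 1) (by simp) (by simp [reg_set, hE1.r2])
        (by omega)
      apply Runs.seq
      have hVe : s.mem (R + e * S + n + m + k + 1) = cnt φ (k + 1) (row e) := by
        rw [show R + e * S + n + m + k + 1 = R + e * S + (n + m + (k + 1)) by ring, ← hV e he]
        exact hR.rw e _ (by omega)
      apply rLoad (x := R + e * S + n + m + k + 1) (y := cnt φ (k + 1) (row e)) (by simp)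
        (by simpa [em] using hVe) (cnt_lt φ hw4 _ _)
      apply rSub (x := cnt φ (k + 1) (row i)) (y := cnt φ (k + 1) (row e)) (by simp [reg_set, e18])
        (by simp) (cnt_lt φ hw4 _ _)
      apply hfin _ _ (by omega)
      · exact (((((hK1.set (by simp [Li]) _).set (by simp [Li]) _).set (by simp [Li]) _).set
          (by simp [Li]) _).set (by simp [Li]) _).set (by simp [Li]) _
      · simp [em]
      · simp [reg_set, e24]
      · rw [St.set_reg_self, cnt_rec φ hk hlt hc, cnt_congr φ (k + 1) h1]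
      · simp [reg_set, e7]
    · intro h
      rw [hE1.r25, e23] at h
      omega
  · have h0 := hES.2 hc
    rw [h0] at e23
    apply Runs.ite
    · intro h
      rw [hE1.r25, e23] at h
      omega
    · intro _
      apply Runs.skip
      apply hfin _ _ (by omega) hK1 em e24 _ e7
      rw [e18, cnt_rec' φ hlt hc]

def jBody : Cmd := .seq (.op (.sub 8 8 2)) (.seq (.op (.add 7 5 25)) (.loop 7 6 iBody))

/-- The part of the tables that the second phase only reads. -/
def Same2 (n m : ℕ) (row row' : ℕ → ℕ → ℕ) : Prop := ∀ i, ∀ f < n + m, row' i f = row i f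

theorem runs_jBody {w n m : ℕ} {φ : CNF n m} {s : St} (hE : Env n m s) {tab : ℕ → ℕ}
    {row : ℕ → ℕ → ℕ} {N k : ℕ} (hk : k < m) (hR : Rep φ tab row s.mem)
    (hlt : ∀ i < N, ∀ v < n, row i v < 3) (hES : ∀ i < N, ESpec φ N row i k)
    (hV : ∀ i < N, row i (n + m + (k + 1)) = cnt φ (k + 1) (row i))
    (h6 : s.reg 6 = m * n + 4 ^ n + N * (n + 2 * m + 1)) (h8 : s.reg 8 = k + 1)
    (hw4 : 4 * 4 ^ n < 2 ^ w) (hB : m * n + 4 ^ n + N * (n + 2 * m + 1) + (n + 2 * m + 1) < 2 ^ w)
    {Q : St → ℕ → Prop}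
    (hQ : ∀ s' t row', t ≤ N * 22 + 4 → Keep (8 :: Li) s s' →
      Rep φ tab row' s'.mem → Same2 n m row row' →
      (∀ i < N, row' i (n + m + k) = cnt φ k (row' i)) → s'.reg 8 = k → Q s' t) :
    Runs w jBody s Q := by
  set S := n + 2 * m + 1 with hS
  set R := m * n + 4 ^ n with hRR
  unfold jBody
  apply Runs.seq
  apply rSub (x := k + 1) (y := 1) h8 hE.r2 (by omega)
  rw [show k + 1 - 1 = k by omega]
  apply Runs.seq
  apply rAdd (x := R) (y := 0) (by simp [reg_set, hE.r5, hRR]) (by simp [reg_set, hE.r25])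
    (by omega)
  refine Runs.loop N (fun q s' τ => τ ≤ q * 22 ∧ Keep (8 :: Li) s s' ∧ ∃ row',
      Rep φ tab row' s'.mem ∧ Same2 n m row row' ∧
      (∀ i, row' i (n + m + (k + 1)) = row i (n + m + (k + 1))) ∧
      (∀ i < q, row' i (n + m + k) = cnt φ k (row' i)) ∧
      s'.reg 7 = R + q * S ∧ s'.reg 8 = k) ?_ ?_ ?_ ?_
  · rintro q s' τ hq ⟨hτ, hK, row', hR', hS2, hr1, hr2, g7, g8⟩
    have hE' : Env n m s' := hE.keep (hK.mono (by simp [Li, Wk]))
    have g6 : s'.reg 6 = R + N * S := by rw [hK 6 (by simp [Li]), h6]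
    have hqS : q * S + S ≤ N * S := by
      have : (q + 1) * S ≤ N * S := Nat.mul_le_mul_right _ hq
      rwa [Nat.add_mul, one_mul] at this
    refine ⟨by rw [g7, g6]; omega, ?_⟩
    have hdig : ∀ i, ∀ v < n, row' i v = row i v := fun i v hv => hS2 i v (by omega)
    apply runs_iBody hE' hq hk hR' (fun v hv => by rw [hdig q v hv]; exact hlt q hq v hv)
      ((hES q hq).congr le_rfl hq (fun i _ => hdig i) (hS2 q _ (by omega))) _ g7 g8 hw4 hB
    · intro s2 t2 ht2 hK2 hR2 f7
      refine ⟨by omega, hK.trans (hK2.mono (by simp)), _, hR2, ?_, ?_, ?_, f7, ?_⟩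
      · intro i f hf
        rw [upd_cell _ _ (by omega)]; exact hS2 i f hf
      · intro i
        rw [upd_cell _ _ (by omega)]; exact hr1 i
      · intro i hi
        rw [cnt_congr φ k (r := upd row' q (n + m + k) (cnt φ k (row' q)) i) (r' := row' i)
          (fun v hv => upd_cell _ _ (by omega))]
        rcases Nat.lt_succ_iff_lt_or_eq.mp hi with hi | hi
        · rw [upd_row _ _ _ (by omega)]; exact hr2 i hi
        · rw [hi, upd_self]
      · rw [hK2 8 (by simp [Li]), g8]
    · intro i hi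
      rw [hr1 i, hV i hi]
      exact cnt_congr φ _ (fun v hv => (hdig i v hv).symm)
  · rintro s' τ ⟨hτ, hK, row', hR', hS2, hr1, hr2, g7, g8⟩
    rw [g7, hK 6 (by simp [Li]), h6]; omega
  · refine ⟨by omega, ?_, row, by simpa using hR, fun _ _ _ => rfl, fun _ => rfl,
      fun i hi => absurd hi (by omega), by simp, by simp [reg_set]⟩
    exact ((Keep.refl _ _).set (by simp) _).set (by simp [Li]) _
  · rintro s' τ ⟨hτ, hK, row', hR', hS2, hr1, hr2, g7, g8⟩
    exact hQ s' _ row' (by omega) hK hR' hS2 hr2 g8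

theorem runs_phase2 {w n m : ℕ} {φ : CNF n m} {s : St} (hE : Env n m s) {tab : ℕ → ℕ}
    {row : ℕ → ℕ → ℕ} {N : ℕ} (hR : Rep φ tab row s.mem) (hT : Tabs φ N tab row)
    (hES : ∀ i < N, ∀ k < m, ESpec φ N row i k)
    (h6 : s.reg 6 = m * n + 4 ^ n + N * (n + 2 * m + 1)) (h8 : s.reg 8 = m)
    (hw4 : 4 * 4 ^ n < 2 ^ w) (hB : m * n + 4 ^ n + N * (n + 2 * m + 1) + (n + 2 * m + 1) < 2 ^ w)
    {Q : St → ℕ → Prop}
    (hQ : ∀ s' t, t ≤ m * (N * 22 + 6) + 2 → Keep (8 :: Li) s s' →
      s'.mem (m * n + 4 ^ n + n + m) = φ.numSat → Q s' t) :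
    Runs w (.loop 25 8 jBody) s Q := by
  set S := n + 2 * m + 1 with hS
  set R := m * n + 4 ^ n with hRR
  refine Runs.loop m (fun q s' τ => τ ≤ q * (N * 22 + 6) ∧ Keep (8 :: Li) s s' ∧ ∃ row',
      Rep φ tab row' s'.mem ∧ Same2 n m row row' ∧
      (∀ i < N, row' i (n + m + (m - q)) = cnt φ (m - q) (row' i)) ∧
      s'.reg 8 = m - q) ?_ ?_ ?_ ?_
  · rintro q s' τ hq ⟨hτ, hK, row', hR', hS2, hr1, g8⟩
    have hE' : Env n m s' := hE.keep (hK.mono (by simp [Li, Wk]))
    refine ⟨by rw [hE'.r25, g8]; omega, ?_⟩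
    obtain ⟨k, hkq⟩ : ∃ k, m - q = k + 1 := ⟨m - q - 1, by omega⟩
    have hk2 : m - (q + 1) = k := by omega
    rw [hkq] at hr1 g8
    have hdig : ∀ i, ∀ v < n, row' i v = row i v := fun i v hv => hS2 i v (by omega)
    have hkm : k < m := by omega
    apply runs_jBody hE' hkm hR'
      (fun i hi v hv => by rw [hdig i v hv]; exact (hT.good i hi).lt v hv)
      (fun i hi => (hES i hi k hkm).congr le_rfl hi (fun i _ => hdig i) (hS2 i _ (by omega)))
      hr1 (by rw [hK 6 (by simp [Li]), h6]) g8 hw4 hB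
    intro s2 t2 row2 ht2 hK2 hR2 hS22 hr2 f8
    rw [hk2]
    refine ⟨?_, hK.trans hK2, row2, hR2, fun i f hf => by rw [hS22 i f hf, hS2 i f hf], hr2, f8⟩
    rw [Nat.add_mul, one_mul]; omega
  · rintro s' τ ⟨hτ, hK, row', hR', hS2, hr1, g8⟩
    rw [g8]; omega
  · refine ⟨by omega, Keep.refl _ _, row, hR, fun _ _ _ => rfl, ?_, by rw [h8]; omega⟩
    intro i hi
    rw [show m - 0 = m by omega, cnt_last φ (hT.good i hi).lt, ← hT.size i hi]
    congr 1; ring
  · rintro s' τ ⟨hτ, hK, row', hR', hS2, hr1, g8⟩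
    refine hQ s' _ (by omega) hK ?_
    have h0 := hr1 0 hT.pos
    rw [Nat.sub_self, cnt_zero φ (fun v hv => by rw [hS2 0 v (by omega)]; exact hT.zero v hv)] at h0
    rw [← h0, ← hR'.rw 0 _ (by omega)]
    congr 1; ring

/-! ### Initialisation and the complete program -/

def initCode : Cmd :=
  .seq (.op (.const 2 1)) (.seq (.op (.const 25 0)) (.seq (.op (.const 21 4))
    (.seq (.op (.const 22 3)) (.seq (.op (.mul 3 1 0)) (.seq (.op (.const 12 1))
      (.seq (.op (.const 13 1)) (.seq (.op (.const 11 0))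
        (.loop 11 0 (.seq (.op (.mul 12 12 21)) (.seq (.op (.add 13 13 13))
          (.op (.add 11 11 2)))))))))))) 

def init2Code : Cmd :=
  .seq (.op (.add 5 3 12)) (.seq (.op (.add 26 0 1)) (.seq (.op (.add 26 26 1))
    (.seq (.op (.add 4 26 2)) (.seq (.op (.store 3 5)) (.seq (.op (.add 24 5 26))
      (.seq (.op (.store 24 13)) (.seq (.op (.add 6 5 4)) (.op (.add 7 5 25)))))))))

def mainCode : Cmd :=
  .seq initCode (.seq init2Code (.seq (.loop 7 6 pBody) (.seq (.op (.add 8 1 25))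
    (.seq (.loop 25 8 jBody) (.seq (.op (.add 24 5 0)) (.seq (.op (.add 24 24 1))
      (.op (.load 0 24))))))))

/-- Initial contents of the memory: the incidence matrix, row by row, followed by zeros. -/
def inputMem {n m : ℕ} (φ : CNF n m) (a : ℕ) : ℕ := if a < m * n then φ.ent (a / n) (a % n) else 0

theorem inputMem_ent {n m : ℕ} (φ : CNF n m) {j v : ℕ} (hj : j < m) (hv : v < n) :
    inputMem φ (j * n + v) = φ.ent j v := by
  unfold inputMem
  rw [if_pos (inp_lt hj hv)]
  have hn : 0 < n := by omega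
  rw [Nat.add_comm, Nat.add_mul_div_right _ _ hn, Nat.add_mul_mod_self_right,
    Nat.div_eq_of_lt hv, Nat.mod_eq_of_lt hv, Nat.zero_add]

theorem runs_initCode {w n m : ℕ} {s : St} (h0 : s.reg 0 = n) (h1 : s.reg 1 = m) (hw : 3 < w)
    (hw4 : 4 * 4 ^ n < 2 ^ w) (hmn : m * n < 2 ^ w) {Q : St → ℕ → Prop}
    (hQ : ∀ s' t, t ≤ 5 * n + 10 → s'.mem = s.mem → s'.reg 0 = n → s'.reg 1 = m →
      s'.reg 2 = 1 → s'.reg 25 = 0 → s'.reg 21 = 4 → s'.reg 22 = 3 → s'.reg 3 = m * n →
      s'.reg 12 = 4 ^ n → s'.reg 13 = 2 ^ n → Q s' t) :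
    Runs w initCode s Q := by
  have hw4' : 2 ^ 4 ≤ 2 ^ w := Nat.pow_le_pow_right (by norm_num) hw
  have hnn : n < 2 ^ n := Nat.lt_two_pow_self
  have h24 : 2 ^ n ≤ 4 ^ n := Nat.pow_le_pow_left (by norm_num) _
  unfold initCode
  apply Runs.seq
  apply Runs.const (by omega)
  apply Runs.seq
  apply Runs.const (by omega)
  apply Runs.seq
  apply Runs.const (by omega)
  apply Runs.seq
  apply Runs.const (by omega)
  apply Runs.seq
  apply rMul (x := m) (y := n) (by simp [reg_set, h1]) (by simp [reg_set, h0]) hmn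
  apply Runs.seq
  apply Runs.const (by omega)
  apply Runs.seq
  apply Runs.const (by omega)
  apply Runs.seq
  apply Runs.const (by omega)
  refine Runs.loop n (fun q s' τ => τ ≤ 5 * q ∧ s'.mem = s.mem ∧ s'.reg 0 = n ∧ s'.reg 1 = m ∧
      s'.reg 2 = 1 ∧ s'.reg 25 = 0 ∧ s'.reg 21 = 4 ∧ s'.reg 22 = 3 ∧ s'.reg 3 = m * n ∧
      s'.reg 12 = 4 ^ q ∧ s'.reg 13 = 2 ^ q ∧ s'.reg 11 = q) ?_ ?_ ?_ ?_
  · rintro q s' τ hq ⟨hτ, hm, g0, g1, g2, g25, g21, g22, g3, g12, g13, g11⟩
    refine ⟨by rw [g11, g0]; exact hq, ?_⟩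
    have hq4 : 4 ^ (q + 1) ≤ 4 ^ n := Nat.pow_le_pow_right (by norm_num) hq
    have hq2 : 2 ^ (q + 1) ≤ 2 ^ n := Nat.pow_le_pow_right (by norm_num) hq
    rw [pow_succ] at hq4 hq2
    apply Runs.seq
    apply rMul g12 g21 (by omega)
    apply Runs.seq
    apply rAdd (x := 2 ^ q) (y := 2 ^ q) (by simp [reg_set, g13]) (by simp [reg_set, g13]) (by omega)
    apply rAdd (x := q) (y := 1) (by simp [reg_set, g11]) (by simp [reg_set, g2]) (by omega)
    refine ⟨by omega, by simp [hm], by simp [reg_set, g0], by simp [reg_set, g1],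
      by simp [reg_set, g2], by simp [reg_set, g25], by simp [reg_set, g21],
      by simp [reg_set, g22], by simp [reg_set, g3], ?_, ?_, by simp⟩
    · simp [reg_set, pow_succ]
    · simp only [reg_set]; norm_num; rw [pow_succ]; omega
  · rintro s' τ ⟨hτ, hm, g0, g1, g2, g25, g21, g22, g3, g12, g13, g11⟩
    rw [g11, g0]; omega
  · refine ⟨by omega, by simp, ?_, ?_, ?_, ?_, ?_, ?_, ?_, ?_, ?_, ?_⟩ <;> simp [reg_set, h0, h1]
  · rintro s' τ ⟨hτ, hm, g0, g1, g2, g25, g21, g22, g3, g12, g13, g11⟩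
    exact hQ s' _ (by omega) hm g0 g1 g2 g25 g21 g22 g3 g12 g13

theorem runs_init2Code {w n m : ℕ} {φ : CNF n m} {s : St} (hmem : s.mem = inputMem φ)
    (g0 : s.reg 0 = n) (g1 : s.reg 1 = m) (g2 : s.reg 2 = 1) (g25 : s.reg 25 = 0)
    (g21 : s.reg 21 = 4) (g22 : s.reg 22 = 3) (g3 : s.reg 3 = m * n) (g12 : s.reg 12 = 4 ^ n)
    (g13 : s.reg 13 = 2 ^ n)
    (hB : m * n + 4 ^ n + 2 * (n + 2 * m + 1) < 2 ^ w)
    {Q : St → ℕ → Prop}
    (hQ : ∀ s' t tab row, t ≤ 9 → Env n m s' → Rep φ tab row s'.mem → Tabs φ 1 tab row →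
      s'.reg 6 = m * n + 4 ^ n + 1 * (n + 2 * m + 1) →
      s'.reg 7 = m * n + 4 ^ n + 0 * (n + 2 * m + 1) → Q s' t) :
    Runs w init2Code s Q := by
  have h4 : 0 < 4 ^ n := by positivity
  unfold init2Code
  apply Runs.seq
  apply rAdd g3 g12 (by omega)
  apply Runs.seq
  apply rAdd (x := n) (y := m) (by simp [reg_set, g0]) (by simp [reg_set, g1]) (by omega)
  apply Runs.seq
  apply rAdd (x := n + m) (y := m) (by simp) (by simp [reg_set, g1]) (by omega)
  apply Runs.seq
  apply rAdd (x := n + m + m) (y := 1) (by simp) (by simp [reg_set, g2]) (by omega)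
  apply Runs.seq
  apply rStore (x := m * n) (y := m * n + 4 ^ n) (by simp [reg_set, g3]) (by simp [reg_set])
  apply Runs.seq
  apply rAdd (x := m * n + 4 ^ n) (y := n + m + m) (by simp [reg_set]) (by simp [reg_set]) (by omega)
  apply Runs.seq
  apply rStore (x := m * n + 4 ^ n + (n + m + m)) (y := 2 ^ n) (by simp)
    (by simp [reg_set, g13])
  apply Runs.seq
  apply rAdd (x := m * n + 4 ^ n) (y := n + m + m + 1) (by simp [reg_set]) (by simp [reg_set])
    (by omega)
  apply rAdd (x := m * n + 4 ^ n) (y := 0) (by simp [reg_set]) (by simp [reg_set, g25]) (by omega)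
  have hR0 : Rep φ (fun _ => 0) (fun _ _ => 0) (inputMem φ) := by
    constructor
    · intro j hj v hv; exact inputMem_ent φ hj hv
    · intro c _
      unfold inputMem
      rw [if_neg (by omega)]
    · intro i f _
      unfold inputMem
      rw [if_neg]
      have : 0 ≤ i * (n + 2 * m + 1) := Nat.zero_le _
      omega
  have hR1 := (hR0.storeTab (c := 0) h4 (m * n + 4 ^ n)).storeRow (i := 0) (f := n + 2 * m)
    (by omega) (2 ^ n)
  have hz : ∀ v < n, upd (fun _ _ => 0) 0 (n + 2 * m) (2 ^ n) 0 v = 0 := fun v hv =>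
    upd_cell _ _ (by omega)
  have hsz : sz (fun _ => 0) n = 2 ^ n := by
    clear * -
    induction n with
    | zero => rfl
    | succ n ih => simp only [sz, if_true, ih]; rw [pow_succ]; omega
  have hcod : cod (fun _ => 0) n = 0 := by
    clear * -
    induction n with
    | zero => rfl
    | succ n ih => simp only [cod, ih]
  refine hQ _ _ (Function.update (fun _ => 0) 0 (m * n + 4 ^ n))
    (upd (fun _ _ => 0) 0 (n + 2 * m) (2 ^ n)) (by omega) ?_ ?_ ?_ ?_ ?_
  · constructor <;> simp only [reg_set, setm_reg] <;> norm_num <;> first | assumption | ring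
  · simp only [St.set_mem, setm_mem, hmem]
    rw [show m * n + 4 ^ n + (n + m + m) = m * n + 4 ^ n + 0 * (n + 2 * m + 1) + (n + 2 * m) by ring]
    exact hR1
  · constructor
    · omega
    · exact hz
    · intro i hi
      have : i = 0 := by omega
      subst this
      exact good_zero φ hz
    · intro i hi i' hi' _; omega
    · intro i hi
      have : i = 0 := by omega
      subst this
      rw [upd_self, sz_congr hz, hsz]
    · intro i hi
      have : i = 0 := by omega
      subst this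
      rw [cod_congr hz, hcod, Function.update_self]; ring
    · intro c hc h0
      by_cases hc0 : c = 0
      · exact ⟨0, by omega, by rw [cod_congr hz, hcod, hc0]⟩
      · rw [Function.update_of_ne hc0] at h0
        exact absurd rfl h0
  · simp only [reg_set]; norm_num; ring
  · simp only [reg_set]; norm_num

/-- The initial configuration on input `φ`: `n` and `m` in registers `0` and `1`, the incidence
matrix in the first `m n` memory cells, everything else `0`. -/
def inputConfig {n m : ℕ} (φ : CNF n m) : Config :=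
  ⟨0, ⟨fun x => if x = 0 then n else if x = 1 then m else 0, inputMem φ⟩⟩

theorem runs_main {w n m : ℕ} (φ : CNF n m) (hw : 3 < w) (hw4 : 4 * 4 ^ n < 2 ^ w)
    (hB : m * n + 4 ^ n + (φ.numFlats + 1) * (n + 2 * m + 1) < 2 ^ w)
    (hpos : 0 < φ.numFlats) :
    Runs w mainCode (inputConfig φ).st (fun s' t =>
      t ≤ φ.numFlats * (m * (25 * n + 32) + 8) + m * (φ.numFlats * 22 + 6) + 5 * n + 30 ∧
      s'.reg 0 = φ.numSat) := by
  have h2 : 2 * (n + 2 * m + 1) ≤ (φ.numFlats + 1) * (n + 2 * m + 1) :=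
    Nat.mul_le_mul_right _ (by omega)
  have hB' : m * n + 4 ^ n + φ.numFlats * (n + 2 * m + 1) + (n + 2 * m + 1) < 2 ^ w := by
    rw [Nat.add_mul, one_mul] at hB; omega
  unfold mainCode
  apply Runs.seq
  apply runs_initCode (n := n) (m := m) rfl rfl hw hw4 (by omega)
  intro s1 t1 ht1 hm1 g0 g1 g2 g25 g21 g22 g3 g12 g13
  apply Runs.seq
  apply runs_init2Code (φ := φ) hm1 g0 g1 g2 g25 g21 g22 g3 g12 g13 (by omega)
  intro s2 t2 tab row ht2 hE hR hT h6 h7
  apply Runs.seq
  apply runs_phase1 hE hR hT h6 h7 hw hw4 hB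
  intro s3 t3 N tab' row' ht3 hK3 hR3 hT3 hES3 f6
  have hE3 := hE.keep hK3
  have hNle := hT3.le
  have hNS : N * (n + 2 * m + 1) ≤ φ.numFlats * (n + 2 * m + 1) := Nat.mul_le_mul_right _ hNle
  apply Runs.seq
  apply rAdd hE3.r1 hE3.r25 (by omega)
  have hK4 : Keep Wk s3 (s3.set 8 (m + 0)) := (Keep.refl _ _).set (by simp [Wk]) _
  have hE4 := hE3.keep hK4
  apply Runs.seq
  apply runs_phase2 hE4 (tab := tab') (row := row') (N := N) (by simpa using hR3) hT3 hES3
    (by simp [reg_set, f6]) (by simp) hw4 (by omega)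
  intro s5 t5 ht5 hK5 hm5
  have hE5 := hE4.keep (hK5.mono (by simp [Li, Wk]))
  apply Runs.seq
  apply rAdd hE5.r5 hE5.r0 (by omega)
  apply Runs.seq
  apply rAdd (x := m * n + 4 ^ n + n) (y := m) (by simp) (by simp [reg_set, hE5.r1]) (by omega)
  have hns : φ.numSat < 2 ^ w := by
    rw [← cnt_zero φ (r := fun _ => 0) (fun _ _ => rfl)]
    exact cnt_lt φ hw4 _ _
  apply rLoad (x := m * n + 4 ^ n + n + m) (y := φ.numSat) (by simp) (by simpa using hm5) hns
  refine ⟨?_, by simp⟩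
  have h5 : m * (N * 22 + 6) ≤ m * (φ.numFlats * 22 + 6) := Nat.mul_le_mul_left _ (by omega)
  omega

theorem numFlats_pos {n m : ℕ} (φ : CNF n m) : 0 < φ.numFlats := by
  unfold CNF.numFlats
  rw [Finset.card_pos]
  exact ⟨φ.fal (fun _ => none), by simp⟩

theorem numProj_pos {n m : ℕ} (φ : CNF n m) : 0 < φ.numProj := by
  unfold CNF.numProj
  rw [Finset.card_pos]
  exact ⟨φ.proj (fun _ => true), by simp⟩

/-- The word length `4 (n + ⌊log₂ (m+1)⌋ + 1)` suffices. -/
theorem word_ok {n m w : ℕ} (φ : CNF n m) (hw : 4 * (n + Nat.log 2 (m + 1) + 1) ≤ w) :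
    3 < w ∧ 4 * 4 ^ n < 2 ^ w ∧
      m * n + 4 ^ n + (φ.numFlats + 1) * (n + 2 * m + 1) < 2 ^ w := by
  set l := Nat.log 2 (m + 1) with hl
  have hml : m + 1 < 2 ^ (l + 1) := Nat.lt_pow_succ_log_self (by norm_num) _
  have hn : n + 1 ≤ 2 ^ n := Nat.lt_two_pow_self
  have h4 : (4 : ℕ) ^ n = 2 ^ n * 2 ^ n := by
    rw [← Nat.mul_pow]
  have hpw : 2 ^ (4 * (n + l + 1)) ≤ 2 ^ w := Nat.pow_le_pow_right (by norm_num) hw
  have he : 2 ^ (4 * (n + l + 1)) = 16 * (2 ^ n * 2 ^ n * 2 ^ n * 2 ^ n) * (2 ^ l * 2 ^ l * 2 ^ l * 2 ^ l) := by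
    rw [show 4 * (n + l + 1) = n + n + n + n + (l + l + l + l) + 4 by ring]
    simp only [pow_add]; ring
  set X := 2 ^ n with hX
  set Y := 2 ^ l with hY
  have hX1 : 1 ≤ X := Nat.one_le_two_pow
  have hY1 : 1 ≤ Y := Nat.one_le_two_pow
  have hm : m + 1 ≤ 2 * Y := by rw [pow_succ] at hml; omega
  have hF := numFlats_le_four φ
  rw [h4] at hF
  refine ⟨by omega, ?_, ?_⟩
  · rw [h4]
    calc 4 * (X * X) < 16 * (X * X * 1 * 1) * (1 * 1 * 1 * 1) := by nlinarith
      _ ≤ 16 * (X * X * X * X) * (Y * Y * Y * Y) := by gcongr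
      _ ≤ 2 ^ w := by rw [← he]; exact hpw
  · rw [h4]
    have h1 : n + 2 * m + 1 ≤ 4 * (X * Y) := by nlinarith
    have h2 : m * n ≤ 2 * Y * X := Nat.mul_le_mul (by omega) (by omega)
    have h3 : (φ.numFlats + 1) * (n + 2 * m + 1) ≤ (X * X + 1) * (4 * (X * Y)) :=
      Nat.mul_le_mul (by omega) h1
    have h5 : X * Y ≤ X * X * X * Y := by
      calc X * Y = 1 * 1 * X * Y := by ring
        _ ≤ X * X * X * Y := by gcongr
    have h6 : X * X ≤ X * X * X * Y := by
      calc X * X = X * X * 1 * 1 := by ring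
        _ ≤ X * X * X * Y := by gcongr
    have h7 : X * X * X * Y ≤ (X * X * X * X) * (Y * Y * Y * Y) := by
      calc X * X * X * Y = (X * X * X * 1) * (Y * 1 * 1 * 1) := by ring
        _ ≤ (X * X * X * X) * (Y * Y * Y * Y) := by gcongr
    have h8 : 1 ≤ X * X * X * Y := by
      calc 1 = 1 * 1 * 1 * 1 := by norm_num
        _ ≤ X * X * X * Y := by gcongr
    calc m * n + X * X + (φ.numFlats + 1) * (n + 2 * m + 1)
        ≤ 2 * Y * X + X * X + (X * X + 1) * (4 * (X * Y)) := by omega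
      _ = 6 * (X * Y) + X * X + 4 * (X * X * X * Y) := by ring
      _ ≤ 11 * (X * X * X * Y) := by omega
      _ < 16 * (X * X * X * Y) := by omega
      _ ≤ 16 * ((X * X * X * X) * (Y * Y * Y * Y)) := Nat.mul_le_mul_left _ h7
      _ = 16 * (X * X * X * X) * (Y * Y * Y * Y) := by ring
      _ ≤ 2 ^ w := by rw [← he]; exact hpw

theorem main {n m w : ℕ} (φ : CNF n m) (hw : 4 * (n + Nat.log 2 (m + 1) + 1) ≤ w) :
    HaltsWithin w (mainCode.compile 0) (inputConfig φ)
      (130 * (n + 1) * (m + 1) * (φ.numProj : ℝ) ^ Real.logb 2 3) φ.numSat := by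
  obtain ⟨h1, h2, h3⟩ := word_ok φ hw
  obtain ⟨s', t, hex, ht, hr⟩ := runs_main φ h1 h2 h3 (numFlats_pos φ)
  have hstep := compile_correct w (mainCode.compile 0) hex 0 (by
    intro i _; simp)
  have hc : (⟨0, (inputConfig φ).st⟩ : Config) = inputConfig φ := rfl
  rw [hc] at hstep
  refine ⟨t, ?_, ?_, ?_⟩
  · have hF := numFlats_pos φ
    set F := φ.numFlats with hFdef
    have h5 : F * (m * (25 * n + 32) + 8) + m * (F * 22 + 6) + 5 * n + 30 ≤
        130 * (n + 1) * (m + 1) * F := by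
      obtain ⟨f, hf⟩ : ∃ f, F = f + 1 := ⟨F - 1, by omega⟩
      rw [hf]
      nlinarith [Nat.zero_le (m * n), Nat.zero_le (m * n * f), Nat.zero_le (m * f),
        Nat.zero_le (n * f)]
    have h6 : (t : ℝ) ≤ 130 * (n + 1) * (m + 1) * (F : ℝ) := by
      exact_mod_cast ht.trans h5
    refine h6.trans ?_
    have := numFlats_le φ
    gcongr
  · rw [hstep]
    right
    simp [← Cmd.length_compile mainCode 0]
  · rw [hstep]; exact hr

end Pool.Agent.H624R2.Sat
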