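import Pool.Agent.H588R2.Ram

/-!
Symbolic execution of word-RAM programs.
-/

namespace Pool.Agent.H624R2.Lin

open Pool.Agent.H588R2

/-- Memory write. -/
def setm (s : St) (a v : ℕ) : St := ⟨s.reg, Function.update s.mem a v⟩

theorem reg_set (s : St) (d v x : ℕ) : (s.set d v).reg x = if x = d then v else s.reg x := by
  simp [St.set, Function.update_apply]

/-- `x` is not in the list `K`. -/
def notIn : List ℕ → ℕ → Bool
  | [], _ => true
  | k :: K, x => bif Nat.beq k x then false else notIn K x

/-- Look up a register. -/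
def look (x : ℕ) : List (ℕ × ℕ) → Option ℕ
  | [] => none
  | (y, v) :: l => bif Nat.beq y x then some v else look x l

/-- Forget the registers in `K`. -/
def restr (K : List ℕ) : List (ℕ × ℕ) → List (ℕ × ℕ)
  | [] => []
  | (y, v) :: l => bif notIn K y then (y, v) :: restr K l else restr K l

/-- Registers outside the list `K` are unchanged. -/
def Keep (K : List ℕ) (s s' : St) : Prop := ∀ x, notIn K x = true → s'.reg x = s.reg x

/-- Known contents of registers. -/
def Rg (s : St) (l : List (ℕ × ℕ)) : Prop := ∀ x v, look x l = some v → s.reg x = v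

theorem Keep.refl (K : List ℕ) (s : St) : Keep K s s := fun _ _ => rfl

theorem Keep.trans {K : List ℕ} {s s' s'' : St} (h : Keep K s s') (h' : Keep K s' s'') :
    Keep K s s'' := fun x hx => (h' x hx).trans (h x hx)

/-- `K'` is contained in `K`. -/
def subK (K' K : List ℕ) : Bool := K'.all (fun x => !notIn K x)

theorem notIn_false {K : List ℕ} {x : ℕ} : notIn K x = false ↔ x ∈ K := by
  induction K with
  | nil => simp [notIn]
  | cons k K ih =>
    simp only [notIn, List.mem_cons]
    cases h : Nat.beq k x with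
    | true =>
      have := Nat.eq_of_beq_eq_true h
      simp [this]
    | false =>
      have := Nat.ne_of_beq_eq_false h
      simp only [cond_false]
      rw [ih]
      constructor
      · intro h1; exact Or.inr h1
      · rintro (h1 | h1)
        · exact absurd h1.symm this
        · exact h1

theorem notIn_true {K : List ℕ} {x : ℕ} : notIn K x = true ↔ x ∉ K := by
  rw [← notIn_false]
  cases notIn K x <;> simp

theorem Keep.mono {K K' : List ℕ} {s s' : St} (h : Keep K' s s') (hK : subK K' K = true) :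
    Keep K s s' := by
  intro x hx
  apply h
  rw [notIn_true] at hx ⊢
  intro hx'
  apply hx
  unfold subK at hK
  rw [List.all_eq_true] at hK
  have := hK x hx'
  rw [← notIn_false]
  simpa using this

theorem look_restr {K : List ℕ} {l : List (ℕ × ℕ)} {x v : ℕ} (h : look x (restr K l) = some v) :
    notIn K x = true ∧ look x l = some v := by
  induction l with
  | nil => simp [restr, look] at h
  | cons p l ih =>
    simp only [restr] at h
    simp only [look]
    cases hp : notIn K p.1 with
    | true =>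
      rw [hp] at h
      simp only [cond_true, look] at h
      cases hx : Nat.beq p.1 x with
      | true =>
        rw [hx] at h
        have := Nat.eq_of_beq_eq_true hx
        rw [← this]
        exact ⟨hp, by simpa using h⟩
      | false =>
        rw [hx] at h
        exact ih h
    | false =>
      rw [hp] at h
      simp only [cond_false] at h
      have h1 := ih h
      cases hx : Nat.beq p.1 x with
      | true =>
        have := Nat.eq_of_beq_eq_true hx
        rw [this, h1.1] at hp
        exact absurd hp (by decide)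
      | false => exact h1

/-- Symbolic state: `s` agrees with `s0` outside `K`, the registers in `l` have the values
given there, and the memory is `M`. -/
structure Sy (K : List ℕ) (s0 s : St) (l : List (ℕ × ℕ)) (M : ℕ → ℕ) : Prop where
  keep : Keep K s0 s
  rg : Rg s l
  mem : s.mem = M

theorem Sy.start {K : List ℕ} {s : St} {l : List (ℕ × ℕ)} (h : Rg s l) : Sy K s s l s.mem :=
  ⟨Keep.refl _ _, h, rfl⟩

theorem Rg.cons {s : St} {l : List (ℕ × ℕ)} (h : Rg s l) {d v : ℕ} (hd : s.reg d = v) :
    Rg s ((d, v) :: l) := by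
  intro x y hx
  simp only [look] at hx
  cases h1 : Nat.beq d x with
  | true =>
    rw [h1] at hx
    have := Nat.eq_of_beq_eq_true h1
    simp only [cond_true, Option.some.injEq] at hx
    rw [← this, ← hx, hd]
  | false =>
    rw [h1] at hx
    exact h x y hx

theorem Rg.keep {s s' : St} {l : List (ℕ × ℕ)} {K : List ℕ} (h : Rg s l) (hk : Keep K s s') :
    Rg s' (restr K l) := by
  intro x v hx
  obtain ⟨h1, h2⟩ := look_restr hx
  rw [hk x h1]
  exact h x v h2

theorem Rg.set {s : St} {l : List (ℕ × ℕ)} (h : Rg s l) (d v : ℕ) :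
    Rg (s.set d v) ((d, v) :: l) := by
  intro x y hx
  simp only [look] at hx
  rw [reg_set]
  cases h1 : Nat.beq d x with
  | true =>
    rw [h1] at hx
    have := Nat.eq_of_beq_eq_true h1
    simp only [cond_true, Option.some.injEq] at hx
    rw [if_pos this.symm, hx]
  | false =>
    rw [h1] at hx
    have := Nat.ne_of_beq_eq_false h1
    rw [if_neg (Ne.symm this)]
    exact h x y hx

theorem Sy.set {K : List ℕ} {s0 s : St} {l : List (ℕ × ℕ)} {M : ℕ → ℕ} (h : Sy K s0 s l M)
    {d : ℕ} (hd : notIn K d = false) (v : ℕ) : Sy K s0 (s.set d v) ((d, v) :: l) M := by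
  refine ⟨?_, h.rg.set d v, h.mem⟩
  intro x hx
  rw [reg_set, if_neg]
  · exact h.keep x hx
  · intro e
    rw [e, hd] at hx
    exact absurd hx (by decide)

theorem Sy.setm {K : List ℕ} {s0 s : St} {l : List (ℕ × ℕ)} {M : ℕ → ℕ} (h : Sy K s0 s l M)
    (a v : ℕ) : Sy K s0 (setm s a v) l (Function.update M a v) :=
  ⟨h.keep, h.rg, by rw [← h.mem]; rfl⟩

/-- After a subroutine. -/
theorem Sy.sub {K K' : List ℕ} {s0 s s' : St} {l : List (ℕ × ℕ)} {M : ℕ → ℕ}
    (h : Sy K s0 s l M) (hk : Keep K' s s') (hK : subK K' K = true) :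
    Sy K s0 s' (restr K' l) s'.mem :=
  ⟨h.keep.trans (hk.mono hK), h.rg.keep hk, rfl⟩

theorem Sy.cons {K : List ℕ} {s0 s : St} {l : List (ℕ × ℕ)} {M : ℕ → ℕ} (h : Sy K s0 s l M)
    {d v : ℕ} (hd : s.reg d = v) : Sy K s0 s ((d, v) :: l) M :=
  ⟨h.keep, h.rg.cons hd, h.mem⟩

/-- Values may be rewritten. -/
theorem Sy.reg {K : List ℕ} {s0 s : St} {l : List (ℕ × ℕ)} {M : ℕ → ℕ} (h : Sy K s0 s l M)
    {d v : ℕ} (hd : look d l = some v) : s.reg d = v := h.rg d v hd

section rules
variable {w d a b x y : ℕ} {c : Cmd} {K : List ℕ} {s0 s : St} {l : List (ℕ × ℕ)} {M : ℕ → ℕ}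
  {Q : St → ℕ → Prop}

theorem sConst {v : ℕ} (hl : Sy K s0 s l M) (hd : notIn K d = false) (hlt : v < 2 ^ w)
    (h : Sy K s0 (s.set d v) ((d, v) :: l) M →
      Runs w c (s.set d v) (fun s' t => Q s' (1 + t))) :
    Runs w (.seq (.op (.const d v)) c) s Q := by
  apply Runs.seq
  apply Runs.const hlt
  exact h (hl.set hd _)

theorem sAdd (hl : Sy K s0 s l M) (ha : look a l = some x) (hb : look b l = some y)
    (hd : notIn K d = false) (hlt : x + y < 2 ^ w)
    (h : Sy K s0 (s.set d (x + y)) ((d, x + y) :: l) M →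
      Runs w c (s.set d (x + y)) (fun s' t => Q s' (1 + t))) :
    Runs w (.seq (.op (.add d a b)) c) s Q := by
  have h1 := hl.reg ha
  have h2 := hl.reg hb
  subst h1 h2
  apply Runs.seq
  apply Runs.add hlt
  exact h (hl.set hd _)

theorem sSub (hl : Sy K s0 s l M) (ha : look a l = some x) (hb : look b l = some y)
    (hd : notIn K d = false) (hlt : x < 2 ^ w)
    (h : Sy K s0 (s.set d (x - y)) ((d, x - y) :: l) M →
      Runs w c (s.set d (x - y)) (fun s' t => Q s' (1 + t))) :
    Runs w (.seq (.op (.sub d a b)) c) s Q := by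
  have h1 := hl.reg ha
  have h2 := hl.reg hb
  subst h1 h2
  apply Runs.seq
  apply Runs.sub (lt_of_le_of_lt (Nat.sub_le _ _) hlt)
  exact h (hl.set hd _)

theorem sMul (hl : Sy K s0 s l M) (ha : look a l = some x) (hb : look b l = some y)
    (hd : notIn K d = false) (hlt : x * y < 2 ^ w)
    (h : Sy K s0 (s.set d (x * y)) ((d, x * y) :: l) M →
      Runs w c (s.set d (x * y)) (fun s' t => Q s' (1 + t))) :
    Runs w (.seq (.op (.mul d a b)) c) s Q := by
  have h1 := hl.reg ha
  have h2 := hl.reg hb
  subst h1 h2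
  apply Runs.seq
  apply Runs.mul hlt
  exact h (hl.set hd _)

theorem sLoad (hl : Sy K s0 s l M) (ha : look a l = some x) (hm : M x = y)
    (hd : notIn K d = false) (hlt : y < 2 ^ w)
    (h : Sy K s0 (s.set d y) ((d, y) :: l) M →
      Runs w c (s.set d y) (fun s' t => Q s' (1 + t))) :
    Runs w (.seq (.op (.load d a)) c) s Q := by
  have h1 := hl.reg ha
  rw [← hl.mem, ← h1] at hm
  subst hm
  apply Runs.seq
  apply Runs.load hlt
  exact h (hl.set hd _)

theorem sStore (hl : Sy K s0 s l M) (ha : look a l = some x) (hb : look b l = some y)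
    (h : Sy K s0 (setm s x y) l (Function.update M x y) →
      Runs w c (setm s x y) (fun s' t => Q s' (1 + t))) :
    Runs w (.seq (.op (.store a b)) c) s Q := by
  have h1 := hl.reg ha
  have h2 := hl.reg hb
  subst h1 h2
  apply Runs.seq
  apply Runs.op
  exact h (hl.setm _ _)

theorem sIte {c₁ c₂ : Cmd} (hl : Sy K s0 s l M) (ha : look a l = some x)
    (hb : look b l = some y)
    (h1 : x < y → Runs w c₁ s (fun s' t => Q s' (1 + t)))
    (h2 : ¬ x < y → Runs w c₂ s (fun s' t => Q s' (1 + (t + 1)))) :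
    Runs w (.ite a b c₁ c₂) s Q := by
  have e1 := hl.reg ha
  have e2 := hl.reg hb
  apply Runs.ite
  · rw [e1, e2]; exact h1
  · rw [e1, e2]; exact h2

/-- Sequencing with a subroutine that has a specification. -/
theorem sCall {c₁ : Cmd} {P : St → ℕ → Prop} (h1 : Runs w c₁ s P)
    (h : ∀ s' t, P s' t → Runs w c s' (fun s'' t' => Q s'' (t + t'))) :
    Runs w (.seq c₁ c) s Q := by
  apply Runs.seq
  exact h1.mono h

end rules

/-- `for v = 0, ..., (r_b) - 1 do body`. -/
def FOR (v b : ℕ) (body : Cmd) : Cmd :=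
  .seq (.op (.const v 0)) (.loop v b (.seq body (.op (.add v v 2))))

theorem rFor {w v b N T : ℕ} {body : Cmd} {s : St} {l : List (ℕ × ℕ)} {Q : St → ℕ → Prop}
    (K : List ℕ) (hl : Rg s l) (hb : look b l = some N) (h2 : look 2 l = some 1)
    (hbK : notIn (v :: K) b = true) (h2K : notIn (v :: K) 2 = true) (hvK : notIn K v = true)
    (hN : N < 2 ^ w) (I : ℕ → St → Prop) (hIv : ∀ q s x, I q s → I q (s.set v x)) (hI0 : I 0 s)
    (hstep : ∀ q s', q < N → Rg s' ((v, q) :: restr (v :: K) l) → I q s' →
      Runs w body s' (fun s'' t => t ≤ T ∧ Keep K s' s'' ∧ I (q + 1) s''))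
    (hQ : ∀ s' t, t ≤ N * (T + 3) + 3 → Keep (v :: K) s s' → I N s' → Q s' t) :
    Runs w (FOR v b body) s Q := by
  unfold FOR
  have hw : 0 < 2 ^ w := by positivity
  apply Runs.seq
  apply Runs.const hw
  have hbv : b ≠ v := by
    intro e
    rw [e] at hbK
    rw [notIn_true] at hbK
    exact hbK (by simp)
  have h2v : 2 ≠ v := by
    intro e
    rw [e] at h2K
    rw [notIn_true] at h2K
    exact h2K (by simp)
  have hvs : ∀ (s' : St) (x : ℕ), Keep (v :: K) s' (s'.set v x) := by
    intro s' x y hy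
    rw [reg_set, if_neg]
    intro e
    rw [e, notIn_true] at hy
    exact hy (by simp)
  refine Runs.loop N (fun q s' τ => τ ≤ q * (T + 3) ∧ Keep (v :: K) s s' ∧ s'.reg v = q ∧ I q s')
    ?_ ?_ ?_ ?_
  · rintro q s' τ hq ⟨hτ, hK, hv, hI⟩
    have e1 : s'.reg b = N := by rw [hK b hbK]; exact hl b N hb
    have e2 : s'.reg 2 = 1 := by rw [hK 2 h2K]; exact hl 2 1 h2
    refine ⟨by rw [hv, e1]; exact hq, ?_⟩
    apply Runs.seq
    refine (hstep q s' hq ((hl.keep hK).cons hv) hI).mono ?_
    rintro s'' t ⟨ht, hK', hI'⟩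
    have e3 : s''.reg v = q := by rw [hK' v hvK, hv]
    have e4 : s''.reg 2 = 1 := by
      rw [hK' 2, e2]
      rw [notIn_true] at h2K ⊢
      exact fun h => h2K (List.mem_cons_of_mem _ h)
    apply Runs.add
    · rw [e3, e4]; omega
    · rw [e3, e4]
      refine ⟨?_, ?_, by simp, hIv _ _ _ hI'⟩
      · rw [Nat.add_mul, one_mul]; omega
      · refine (hK.trans ?_).trans (hvs _ _)
        intro x hx
        apply hK'
        rw [notIn_true] at hx ⊢
        exact fun h => hx (List.mem_cons_of_mem _ h)
  · rintro s' τ ⟨hτ, hK, hv, hI⟩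
    rw [hv, hK b hbK, hl b N hb]; omega
  · exact ⟨by omega, hvs _ _, by simp, hIv _ _ _ hI0⟩
  · rintro s' τ ⟨hτ, hK, hv, hI⟩
    exact hQ s' _ (by omega) hK hI

end Pool.Agent.H624R2.Lin
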